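import Pool.Agent.Helper671.UP.ArcJKernel
import Pool.Agent.Helper671.UP.ArcJFubini
import Pool.Agent.Helper671.UP.ArcJWinding
import Pool.Agent.Helper671.UP.ArcJParseval
import Pool.Agent.Helper671.UP.ArcPS

set_option autoImplicit false
open Complex Set Filter Metric Topology MeasureTheory

namespace Pool.Agent.Helper671.UP.Arc

open Pool.Agent.Helper671.UP.ArcJ

section
variable (h : ℂ → ℂ) (hh : DifferentiableOn ℂ h (ball (0 : ℂ) 1)) (h0 : h 0 ≠ 0)
    (hinj : ∀ x y : ℂ, x ≠ 0 → y ≠ 0 → ‖x‖ < 1 → ‖y‖ < 1 → h x / x = h y / y → x = y)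
    (P : Polynomial ℂ) (m : ℕ) (κ : ℕ → ℂ) (K : ℂ → ℂ) (hK : PS κ K)
    (hKP : ∀ w : ℂ, w ≠ 0 → ‖w‖ < 1 → K w / w ^ m = P.eval (h w / w))

include hh h0 hinj hK hKP in
theorem area_rho {ρ : ℝ} (hρ : 0 < ρ) (hρ1 : ρ < 1) :
    ∃ S : ℝ, HasSum (fun k : ℕ => (((k : ℝ) - m) * ‖κ k‖ ^ 2 * (ρ ^ 2) ^ k : ℝ)) S ∧ S ≤ 0 := by
  set G : ℂ → ℂ := fun w => K w / w ^ m with hG
  have hKd := hK.differentiableOn
  have hUo : IsOpen (ball (0 : ℂ) 1 \ {0}) := isOpen_ball.sdiff isClosed_singleton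
  have hGd : DifferentiableOn ℂ G (ball (0 : ℂ) 1 \ {0}) := by
    refine (hKd.mono sdiff_subset).div (by fun_prop) ?_
    intro z hz
    exact pow_ne_zero _ (by simpa using hz.2)
  have hGd' : DifferentiableOn ℂ (deriv G) (ball (0 : ℂ) 1 \ {0}) := hGd.deriv hUo
  have hcirc : ∀ θ : ℝ, circleMap 0 ρ θ ∈ ball (0 : ℂ) 1 \ {0} := by
    intro θ
    refine ⟨?_, ?_⟩
    · simp [circleMap, abs_of_pos hρ, hρ1]
    · have hne : circleMap 0 ρ θ ≠ 0 := circleMap_ne_center hρ.ne'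
      simpa using hne
  have hcc : Continuous (fun θ : ℝ => G (circleMap 0 ρ θ)) :=
    hGd.continuousOn.comp_continuous (continuous_circleMap 0 ρ) hcirc
  have hcc' : Continuous (fun θ : ℝ => circleMap 0 ρ θ * I * deriv G (circleMap 0 ρ θ)) :=
    ((continuous_circleMap 0 ρ).mul continuous_const).mul
      (hGd'.continuousOn.comp_continuous (continuous_circleMap 0 ρ) hcirc)
  -- bound for the curve
  have hbd : ∃ R : ℝ, ∀ θ : ℝ, ‖G (circleMap 0 ρ θ)‖ < R := by
    have hper : Function.Periodic (fun θ : ℝ => ‖G (circleMap 0 ρ θ)‖) (2 * Real.pi) := by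
      intro θ
      simp [periodic_circleMap 0 ρ θ]
    obtain ⟨C, hC⟩ := (isCompact_Icc (a := (0 : ℝ)) (b := 2 * Real.pi)).exists_bound_of_continuousOn
      hcc.continuousOn
    refine ⟨C + 1, fun θ => ?_⟩
    obtain ⟨y, hy, hyθ⟩ := hper.exists_mem_Ico₀ (by positivity) θ
    rw [hyθ]
    have := hC y ⟨hy.1, hy.2.le⟩
    linarith
  obtain ⟨R, hR⟩ := hbd
  have hfub := fubini_kernel (R := R) (B := 4 * Real.pi * R)
    (fun c hc => kernel_integrable hc) (fun c hc => kernel_value hc)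
    (fun c hc => kernel_norm_le hc) hcc hcc' hR
  have hpar := parseval_area κ K hK m hρ hρ1
  set Jc : ℂ := ∫ θ in (0 : ℝ)..(2 * Real.pi), (starRingEnd ℂ) (G (circleMap 0 ρ θ)) *
    (circleMap 0 ρ θ * I * deriv G (circleMap 0 ρ θ)) with hJc
  have hpar' : HasSum (fun k : ℕ => ((((k : ℝ) - m) * ‖κ k‖ ^ 2 * (ρ ^ 2) ^ k : ℝ) : ℂ))
      ((2 * Real.pi * I)⁻¹ * (ρ : ℂ) ^ (2 * m) * Jc) := hpar
  refine ⟨((2 * Real.pi * I)⁻¹ * (ρ : ℂ) ^ (2 * m) * Jc).re, ?_, ?_⟩
  · have h3 := Complex.reCLM.hasSum hpar'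
    simp only [Complex.reCLM_apply, Complex.ofReal_re, Function.comp_def] at h3
    exact h3
  · -- the value
    set W : ℂ → ℂ := fun v => ∫ θ in (0 : ℝ)..(2 * Real.pi),
      circleMap 0 ρ θ * I * deriv G (circleMap 0 ρ θ) * (G (circleMap 0 ρ θ) - v)⁻¹ with hW
    have hJ : (Real.pi : ℂ) * Jc = ∫ v in ball (0 : ℂ) R, W v := hfub
    have hWv : ∀ v : ℂ, (∀ ζ : ℂ, ‖ζ‖ = ρ → G ζ ≠ v) → ((2 * Real.pi * I)⁻¹ * W v).re ≤ 0 := by
      intro v hv
      have hGP : ∀ ζ : ℂ, ζ ≠ 0 → ‖ζ‖ < 1 → G ζ = P.eval (h ζ / ζ) := fun ζ h1 h2 => hKP ζ h1 h2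
      obtain ⟨n, hn⟩ := winding_poly_le h hh h0 hinj hρ hρ1 P v (fun ζ hζ => by
        have hζ0 : ζ ≠ 0 := by
          intro h; rw [h, norm_zero] at hζ; exact hρ.ne hζ
        rw [← hGP ζ hζ0 (by rw [hζ]; exact hρ1)]
        exact hv ζ hζ)
      have hWeq : W v = -(2 * Real.pi * I * n) := by
        rw [← hn, hW, circleIntegral]
        refine intervalIntegral.integral_congr fun θ _ => ?_
        have hz := hcirc θ
        have h1 : G (circleMap 0 ρ θ) = P.eval (h (circleMap 0 ρ θ) / circleMap 0 ρ θ) :=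
          hGP _ (by simpa using hz.2) (by simpa using hz.1)
        have h2 : deriv G (circleMap 0 ρ θ)
            = deriv (fun w => P.eval (h w / w)) (circleMap 0 ρ θ) := by
          apply Filter.EventuallyEq.deriv_eq
          filter_upwards [hUo.mem_nhds hz] with w hw
          exact hGP w (by simpa using hw.2) (by simpa using hw.1)
        simp only [smul_eq_mul, deriv_circleMap]
        rw [h1, h2]
        ring
      rw [hWeq]
      have : (2 * (Real.pi : ℂ) * I)⁻¹ * -(2 * Real.pi * I * n) = -(n : ℂ) := by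
        have hpi : (2 * (Real.pi : ℂ) * I) ≠ 0 := by
          simp [Real.pi_ne_zero]
        field_simp
      rw [this]
      simp
    -- almost every v is not on the curve
    have hnull : volume (G '' sphere (0 : ℂ) ρ) = 0 := by
      apply MeasureTheory.addHaar_image_eq_zero_of_differentiableOn_of_addHaar_eq_zero
      · intro z hz
        have hz1 : ‖z‖ = ρ := by simpa using hz
        have hzU : z ∈ ball (0 : ℂ) 1 \ {0} := by
          refine ⟨by simpa [hz1] using hρ1, ?_⟩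
          intro h; rw [mem_singleton_iff] at h; rw [h, norm_zero] at hz1; exact hρ.ne hz1
        exact ((hGd.differentiableAt (hUo.mem_nhds hzU)).restrictScalars ℝ).differentiableWithinAt
      · exact Measure.addHaar_sphere volume 0 ρ
    have hae : ∀ᵐ v ∂(volume.restrict (ball (0 : ℂ) R)), ((2 * Real.pi * I)⁻¹ * W v).re ≤ 0 := by
      apply ae_restrict_of_ae
      have : ∀ᵐ v ∂(volume : Measure ℂ), v ∉ G '' sphere (0 : ℂ) ρ :=
        measure_eq_zero_iff_ae_notMem.1 hnull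
      filter_upwards [this] with v hv
      apply hWv
      intro ζ hζ hc
      exact hv ⟨ζ, by simpa using hζ, hc⟩
    have hint : ((2 * Real.pi * I)⁻¹ * ∫ v in ball (0 : ℂ) R, W v).re ≤ 0 := by
      by_cases hi : IntegrableOn W (ball (0 : ℂ) R) volume
      · rw [← integral_const_mul]
        have hi2 : Integrable (fun v => (2 * Real.pi * I)⁻¹ * W v)
            (volume.restrict (ball (0 : ℂ) R)) := hi.const_mul _
        have h3 := Complex.reCLM.integral_comp_comm hi2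
        simp only [Complex.reCLM_apply] at h3
        rw [← h3]
        exact integral_nonpos_of_ae hae
      · rw [integral_undef hi]; simp
    have hfin : (2 * Real.pi * I)⁻¹ * (ρ : ℂ) ^ (2 * m) * Jc
        = ((ρ ^ (2 * m) / Real.pi : ℝ) : ℂ) * ((2 * Real.pi * I)⁻¹ * ∫ v in ball (0 : ℂ) R, W v) := by
      rw [← hJ]
      have : (Real.pi : ℂ) ≠ 0 := by exact_mod_cast Real.pi_ne_zero
      push_cast
      field_simp
    rw [hfin, Complex.re_ofReal_mul]
    exact mul_nonpos_of_nonneg_of_nonpos (by positivity) hint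

include hh h0 hinj hK hKP in
theorem area_poly (N : ℕ) (hN : m ≤ N) :
    ∑ k ∈ Finset.range N, ((k : ℝ) - m) * ‖κ k‖ ^ 2 ≤ 0 := by
  have key : ∀ ρ : ℝ, 0 < ρ → ρ < 1 →
      ∑ k ∈ Finset.range N, ((k : ℝ) - m) * ‖κ k‖ ^ 2 * (ρ ^ 2) ^ k ≤ 0 := by
    intro ρ hρ hρ1
    obtain ⟨S, hS, hS0⟩ := area_rho h hh h0 hinj P m κ K hK hKP hρ hρ1
    refine le_trans ?_ hS0
    refine sum_le_hasSum _ (fun k hk => ?_) hS
    have : N ≤ k := by simpa using hk
    have h2 : (m : ℝ) ≤ k := by exact_mod_cast hN.trans this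
    have h3 : 0 ≤ (k : ℝ) - m := by linarith
    positivity
  have hcont : Continuous (fun ρ : ℝ =>
      ∑ k ∈ Finset.range N, ((k : ℝ) - m) * ‖κ k‖ ^ 2 * (ρ ^ 2) ^ k) := by fun_prop
  have hlim := (hcont.tendsto 1).mono_left (nhdsWithin_le_nhds (s := Iio 1))
  have h1 : ∑ k ∈ Finset.range N, ((k : ℝ) - m) * ‖κ k‖ ^ 2 * ((1 : ℝ) ^ 2) ^ k
      = ∑ k ∈ Finset.range N, ((k : ℝ) - m) * ‖κ k‖ ^ 2 := by simp
  rw [h1] at hlim
  refine le_of_tendsto hlim ?_
  filter_upwards [Ioo_mem_nhdsLT (show (0 : ℝ) < 1 by norm_num)] with ρ hρ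
  exact key ρ hρ.1 hρ.2

end

end Pool.Agent.Helper671.UP.Arc
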