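import Mathlib

set_option autoImplicit false
open Complex Set Filter Metric Topology Function

namespace Pool.Agent.Helper671.UP

theorem tlu_of_pointwise {ι : Type*} {l : Filter ι} [l.NeBot] {U : Set ℂ} (hU : IsOpen U)
    {F : ι → ℂ → ℂ} {f : ℂ → ℂ} {M : ℝ}
    (hd : ∀ i, DifferentiableOn ℂ (F i) U) (hb : ∀ i, ∀ z ∈ U, ‖F i z‖ ≤ M)
    (hp : ∀ z ∈ U, Tendsto (fun i => F i z) l (𝓝 (f z))) :
    TendstoLocallyUniformlyOn F f l U := by
  obtain ⟨i0⟩ : Nonempty ι := l.nonempty_of_neBot
  rw [Metric.tendstoLocallyUniformlyOn_iff]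
  intro ε hε x hx
  obtain ⟨R, hR, hRU⟩ := Metric.isOpen_iff.1 hU x hx
  have hM : 0 ≤ M := le_trans (norm_nonneg _) (hb i0 x hx)
  have key : ∀ i, ∀ z ∈ ball x R, dist (F i z) (F i x) ≤ (2 * M + 1) / R * dist z x := by
    intro i z hz
    apply Complex.dist_le_div_mul_dist_of_mapsTo_ball ((hd i).mono hRU) _ hz
    intro w hw
    rw [mem_closedBall, dist_eq_norm]
    have h1 := hb i w (hRU hw)
    have h2 := hb i x hx
    have h3 := norm_sub_le (F i w) (F i x)
    linarith
  set L : ℝ := (2 * M + 1) / R with hL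
  have hLp : 0 < L := by positivity
  have keyf : ∀ z ∈ ball x R, dist (f z) (f x) ≤ L * dist z x := by
    intro z hz
    have h1 : Tendsto (fun i => dist (F i z) (F i x)) l (𝓝 (dist (f z) (f x))) :=
      (hp z (hRU hz)).dist (hp x hx)
    exact le_of_tendsto h1 (Eventually.of_forall fun i => key i z hz)
  refine ⟨ball x (min R (ε / (4 * L))), mem_nhdsWithin_of_mem_nhds (ball_mem_nhds _ (by positivity)), ?_⟩
  have hx' : ∀ᶠ i in l, dist (F i x) (f x) < ε / 4 := (Metric.tendsto_nhds.1 (hp x hx)) _ (by positivity)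
  filter_upwards [hx'] with i hi y hy
  have hy1 : y ∈ ball x R := ball_subset_ball (min_le_left _ _) hy
  have hy2 : dist y x < ε / (4 * L) := lt_of_lt_of_le hy (min_le_right _ _)
  have hy3 : L * dist y x < ε / 4 := by
    calc L * dist y x < L * (ε / (4 * L)) := by gcongr
      _ = ε / 4 := by field_simp
  have h1 := key i y hy1
  have h2 := keyf y hy1
  calc dist (f y) (F i y) ≤ dist (f y) (f x) + dist (f x) (F i x) + dist (F i x) (F i y) :=
        dist_triangle4 _ _ _ _
    _ < ε := by
        rw [dist_comm (f x), dist_comm (F i x) (F i y)]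
        linarith

/-- Hurwitz, local form. -/
theorem hurwitz {ι : Type*} {l : Filter ι} [l.NeBot] {V : Set ℂ} (hV : IsOpen V)
    {F : ι → ℂ → ℂ} {f : ℂ → ℂ}
    (hd : ∀ i, DifferentiableOn ℂ (F i) V) (hlim : TendstoLocallyUniformlyOn F f l V)
    (hne : ∀ i, ∀ z ∈ V, F i z ≠ 0) {a : ℂ} (ha : a ∈ V) (h0 : f a = 0) :
    ∀ᶠ z in 𝓝 a, f z = 0 := by
  have hfd : DifferentiableOn ℂ f V := hlim.differentiableOn (Eventually.of_forall hd) hV
  have hfa : AnalyticAt ℂ f a := hfd.analyticAt (hV.mem_nhds ha)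
  rcases hfa.eventually_eq_zero_or_eventually_ne_zero with h | h
  · exact h
  exfalso
  rw [eventually_nhdsWithin_iff, Metric.eventually_nhds_iff_ball] at h
  obtain ⟨r1, hr1, h1⟩ := h
  obtain ⟨r2, hr2, h2⟩ := Metric.isOpen_iff.1 hV a ha
  set r : ℝ := min r1 r2 / 2 with hr
  have hrp : 0 < r := by positivity
  have hr1' : r < r1 := by have := min_le_left r1 r2; have : 0 < min r1 r2 := by positivity
                           linarith
  have hr2' : r < r2 := by have := min_le_right r1 r2; have : 0 < min r1 r2 := by positivity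
                           linarith
  have hcb : closedBall a r ⊆ V := (closedBall_subset_ball hr2').trans h2
  have hsph : IsCompact (sphere a r) := isCompact_sphere a r
  have hne' : (sphere a r).Nonempty := NormedSpace.sphere_nonempty.2 hrp.le
  have hcont : ContinuousOn (fun z => ‖f z‖) (sphere a r) :=
    (hfd.continuousOn.mono (sphere_subset_closedBall.trans hcb)).norm
  obtain ⟨w, hw, hwmin⟩ := hsph.exists_isMinOn hne' hcont
  have hδ : 0 < ‖f w‖ := by
    rw [norm_pos_iff]
    apply h1 w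
    · have : dist w a = r := hw
      rw [mem_ball, this]; exact hr1'
    · intro hwa
      have : dist w a = r := hw
      rw [hwa, dist_self] at this
      linarith
  set δ := ‖f w‖ with hδdef
  have hunif : TendstoUniformlyOn F f l (closedBall a r) :=
    (tendstoLocallyUniformlyOn_iff_forall_isCompact hV).1 hlim _ hcb (isCompact_closedBall a r)
  have hev := (Metric.tendstoUniformlyOn_iff.1 hunif) (δ / 2) (by positivity)
  obtain ⟨i, hi⟩ := hev.exists
  have hsphb : ∀ z ∈ sphere a r, δ / 2 ≤ ‖F i z‖ := by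
    intro z hz
    have h3 := hi z (sphere_subset_closedBall hz)
    have h4 : δ ≤ ‖f z‖ := hwmin hz
    rw [dist_eq_norm] at h3
    have h5 : ‖f z‖ - ‖F i z‖ ≤ ‖f z - F i z‖ := norm_sub_norm_le _ _
    linarith
  have hctr : ‖F i a‖ < δ / 2 := by
    have h3 := hi a (mem_closedBall_self hrp.le)
    rw [dist_eq_norm, h0, zero_sub, norm_neg] at h3
    exact h3
  have hdc : DiffContOnCl ℂ (fun z => (F i z)⁻¹) (ball a r) := by
    apply DifferentiableOn.diffContOnCl
    rw [closure_ball a hrp.ne']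
    exact ((hd i).mono hcb).inv (fun z hz => hne i z (hcb hz))
  have hmax := Complex.norm_le_of_forall_mem_frontier_norm_le (C := 2 / δ) isBounded_ball hdc
    (by
      intro z hz
      rw [frontier_ball a hrp.ne'] at hz
      rw [norm_inv]
      have h3 := hsphb z hz
      rw [inv_le_comm₀ (by linarith) (by positivity)]
      rw [inv_div]
      exact h3) (subset_closure (mem_ball_self hrp))
  rw [norm_inv] at hmax
  have hpos : 0 < ‖F i a‖ := norm_pos_iff.2 (hne i a ha)
  rw [inv_le_comm₀ hpos (by positivity), inv_div] at hmax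
  linarith

theorem deriv_ne_zero_of_injOn {U : Set ℂ} (hU : IsOpen U) {f : ℂ → ℂ}
    (hf : DifferentiableOn ℂ f U) (hi : InjOn f U) {z : ℂ} (hz : z ∈ U) : deriv f z ≠ 0 := by
  intro h0
  obtain ⟨R, hR, hRU⟩ := Metric.isOpen_iff.1 hU z hz
  set ρ : ℝ := R / 4 with hρ
  have hρ0 : 0 < ρ := by positivity
  have hcb : closedBall z (2 * ρ) ⊆ U := (closedBall_subset_ball (by linarith)).trans hRU
  have hf' : DifferentiableOn ℂ (deriv f) U := hf.deriv hU
  obtain ⟨M, hM⟩ := (isCompact_closedBall z (2 * ρ)).exists_bound_of_continuousOn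
    (hf'.continuousOn.mono hcb)
  set h : ℕ → ℂ := fun n => ((ρ / (n + 1) : ℝ) : ℂ) with hh
  have hn : ∀ n, ‖h n‖ ≤ ρ ∧ h n ≠ 0 := by
    intro n
    have h1 : (0 : ℝ) < ρ / (n + 1) := by positivity
    constructor
    · simp only [hh]
      rw [Complex.norm_real, Real.norm_of_nonneg h1.le, div_le_iff₀ (by positivity)]
      have : (0 : ℝ) ≤ n := Nat.cast_nonneg n
      nlinarith
    · simp only [hh]
      exact_mod_cast h1.ne'
  have hmem : ∀ n, ∀ w ∈ ball z ρ, w + h n ∈ closedBall z (2 * ρ) := by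
    intro n w hw
    rw [mem_closedBall, dist_eq_norm]
    rw [mem_ball, dist_eq_norm] at hw
    have := (hn n).1
    calc ‖w + h n - z‖ = ‖(w - z) + h n‖ := by ring_nf
      _ ≤ ‖w - z‖ + ‖h n‖ := norm_add_le _ _
      _ ≤ 2 * ρ := by linarith
  have hsub : ball z ρ ⊆ closedBall z (2 * ρ) :=
    ball_subset_closedBall.trans (closedBall_subset_closedBall (by linarith))
  set F : ℕ → ℂ → ℂ := fun n w => (f (w + h n) - f w) / h n with hF
  have hFd : ∀ n, DifferentiableOn ℂ (F n) (ball z ρ) := by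
    intro n w hw
    have h1 : DifferentiableAt ℂ f (w + h n) := hf.differentiableAt (hU.mem_nhds (hcb (hmem n w hw)))
    have h2 : DifferentiableAt ℂ f w := hf.differentiableAt (hU.mem_nhds (hcb (hsub hw)))
    have h3 : DifferentiableAt ℂ (fun w => f (w + h n)) w :=
      DifferentiableAt.comp w h1 (differentiableAt_id.add_const _)
    exact ((h3.sub h2).div_const _).differentiableWithinAt
  have hFb : ∀ n, ∀ w ∈ ball z ρ, ‖F n w‖ ≤ M := by
    intro n w hw
    have hconv : Convex ℝ (closedBall z (2 * ρ)) := convex_closedBall _ _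
    have := hconv.norm_image_sub_le_of_norm_deriv_le (𝕜 := ℂ) (f := f) (C := M) (x := w) (y := w + h n)
      (fun x hx => hf.differentiableAt (hU.mem_nhds (hcb hx))) (fun x hx => hM x hx)
      (hsub hw) (hmem n w hw)
    simp only [hF]
    rw [norm_div, div_le_iff₀ (norm_pos_iff.2 (hn n).2)]
    simpa using this
  have hh0 : Tendsto h atTop (𝓝[≠] 0) := by
    rw [tendsto_nhdsWithin_iff]
    constructor
    · have h1 : Tendsto (fun n : ℕ => ρ * (1 / ((n : ℝ) + 1))) atTop (𝓝 (ρ * 0)) :=
        tendsto_one_div_add_atTop_nhds_zero_nat.const_mul ρ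
      have h2 : Tendsto (fun n : ℕ => ((ρ * (1 / ((n : ℝ) + 1)) : ℝ) : ℂ)) atTop (𝓝 ((ρ * 0 : ℝ) : ℂ)) :=
        (Complex.continuous_ofReal.tendsto _).comp h1
      simp only [mul_zero, Complex.ofReal_zero] at h2
      refine h2.congr ?_
      intro n
      simp only [hh]
      congr 1
      ring
    · exact Eventually.of_forall fun n => (hn n).2
  have hFp : ∀ w ∈ ball z ρ, Tendsto (fun n => F n w) atTop (𝓝 (deriv f w)) := by
    intro w hw
    have h1 : HasDerivAt f (deriv f w) w := (hf.differentiableAt (hU.mem_nhds (hcb (hsub hw)))).hasDerivAt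
    rw [hasDerivAt_iff_tendsto_slope_zero] at h1
    have h2 := h1.comp hh0
    refine h2.congr ?_
    intro n
    simp only [Function.comp, hF, smul_eq_mul]
    rw [div_eq_inv_mul]
  have htl := tlu_of_pointwise (l := atTop) isOpen_ball hFd hFb hFp
  have hFne : ∀ n, ∀ w ∈ ball z ρ, F n w ≠ 0 := by
    intro n w hw h1
    simp only [hF, div_eq_zero_iff, (hn n).2, or_false] at h1
    have h2 := hi (hcb (hmem n w hw)) (hcb (hsub hw)) (by linear_combination h1)
    apply (hn n).2
    linear_combination h2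
  have hev := hurwitz (l := atTop) isOpen_ball hFd htl hFne (mem_ball_self hρ0) h0
  -- f locally constant
  rw [Metric.eventually_nhds_iff_ball] at hev
  obtain ⟨ε, hε, hev⟩ := hev
  set δ := min ε ρ with hδ
  have hδ0 : 0 < δ := lt_min hε hρ0
  have hbU : ball z δ ⊆ U := (ball_subset_ball (min_le_right _ _)).trans (hsub.trans hcb)
  have hconst : ∀ w ∈ ball z δ, f w = f z := by
    intro w hw
    have hconv : Convex ℝ (ball z δ) := convex_ball _ _
    have := hconv.norm_image_sub_le_of_norm_deriv_le (𝕜 := ℂ) (f := f) (C := 0) (x := z) (y := w)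
      (fun x hx => hf.differentiableAt (hU.mem_nhds (hbU hx)))
      (fun x hx => by rw [hev x (ball_subset_ball (min_le_left _ _) hx)]; simp)
      (mem_ball_self hδ0) hw
    rw [zero_mul] at this
    have := norm_le_zero_iff.1 this
    linear_combination this
  have hw : z + ((δ / 2 : ℝ) : ℂ) ∈ ball z δ := by
    rw [mem_ball, dist_eq_norm, add_sub_cancel_left, Complex.norm_real, Real.norm_of_nonneg (by positivity)]
    linarith
  have h1 := hi (hbU hw) (hbU (mem_ball_self hδ0)) (hconst _ hw)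
  have h2 : ((δ / 2 : ℝ) : ℂ) = 0 := by linear_combination h1
  rw [Complex.ofReal_eq_zero] at h2
  linarith


theorem deriv_ne_zero_of_inj (f : ℂ → ℂ) (hd : DifferentiableOn ℂ f (ball (0 : ℂ) 1))
    (hinj : Set.InjOn f (ball (0 : ℂ) 1)) (ζ : ℂ) (hζ : ‖ζ‖ < 1) : deriv f ζ ≠ 0 :=
  deriv_ne_zero_of_injOn isOpen_ball hd hinj (by simpa using hζ)

end Pool.Agent.Helper671.UP
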