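import Mathlib
import Pool.Agent.Helper671.UP.Bieb
import Pool.Agent.Helper671.UP.DNZ

set_option autoImplicit false
open Complex Set Filter Metric Topology

namespace Pool.Agent.Helper671.UP

open Arc

/-- reversed polynomial -/
noncomputable def L1a_A (N : ℕ) (q : Polynomial ℂ) (z : ℂ) : ℂ :=
  ∑ i ∈ Finset.range (N + 1), (starRingEnd ℂ) (q.coeff (N - i)) * z ^ i

theorem L1a_succ (N : ℕ) (q : Polynomial ℂ) (z : ℂ) :
    L1a_A (N + 1) q z = z * L1a_A N q z + (starRingEnd ℂ) (q.coeff (N + 1)) := by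
  unfold L1a_A
  rw [Finset.sum_range_succ', Finset.mul_sum]
  congr 1
  · apply Finset.sum_congr rfl
    intro i _
    have h1 : N + 1 - (i + 1) = N - i := by omega
    rw [h1]; ring
  · simp

theorem L1a_mul (N : ℕ) (p : Polynomial ℂ) (c z : ℂ) :
    L1a_A (N + 1) (p * (Polynomial.X - Polynomial.C c)) z
      = L1a_A N p z - (starRingEnd ℂ) c * L1a_A (N + 1) p z := by
  have h1 : L1a_A (N + 1) p z = (∑ i ∈ Finset.range (N + 1),
      (starRingEnd ℂ) (p.coeff (N - i + 1)) * z ^ i) + (starRingEnd ℂ) (p.coeff 0) * z ^ (N + 1) := by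
    unfold L1a_A
    rw [Finset.sum_range_succ]
    congr 1
    · apply Finset.sum_congr rfl
      intro i hi
      have h2 : N + 1 - i = N - i + 1 := by
        have := Finset.mem_range.1 hi
        omega
      rw [h2]
    · simp
  have h3 : L1a_A (N + 1) (p * (Polynomial.X - Polynomial.C c)) z
      = (∑ i ∈ Finset.range (N + 1),
      (starRingEnd ℂ) (p.coeff (N - i) - p.coeff (N - i + 1) * c) * z ^ i)
        + (starRingEnd ℂ) (- (p.coeff 0 * c)) * z ^ (N + 1) := by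
    unfold L1a_A
    rw [Finset.sum_range_succ]
    congr 1
    · apply Finset.sum_congr rfl
      intro i hi
      have h2 : N + 1 - i = N - i + 1 := by
        have := Finset.mem_range.1 hi
        omega
      rw [h2, Polynomial.coeff_mul_X_sub_C]
    · simp [Polynomial.mul_coeff_zero]
  rw [h1, h3]
  unfold L1a_A
  simp only [map_sub, map_mul, map_neg, sub_mul, Finset.sum_sub_distrib]
  rw [mul_add, Finset.mul_sum]
  have h4 : ∀ i ∈ Finset.range (N + 1),
      (starRingEnd ℂ) (p.coeff (N - i + 1)) * (starRingEnd ℂ) c * z ^ i =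
      (starRingEnd ℂ) c * ((starRingEnd ℂ) (p.coeff (N - i + 1)) * z ^ i) := fun i _ => by ring
  rw [Finset.sum_congr rfl h4]
  ring

theorem L1a_ineq (c z : ℂ) (hz : ‖z‖ ≤ 1) (hc : 1 ≤ ‖c‖) :
    ‖1 - (starRingEnd ℂ) c * z‖ ≤ ‖z - c‖ := by
  have h1 : ‖1 - (starRingEnd ℂ) c * z‖ ^ 2 ≤ ‖z - c‖ ^ 2 := by
    have e1 : ‖z - c‖ ^ 2 - ‖1 - (starRingEnd ℂ) c * z‖ ^ 2 = (1 - ‖z‖ ^ 2) * (‖c‖ ^ 2 - 1) := by
      rw [← Complex.normSq_eq_norm_sq, ← Complex.normSq_eq_norm_sq, ← Complex.normSq_eq_norm_sq,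
        ← Complex.normSq_eq_norm_sq]
      simp only [Complex.normSq_apply, Complex.sub_re, Complex.sub_im, Complex.mul_re,
        Complex.mul_im, Complex.conj_re, Complex.conj_im, Complex.one_re, Complex.one_im]
      ring
    have e2 : 0 ≤ (1 - ‖z‖ ^ 2) * (‖c‖ ^ 2 - 1) := by
      apply mul_nonneg
      · nlinarith [norm_nonneg z]
      · nlinarith
    linarith
  exact (sq_le_sq₀ (norm_nonneg _) (norm_nonneg _)).1 h1

theorem L1a_main (N : ℕ) : ∀ (q : Polynomial ℂ), q.natDegree ≤ N →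
    (∀ z : ℂ, ‖z‖ < 1 → q.eval z ≠ 0) → ∀ z : ℂ, ‖z‖ ≤ 1 → ‖L1a_A N q z‖ ≤ ‖q.eval z‖ := by
  induction N with
  | zero =>
    intro q hq _ z _
    rw [Polynomial.eq_C_of_natDegree_le_zero hq]
    simp [L1a_A]
  | succ N ih =>
    intro q hq hz z h
    by_cases hd : q.natDegree ≤ N
    · rw [L1a_succ, Polynomial.coeff_eq_zero_of_natDegree_lt (Nat.lt_succ_of_le hd), map_zero,
        add_zero, norm_mul]
      calc ‖z‖ * ‖L1a_A N q z‖ ≤ 1 * ‖q.eval z‖ :=
            mul_le_mul h (ih q hd hz z h) (norm_nonneg _) zero_le_one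
        _ = _ := one_mul _
    · have hdeg : q.natDegree = N + 1 := by omega
      have hdne : q.degree ≠ 0 := by
        intro h0
        have := Polynomial.natDegree_eq_zero_iff_degree_le_zero.2 h0.le
        omega
      obtain ⟨c, hc⟩ := IsAlgClosed.exists_root q hdne
      have hc1 : 1 ≤ ‖c‖ := by
        by_contra hlt
        exact hz c (not_le.1 hlt) hc
      obtain ⟨p, hp⟩ := Polynomial.dvd_iff_isRoot.2 hc
      have hp0 : p ≠ 0 := by
        rintro rfl
        rw [mul_zero] at hp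
        rw [hp] at hdeg
        simp at hdeg
      have hpd : p.natDegree ≤ N := by
        have h1 := Polynomial.natDegree_mul (Polynomial.X_sub_C_ne_zero c) hp0
        rw [← hp, Polynomial.natDegree_X_sub_C] at h1
        omega
      have hpz : ∀ z : ℂ, ‖z‖ < 1 → p.eval z ≠ 0 := by
        intro w hw h0
        apply hz w hw
        rw [hp, Polynomial.eval_mul, h0, mul_zero]
      have h2 := ih p hpd hpz z h
      have h3 : L1a_A (N + 1) q z = (1 - (starRingEnd ℂ) c * z) * L1a_A N p z := by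
        rw [hp, mul_comm, L1a_mul, L1a_succ,
          Polynomial.coeff_eq_zero_of_natDegree_lt (Nat.lt_succ_of_le hpd), map_zero]
        ring
      rw [h3, norm_mul, hp, Polynomial.eval_mul, norm_mul]
      have h4 : ‖(Polynomial.X - Polynomial.C c).eval z‖ = ‖z - c‖ := by simp
      rw [h4]
      exact mul_le_mul (L1a_ineq c z h hc1) h2 (norm_nonneg _) (norm_nonneg _)

/-- TARGET L1a. -/
theorem rev_le (q : Polynomial ℂ) (N : ℕ) (hdeg : q.natDegree ≤ N)
    (hz : ∀ z : ℂ, ‖z‖ < 1 → q.eval z ≠ 0) (z : ℂ) (h : ‖z‖ ≤ 1) :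
    ‖∑ i ∈ Finset.range (N + 1), (starRingEnd ℂ) (q.coeff (N - i)) * z ^ i‖ ≤ ‖q.eval z‖ := by
  exact L1a_main N q hdeg hz z h

theorem L1b_ci {E : Type*} [NormedAddCommGroup E] {f : ℂ → E} (hf : Continuous f) :
    CircleIntegrable f 0 1 := hf.continuousOn.circleIntegrable zero_le_one

theorem L1b_mono (k i : ℕ) :
    Real.circleAverage (fun z : ℂ => (starRingEnd ℂ z) ^ k * z ^ i) 0 1 =
      if i = k then 1 else 0 := by
  have hpow : ∀ n : ℕ, Real.circleAverage (fun z : ℂ => z ^ n) 0 1 = 0 ^ n := by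
    intro n
    exact DiffContOnCl.circleAverage (f := fun z : ℂ => z ^ n) (c := 0) (R := 1)
      (Differentiable.diffContOnCl (by fun_prop))
  have hn : ∀ z ∈ sphere (0 : ℂ) |(1 : ℝ)|, (starRingEnd ℂ z) * z = 1 := by
    intro z hz
    rw [abs_one, mem_sphere_zero_iff_norm] at hz
    rw [Complex.conj_mul', hz]
    simp
  rcases lt_or_ge i k with h | h
  · rw [if_neg (by omega)]
    have e1 : Real.circleAverage (fun z : ℂ => (starRingEnd ℂ z) ^ k * z ^ i) 0 1 =
        Real.circleAverage ((Complex.conjCLE : ℂ →L[ℝ] ℂ) ∘ (fun z : ℂ => z ^ (k - i))) 0 1 := by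
      refine Real.circleAverage_congr_sphere fun z hz => ?_
      have e2 : k = (k - i) + i := by omega
      simp only [Function.comp_apply]
      conv_lhs => rw [e2, pow_add, mul_assoc, ← mul_pow, hn z hz, one_pow, mul_one]
      simp
    rw [e1, ContinuousLinearMap.circleAverage_comp_comm _ (L1b_ci (by fun_prop)), hpow,
      zero_pow (by omega), map_zero]
  · have e1 : Real.circleAverage (fun z : ℂ => (starRingEnd ℂ z) ^ k * z ^ i) 0 1 =
        Real.circleAverage (fun z : ℂ => z ^ (i - k)) 0 1 := by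
      refine Real.circleAverage_congr_sphere fun z hz => ?_
      have e2 : i = k + (i - k) := by omega
      conv_lhs => rw [e2, pow_add, ← mul_assoc, ← mul_pow, hn z hz, one_pow, one_mul]
    rw [e1, hpow]
    rcases eq_or_ne i k with h1 | h1
    · rw [if_pos h1, h1, Nat.sub_self, pow_zero]
    · rw [if_neg h1, zero_pow (by omega)]

theorem L1b_norm (f : ℂ → ℂ) :
    ‖Real.circleAverage f 0 1‖ ≤ Real.circleAverage (fun z => ‖f z‖) 0 1 := by
  unfold Real.circleAverage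
  rw [norm_smul, smul_eq_mul, Real.norm_eq_abs, abs_of_pos (inv_pos.2 Real.two_pi_pos)]
  exact mul_le_mul_of_nonneg_left
    (intervalIntegral.norm_integral_le_integral_norm Real.two_pi_pos.le)
    (inv_pos.2 Real.two_pi_pos).le

theorem L1b_cs (f : ℂ → ℂ) (hf : Continuous f) (g : ℂ → ℂ)
    (hg : ∀ z ∈ sphere (0 : ℂ) |(1 : ℝ)|, ‖g z‖ ≤ ‖f z‖) (hgi : CircleIntegrable g 0 1) :
    ‖Real.circleAverage g 0 1‖ ^ 2 ≤ Real.circleAverage (fun z => ‖f z‖ ^ 2) 0 1 := by
  set m : ℝ := Real.circleAverage (fun z => ‖f z‖) 0 1 with hm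
  have h1 : ‖Real.circleAverage g 0 1‖ ≤ m := by
    refine (L1b_norm g).trans (Real.circleAverage_mono hgi.norm (L1b_ci hf.norm) hg)
  have hm0 : 0 ≤ m := (norm_nonneg _).trans h1
  have h2 : Real.circleAverage (fun z => (2 * m) • ‖f z‖) 0 1 ≤
      Real.circleAverage (fun z => ‖f z‖ ^ 2 + m ^ 2) 0 1 := by
    refine Real.circleAverage_mono (L1b_ci (by fun_prop)) (L1b_ci (by fun_prop)) fun z _ => ?_
    rw [smul_eq_mul]
    nlinarith [sq_nonneg (‖f z‖ - m)]
  rw [Real.circleAverage_fun_smul, Real.circleAverage_fun_add (L1b_ci (by fun_prop))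
    (L1b_ci continuous_const), Real.circleAverage_const, smul_eq_mul, ← hm] at h2
  have h3 := pow_le_pow_left₀ (norm_nonneg _) h1 2
  nlinarith

theorem L1b_core (q : Polynomial ℂ) (N k : ℕ) (hdeg : q.natDegree ≤ N) (hk : k ≤ N)
    (hz : ∀ z : ℂ, ‖z‖ < 1 → q.eval z ≠ 0) (r : ℝ) (hr0 : 0 < r) (hr1 : r < 1) :
    (‖q.coeff (N - k)‖ * r ^ k) ^ 2 ≤ ∑ i ∈ Finset.range (k + 1), ‖q.coeff i‖ ^ 2 := by
  set Cp : Polynomial ℂ := ∑ i ∈ Finset.range (k + 1),
    Polynomial.monomial i (q.coeff i * (r : ℂ) ^ i) with hCp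
  set Rf : ℂ → ℂ := fun z => ∑ i ∈ Finset.range (N + 1),
    (starRingEnd ℂ) (q.coeff (N - i)) * ((r : ℂ) * z) ^ i with hRf
  set Ef : ℂ → ℂ := fun z => ∑ j ∈ Finset.range (N - k),
    q.coeff (k + 1 + j) * (r : ℂ) ^ (k + 1 + j) * z ^ j with hEf
  set hf : ℂ → ℂ := fun z => Rf z / q.eval ((r : ℂ) * z) with hhf
  have hrz : ∀ z : ℂ, ‖z‖ ≤ 1 → ‖(r : ℂ) * z‖ < 1 := by
    intro z h
    rw [norm_mul, Complex.norm_real, Real.norm_eq_abs, abs_of_pos hr0]
    nlinarith [norm_nonneg z]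
  have hq0 : ∀ z : ℂ, ‖z‖ ≤ 1 → q.eval ((r : ℂ) * z) ≠ 0 := fun z h => hz _ (hrz z h)
  have hh1 : ∀ z : ℂ, ‖z‖ ≤ 1 → ‖hf z‖ ≤ 1 := by
    intro z h
    simp only [hhf]
    rw [norm_div]
    refine div_le_one_of_le₀ ?_ (norm_nonneg _)
    exact rev_le q N hdeg hz _ (hrz z h).le
  have hqe : ∀ z : ℂ, q.eval ((r : ℂ) * z) = Cp.eval z + z ^ (k + 1) * Ef z := by
    intro z
    rw [Polynomial.eval_eq_sum_range' (Nat.lt_succ_of_le hdeg)]
    have e1 : N + 1 = (k + 1) + (N - k) := by omega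
    rw [Nat.succ_eq_add_one, e1, Finset.sum_range_add]
    congr 1
    · rw [hCp, Polynomial.eval_finsetSum]
      refine Finset.sum_congr rfl fun i _ => ?_
      rw [Polynomial.eval_monomial, mul_pow]
      ring
    · simp only [hEf]
      rw [Finset.mul_sum]
      refine Finset.sum_congr rfl fun j _ => ?_
      rw [mul_pow, pow_add z (k + 1) j]
      ring
  have hRc : Continuous Rf := by fun_prop
  have hEc : Continuous Ef := by fun_prop
  have hRd : Differentiable ℂ Rf := by fun_prop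
  have hEd : Differentiable ℂ Ef := by fun_prop
  have hqd : Differentiable ℂ (fun z : ℂ => q.eval ((r : ℂ) * z)) := by fun_prop
  have hhd : ∀ z : ℂ, ‖z‖ ≤ 1 → DifferentiableAt ℂ hf z := by
    intro z h
    exact (hRd z).div (hqd z) (hq0 z h)
  -- the coefficient
  have hcoef : Real.circleAverage (fun z : ℂ => (starRingEnd ℂ z) ^ k * Rf z) 0 1 =
      (starRingEnd ℂ) (q.coeff (N - k)) * (r : ℂ) ^ k := by
    have e1 : (fun z : ℂ => (starRingEnd ℂ z) ^ k * Rf z) = fun z =>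
        ∑ i ∈ Finset.range (N + 1), ((starRingEnd ℂ) (q.coeff (N - i)) * (r : ℂ) ^ i) •
          ((starRingEnd ℂ z) ^ k * z ^ i) := by
      funext z
      simp only [hRf]
      rw [Finset.mul_sum]
      refine Finset.sum_congr rfl fun i _ => ?_
      rw [smul_eq_mul, mul_pow]
      ring
    rw [e1, Real.circleAverage_fun_sum (fun i _ => L1b_ci (by
      simp only [smul_eq_mul]
      exact continuous_const.mul ((Complex.continuous_conj.pow k).mul (continuous_pow i))))]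
    have e2 : ∀ i ∈ Finset.range (N + 1), Real.circleAverage (fun z : ℂ =>
        ((starRingEnd ℂ) (q.coeff (N - i)) * (r : ℂ) ^ i) • ((starRingEnd ℂ z) ^ k * z ^ i)) 0 1 =
        if i = k then (starRingEnd ℂ) (q.coeff (N - i)) * (r : ℂ) ^ i else 0 := by
      intro i _
      rw [Real.circleAverage_fun_smul, L1b_mono]
      split_ifs <;> simp
    rw [Finset.sum_congr rfl e2, Finset.sum_ite_eq']
    rw [if_pos (Finset.mem_range.2 (by omega))]
  -- splitting
  have hmv : Real.circleAverage (fun z : ℂ => z * hf z * Ef z) 0 1 = 0 := by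
    have h1 : DiffContOnCl ℂ (fun z : ℂ => z * hf z * Ef z) (ball 0 |(1 : ℝ)|) := by
      refine DifferentiableOn.diffContOnCl fun z hz' => ?_
      rw [abs_one, closure_ball (0 : ℂ) one_ne_zero, mem_closedBall_zero_iff] at hz'
      exact ((differentiableAt_id.mul (hhd z hz')).mul (hEd z)).differentiableWithinAt
    rw [DiffContOnCl.circleAverage h1]
    simp
  have hci1 : CircleIntegrable (fun z : ℂ => (starRingEnd ℂ z) ^ k * hf z * Cp.eval z) 0 1 := by
    refine ContinuousOn.circleIntegrable zero_le_one fun z hz' => ?_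
    rw [mem_sphere_zero_iff_norm] at hz'
    exact (((Complex.continuous_conj.pow k).continuousAt.mul
      (hhd z hz'.le).continuousAt).mul Cp.continuous.continuousAt).continuousWithinAt
  have hci2 : CircleIntegrable (fun z : ℂ => z * hf z * Ef z) 0 1 := by
    refine ContinuousOn.circleIntegrable zero_le_one fun z hz' => ?_
    rw [mem_sphere_zero_iff_norm] at hz'
    exact ((continuousAt_id.mul (hhd z hz'.le).continuousAt).mul
      hEc.continuousAt).continuousWithinAt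
  have hsplit : Real.circleAverage (fun z : ℂ => (starRingEnd ℂ z) ^ k * Rf z) 0 1 =
      Real.circleAverage (fun z : ℂ => (starRingEnd ℂ z) ^ k * hf z * Cp.eval z) 0 1 := by
    have e1 : Real.circleAverage (fun z : ℂ => (starRingEnd ℂ z) ^ k * Rf z) 0 1 =
        Real.circleAverage (fun z : ℂ => (starRingEnd ℂ z) ^ k * hf z * Cp.eval z +
          z * hf z * Ef z) 0 1 := by
      refine Real.circleAverage_congr_sphere fun z hz' => ?_
      rw [abs_one, mem_sphere_zero_iff_norm] at hz'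
      have e2 : (starRingEnd ℂ z) * z = 1 := by
        rw [Complex.conj_mul', hz']
        simp
      have e3 : Rf z = hf z * (Cp.eval z + z ^ (k + 1) * Ef z) := by
        rw [← hqe z]
        simp only [hhf]
        rw [div_mul_cancel₀ _ (hq0 z hz'.le)]
      have e4 : (starRingEnd ℂ z) ^ k * z ^ (k + 1) = z := by
        rw [pow_succ, ← mul_assoc, ← mul_pow, e2, one_pow, one_mul]
      show (starRingEnd ℂ z) ^ k * Rf z = (starRingEnd ℂ z) ^ k * hf z * Cp.eval z +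
          z * hf z * Ef z
      rw [e3]
      linear_combination (hf z * Ef z) * e4
    rw [e1, Real.circleAverage_fun_add hci1 hci2, hmv, add_zero]
  have hmain := L1b_cs (fun z => Cp.eval z) Cp.continuous
    (fun z : ℂ => (starRingEnd ℂ z) ^ k * hf z * Cp.eval z) (fun z hz' => by
      rw [abs_one, mem_sphere_zero_iff_norm] at hz'
      rw [norm_mul, norm_mul, norm_pow, RCLike.norm_conj, hz', one_pow, one_mul]
      exact mul_le_of_le_one_left (norm_nonneg _) (hh1 z hz'.le)) hci1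
  rw [← hsplit, hcoef, ← Polynomial.sum_sq_norm_coeff_eq_circleAverage] at hmain
  rw [norm_mul, RCLike.norm_conj, norm_pow, Complex.norm_real, Real.norm_eq_abs,
    abs_of_pos hr0] at hmain
  refine hmain.trans ?_
  have hcc : ∀ i, Cp.coeff i = if i ∈ Finset.range (k + 1) then q.coeff i * (r : ℂ) ^ i else 0 := by
    intro i
    rw [hCp, Polynomial.finsetSum_coeff]
    simp only [Polynomial.coeff_monomial]
    rw [Finset.sum_ite_eq']
  have hsub : Cp.support ⊆ Finset.range (k + 1) := by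
    intro i hi
    by_contra hcon
    rw [Polynomial.mem_support_iff, hcc, if_neg hcon] at hi
    exact hi rfl
  refine (Finset.sum_le_sum_of_subset_of_nonneg hsub fun i _ _ => by positivity).trans ?_
  refine Finset.sum_le_sum fun i hi => ?_
  rw [hcc, if_pos hi, norm_mul, norm_pow, Complex.norm_real, Real.norm_eq_abs, abs_of_pos hr0]
  refine pow_le_pow_left₀ (by positivity) ?_ 2
  exact mul_le_of_le_one_right (norm_nonneg _) (pow_le_one₀ hr0.le hr1.le)

/-- TARGET L1b. -/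
theorem coeff_top_le (q : Polynomial ℂ) (N k : ℕ) (hdeg : q.natDegree ≤ N) (hk : k ≤ N)
    (hz : ∀ z : ℂ, ‖z‖ < 1 → q.eval z ≠ 0) :
    ‖q.coeff (N - k)‖ ^ 2 ≤ ∑ i ∈ Finset.range (k + 1), ‖q.coeff i‖ ^ 2 := by
  have h1 : Tendsto (fun r : ℝ => (‖q.coeff (N - k)‖ * r ^ k) ^ 2) (𝓝[<] 1)
      (𝓝 ((‖q.coeff (N - k)‖ * 1 ^ k) ^ 2)) := by
    have : Continuous (fun r : ℝ => (‖q.coeff (N - k)‖ * r ^ k) ^ 2) := by fun_prop
    exact (this.tendsto 1).mono_left nhdsWithin_le_nhds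
  rw [one_pow, mul_one] at h1
  refine le_of_tendsto h1 ?_
  have h2 : Set.Ioo (0:ℝ) 1 ∈ 𝓝[<] (1:ℝ) := Ioo_mem_nhdsLT one_pos
  filter_upwards [h2] with r hr
  exact L1b_core q N k hdeg hk hz r hr.1 hr.2

/-- Koebe transform of `f` at `ζ` -/
noncomputable def KT (f : ℂ → ℂ) (ζ z : ℂ) : ℂ :=
  (f ((z + ζ) / (1 + (starRingEnd ℂ) ζ * z)) - f ζ) / (((1 - ‖ζ‖ ^ 2 : ℝ) : ℂ) * deriv f ζ)

theorem L2a_c (ζ : ℂ) : ((1 - ‖ζ‖ ^ 2 : ℝ) : ℂ) = 1 - ζ * (starRingEnd ℂ) ζ := by
  rw [Complex.mul_conj, Complex.normSq_eq_norm_sq]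
  push_cast
  ring

theorem L2a_den (ζ z : ℂ) : HasDerivAt (fun z : ℂ => 1 + (starRingEnd ℂ) ζ * z) ((starRingEnd ℂ) ζ) z := by
  simpa using ((hasDerivAt_id z).const_mul ((starRingEnd ℂ) ζ)).const_add 1

theorem L2a_T (ζ z : ℂ) (h : 1 + (starRingEnd ℂ) ζ * z ≠ 0) :
    HasDerivAt (fun z : ℂ => (z + ζ) / (1 + (starRingEnd ℂ) ζ * z))
      (((1 - ‖ζ‖ ^ 2 : ℝ) : ℂ) / (1 + (starRingEnd ℂ) ζ * z) ^ 2) z := by
  have h1 : HasDerivAt (fun z : ℂ => z + ζ) 1 z := (hasDerivAt_id z).add_const ζ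
  have h3 := h1.fun_div (L2a_den ζ z) h
  refine h3.congr_deriv ?_
  rw [L2a_c]
  congr 1
  ring

/-- TARGET L2a. -/
theorem tr_deriv2 (f : ℂ → ℂ) (hd : Differentiable ℂ f) (ζ : ℂ) (hζ : ‖ζ‖ < 1)
    (hne : deriv f ζ ≠ 0) :
    deriv (KT f ζ) 0 = 1 ∧ deriv (deriv (KT f ζ)) 0 =
      ((1 - ‖ζ‖ ^ 2 : ℝ) : ℂ) * (deriv (deriv f) ζ / deriv f ζ) - 2 * (starRingEnd ℂ) ζ := by
  set c : ℂ := ((1 - ‖ζ‖ ^ 2 : ℝ) : ℂ) with hc
  set w : ℂ := (starRingEnd ℂ) ζ with hw
  have hc0 : c ≠ 0 := by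
    rw [hc]
    have : (0:ℝ) < 1 - ‖ζ‖ ^ 2 := by nlinarith [norm_nonneg ζ]
    exact_mod_cast this.ne'
  have hden0 : (1 : ℂ) + w * 0 ≠ 0 := by simp
  -- first derivative formula
  have hfirst : ∀ z : ℂ, 1 + w * z ≠ 0 →
      HasDerivAt (KT f ζ) (deriv f ((z + ζ) / (1 + w * z)) * (c / (1 + w * z) ^ 2) / (c * deriv f ζ)) z := by
    intro z hz
    have h1 := L2a_T ζ z hz
    have h2 : HasDerivAt f (deriv f ((z + ζ) / (1 + w * z))) ((z + ζ) / (1 + w * z)) :=
      (hd _).hasDerivAt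
    have h3 := (HasDerivAt.comp z h2 h1).sub_const (f ζ)
    exact h3.div_const (c * deriv f ζ)
  have hev : ∀ᶠ z in 𝓝 (0:ℂ), 1 + w * z ≠ 0 := by
    have hcont : ContinuousAt (fun z : ℂ => 1 + w * z) 0 := (L2a_den ζ 0).continuousAt
    exact hcont.eventually_ne hden0
  have heq : deriv (KT f ζ) =ᶠ[𝓝 0] fun z =>
      deriv f ((z + ζ) / (1 + w * z)) * (c / (1 + w * z) ^ 2) / (c * deriv f ζ) := by
    filter_upwards [hev] with z hz
    exact (hfirst z hz).deriv
  constructor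
  · rw [(hfirst 0 hden0).deriv]
    simp only [zero_add, mul_zero, add_zero, div_one, one_pow]
    field_simp
  · rw [heq.deriv_eq]
    have hT := L2a_T ζ 0 hden0
    have hdd : HasDerivAt (deriv f) (deriv (deriv f) ((0 + ζ) / (1 + w * 0))) ((0 + ζ) / (1 + w * 0)) := by
      have hdiff : Differentiable ℂ (deriv f) := by
        have h := (hd.contDiff (n := 2))
        exact (contDiff_succ_iff_deriv.1 (by simpa using (hd.contDiff (n := 1 + 1)))).2.2.differentiable (by norm_num)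
      exact (hdiff _).hasDerivAt
    have h4 := HasDerivAt.comp (0:ℂ) hdd hT
    have h5 : HasDerivAt (fun z : ℂ => c / (1 + w * z) ^ 2) (-2 * w * c) 0 := by
      have h6 := ((L2a_den ζ 0).fun_pow 2).fun_inv (by simp)
      have h7 := h6.const_mul c
      refine (h7.congr_deriv ?_).congr_of_eventuallyEq ?_
      · rw [← hw]
        simp
        ring
      · exact Filter.Eventually.of_forall (fun z => by simp only [div_eq_mul_inv, hw])
    have h8 := (h4.mul h5).div_const (c * deriv f ζ)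
    have h9 := h8.deriv
    simp only [Function.comp_def] at h9
    refine Eq.trans ?_ (h9.trans ?_)
    · rfl
    · simp only [zero_add, mul_zero, add_zero, div_one, one_pow]
      rw [← hc]
      field_simp
      ring

theorem L2b_normSq (z ζ : ℂ) :
    Complex.normSq (1 + (starRingEnd ℂ) ζ * z) - Complex.normSq (z + ζ) =
      (1 - Complex.normSq z) * (1 - Complex.normSq ζ) := by
  simp [Complex.normSq_apply]
  ring

theorem L2b_pos (z ζ : ℂ) (hz : ‖z‖ < 1) (hζ : ‖ζ‖ < 1) :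
    Complex.normSq (z + ζ) < Complex.normSq (1 + (starRingEnd ℂ) ζ * z) := by
  have h := L2b_normSq z ζ
  have h1 : Complex.normSq z < 1 := by
    rw [Complex.normSq_eq_norm_sq]
    nlinarith [norm_nonneg z]
  have h2 : Complex.normSq ζ < 1 := by
    rw [Complex.normSq_eq_norm_sq]
    nlinarith [norm_nonneg ζ]
  have h3 : 0 < (1 - Complex.normSq z) * (1 - Complex.normSq ζ) :=
    mul_pos (by linarith) (by linarith)
  linarith

theorem L2b_den (z ζ : ℂ) (hz : ‖z‖ < 1) (hζ : ‖ζ‖ < 1) : 1 + (starRingEnd ℂ) ζ * z ≠ 0 := by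
  intro h
  have h1 := L2b_pos z ζ hz hζ
  rw [h, Complex.normSq_zero] at h1
  exact absurd (Complex.normSq_nonneg (z + ζ)) (not_le.mpr h1)

theorem L2b_map (z ζ : ℂ) (hz : ‖z‖ < 1) (hζ : ‖ζ‖ < 1) :
    ‖(z + ζ) / (1 + (starRingEnd ℂ) ζ * z)‖ < 1 := by
  have hd := L2b_den z ζ hz hζ
  have h1 := L2b_pos z ζ hz hζ
  rw [norm_div, div_lt_one (norm_pos_iff.mpr hd)]
  rw [Complex.normSq_eq_norm_sq, Complex.normSq_eq_norm_sq] at h1
  exact lt_of_pow_lt_pow_left₀ 2 (norm_nonneg _) h1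

theorem L2b_injT (z w ζ : ℂ) (hz : ‖z‖ < 1) (hw : ‖w‖ < 1) (hζ : ‖ζ‖ < 1)
    (h : (z + ζ) / (1 + (starRingEnd ℂ) ζ * z) = (w + ζ) / (1 + (starRingEnd ℂ) ζ * w)) :
    z = w := by
  rw [div_eq_div_iff (L2b_den z ζ hz hζ) (L2b_den w ζ hw hζ)] at h
  have h1 : (z - w) * (1 - ζ * (starRingEnd ℂ) ζ) = 0 := by linear_combination h
  have h2 : (1 - ζ * (starRingEnd ℂ) ζ) ≠ 0 := by
    rw [Complex.mul_conj]
    intro h3
    have h4 : Complex.normSq ζ = 1 := by
      have : ((Complex.normSq ζ : ℝ) : ℂ) = 1 := by linear_combination -h3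
      exact_mod_cast this
    rw [Complex.normSq_eq_norm_sq] at h4
    nlinarith [norm_nonneg ζ]
  rcases mul_eq_zero.mp h1 with h3 | h3
  · exact sub_eq_zero.mp h3
  · exact absurd h3 h2

/-- TARGET L2. -/
theorem koebe_tr (f : ℂ → ℂ) (hd : Differentiable ℂ f) (hinj : Set.InjOn f (ball (0 : ℂ) 1))
    (ζ : ℂ) (hζ : ‖ζ‖ < 1) :
    ‖((1 - ‖ζ‖ ^ 2 : ℝ) : ℂ) * (deriv (deriv f) ζ / deriv f ζ) - 2 * (starRingEnd ℂ) ζ‖ ≤ 4 := by
  have hne := deriv_ne_zero_of_inj f hd.differentiableOn hinj ζ hζ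
  obtain ⟨hF1, hF2⟩ := tr_deriv2 f hd ζ hζ hne
  have hden : (((1 - ‖ζ‖ ^ 2 : ℝ) : ℂ) * deriv f ζ) ≠ 0 := by
    apply mul_ne_zero _ hne
    have : (1 - ‖ζ‖ ^ 2 : ℝ) ≠ 0 := by nlinarith [norm_nonneg ζ]
    exact_mod_cast this
  have hS : InS (KT f ζ) := by
    refine ⟨?_, ?_, ?_, hF1⟩
    · intro z hz
      rw [mem_ball_zero_iff] at hz
      have h1 : DifferentiableAt ℂ (fun z => (z + ζ) / (1 + (starRingEnd ℂ) ζ * z)) z :=
        DifferentiableAt.div (by fun_prop) (by fun_prop) (L2b_den z ζ hz hζ)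
      have h2 : DifferentiableAt ℂ (fun z => f ((z + ζ) / (1 + (starRingEnd ℂ) ζ * z))) z :=
        DifferentiableAt.comp z (hd _) h1
      exact ((h2.sub_const _).div_const _).differentiableWithinAt
    · intro z hz w hw h
      rw [mem_ball_zero_iff] at hz hw
      unfold KT at h
      have h1 : f ((z + ζ) / (1 + (starRingEnd ℂ) ζ * z)) =
          f ((w + ζ) / (1 + (starRingEnd ℂ) ζ * w)) := by
        have h2 := (div_left_inj' hden).mp h
        linear_combination h2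
      have h3 := hinj (mem_ball_zero_iff.mpr (L2b_map z ζ hz hζ))
        (mem_ball_zero_iff.mpr (L2b_map w ζ hw hζ)) h1
      exact L2b_injT z w ζ hz hw hζ h3
    · unfold KT
      simp
  obtain ⟨a, ha⟩ := exists_PS hS.1
  have hps := (PS.hasFPowerSeries ha).hasFPowerSeriesAt
  have hps2 := hps.analyticAt.hasFPowerSeriesAt
  have heq := hps.eq_formalMultilinearSeries hps2
  have hco : a = fun n => iteratedDeriv n (KT f ζ) 0 / n.factorial :=
    FormalMultilinearSeries.ofScalars_series_injective ℂ ℂ heq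
  have ha2 : deriv (deriv (KT f ζ)) 0 = 2 * a 2 := by
    rw [hco]
    have h1 : iteratedDeriv 2 (KT f ζ) 0 = deriv (deriv (KT f ζ)) 0 := by
      rw [iteratedDeriv_succ, iteratedDeriv_one]
    simp only [h1]
    norm_num [Nat.factorial]
    ring
  obtain ⟨B, hB⟩ := (isCompact_closedBall (0:ℂ) 1).exists_bound_of_continuousOn
    hd.continuous.continuousOn
  have hbd : ∀ z ∈ ball (0:ℂ) 1, ‖KT f ζ z‖ ≤ (B + ‖f ζ‖) / ‖((1 - ‖ζ‖ ^ 2 : ℝ) : ℂ) * deriv f ζ‖ := by
    intro z hz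
    rw [mem_ball_zero_iff] at hz
    unfold KT
    rw [norm_div]
    apply div_le_div_of_nonneg_right _ (norm_nonneg _)
    refine (norm_sub_le _ _).trans ?_
    have := hB ((z + ζ) / (1 + (starRingEnd ℂ) ζ * z))
      (mem_closedBall_zero_iff.mpr (L2b_map z ζ hz hζ).le)
    linarith
  have hlim : Tendsto (fun n : ℕ => ‖a 2 + 1 / (n : ℂ)‖) atTop (𝓝 ‖a 2 + 0‖) := by
    apply Tendsto.norm
    apply Tendsto.add tendsto_const_nhds
    exact tendsto_one_div_atTop_nhds_zero_nat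
  have hev : ∀ᶠ n : ℕ in atTop, ‖a 2 + 1 / (n : ℂ)‖ ≤ 2 := by
    obtain ⟨N, hN⟩ := exists_nat_gt ((B + ‖f ζ‖) / ‖((1 - ‖ζ‖ ^ 2 : ℝ) : ℂ) * deriv f ζ‖)
    filter_upwards [eventually_ge_atTop N] with n hn
    apply bieb_gen hS ha
    rintro ⟨z, hz, hzn⟩
    have h1 := hbd z hz
    rw [hzn, Complex.norm_natCast] at h1
    have h2 : (N:ℝ) ≤ n := by exact_mod_cast hn
    linarith
  have h2 : ‖a 2‖ ≤ 2 := by
    have := le_of_tendsto hlim hev
    simpa using this
  rw [← hF2, ha2, norm_mul]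
  norm_num
  linarith

theorem L3_wderiv (t : ℝ) (h0 : 0 ≤ t) :
    HasDerivAt (fun t : ℝ => (1 - t) ^ 6 / (1 + t) ^ 2)
      (-((1 - t) ^ 5 * (8 + 4 * t)) / (1 + t) ^ 3) t := by
  have h1 : (1 + t) ≠ 0 := by positivity
  have hA : HasDerivAt (fun t : ℝ => (1 - t) ^ 6) (6 * (1 - t) ^ 5 * (-1)) t := by
    have h2 : HasDerivAt (fun t : ℝ => 1 - t) (-1) t := (hasDerivAt_id t).const_sub 1
    have := h2.fun_pow 6
    refine this.congr_deriv ?_
    norm_num
  have hB : HasDerivAt (fun t : ℝ => (1 + t) ^ 2) (2 * (1 + t) * 1) t := by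
    have h2 : HasDerivAt (fun t : ℝ => 1 + t) 1 t := (hasDerivAt_id t).const_add 1
    have := h2.fun_pow 2
    refine this.congr_deriv ?_
    norm_num
  have := hA.div hB (pow_ne_zero 2 h1)
  refine this.congr_deriv ?_
  field_simp
  ring

theorem L3_re (f : ℂ → ℂ) 
    (hk : ∀ ζ : ℂ, ‖ζ‖ < 1 →
      ‖((1 - ‖ζ‖ ^ 2 : ℝ) : ℂ) * (deriv (deriv f) ζ / deriv f ζ) - 2 * (starRingEnd ℂ) ζ‖ ≤ 4)
    (u : ℂ) (hu : ‖u‖ = 1) (t : ℝ) (h0 : 0 ≤ t) (h1 : t < 1) :
    (1 - t ^ 2) * ((deriv (deriv f) (t * u) / deriv f (t * u)) * u).re ≤ 4 + 2 * t := by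
  have hn : ‖(t : ℂ) * u‖ = t := by
    rw [norm_mul, hu, mul_one, Complex.norm_real, Real.norm_of_nonneg h0]
  have h := hk (t * u) (by rw [hn]; exact h1)
  rw [hn] at h
  have h2 : ‖(((1 - t ^ 2 : ℝ) : ℂ) * (deriv (deriv f) (t * u) / deriv f (t * u)) - 2 * (starRingEnd ℂ) (t * u)) * u‖ ≤ 4 := by
    rw [norm_mul, hu, mul_one]; exact h
  have h3 := (Complex.re_le_norm _).trans h2
  have huu : (starRingEnd ℂ) u * u = 1 := by
    rw [mul_comm, Complex.mul_conj, Complex.normSq_eq_norm_sq, hu]; norm_num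
  have h4 : (((1 - t ^ 2 : ℝ) : ℂ) * (deriv (deriv f) (t * u) / deriv f (t * u)) - 2 * (starRingEnd ℂ) (t * u)) * u
      = ((1 - t ^ 2 : ℝ) : ℂ) * ((deriv (deriv f) (t * u) / deriv f (t * u)) * u) - ((2 * t : ℝ) : ℂ) := by
    rw [map_mul, Complex.conj_ofReal]
    calc _ = ((1 - t ^ 2 : ℝ) : ℂ) * ((deriv (deriv f) (t * u) / deriv f (t * u)) * u) - 2 * t * ((starRingEnd ℂ) u * u) := by ring
      _ = _ := by rw [huu]; push_cast; ring
  rw [h4, Complex.sub_re, Complex.re_ofReal_mul, Complex.ofReal_re] at h3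
  linarith

/-- TARGET L3. -/
theorem distortion (f : ℂ → ℂ) (hd : Differentiable ℂ f) (h1 : deriv f 0 = 1)
    (hne : ∀ z : ℂ, ‖z‖ < 1 → deriv f z ≠ 0)
    (hk : ∀ ζ : ℂ, ‖ζ‖ < 1 →
      ‖((1 - ‖ζ‖ ^ 2 : ℝ) : ℂ) * (deriv (deriv f) ζ / deriv f ζ) - 2 * (starRingEnd ℂ) ζ‖ ≤ 4)
    (z : ℂ) (hz : ‖z‖ < 1) : ‖deriv f z‖ ≤ (1 + ‖z‖) / (1 - ‖z‖) ^ 3 := by
  by_cases hz0 : z = 0
  · subst hz0; simp [h1]
  have hr : 0 < ‖z‖ := norm_pos_iff.mpr hz0
  set r := ‖z‖ with hrdef
  set u : ℂ := z / r with hudef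
  have hu : ‖u‖ = 1 := by
    rw [hudef, norm_div, Complex.norm_real, Real.norm_of_nonneg hr.le, ← hrdef]
    exact div_self hr.ne'
  have hzu : z = r * u := by
    have hrc : (r : ℂ) ≠ 0 := by exact_mod_cast hr.ne'
    rw [hudef]; field_simp
  have hdd : Differentiable ℂ (deriv f) := by
    have := (hd.differentiableOn (s := univ)).deriv isOpen_univ
    exact differentiableOn_univ.mp this
  have hF : ∀ t : ℝ, HasDerivAt (fun t : ℝ => deriv f (t * u)) (deriv (deriv f) (t * u) * u) t := by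
    intro t
    have h1 : HasDerivAt (fun t : ℝ => (t : ℂ) * u) (1 * u) t := (Complex.ofRealCLM.hasDerivAt.mul_const u)
    have h2 := (hdd (t * u)).hasDerivAt
    have h3 := HasDerivAt.comp t h2 h1
    rw [one_mul] at h3
    exact h3
  have hN : ∀ t : ℝ, HasDerivAt (fun t : ℝ => ‖deriv f (t * u)‖ ^ 2)
      (2 * inner ℝ (deriv f (t * u)) (deriv (deriv f) (t * u) * u)) t := fun t => (hF t).norm_sq
  have hh : ∀ t : ℝ, 0 ≤ t → HasDerivAt (fun t : ℝ => ‖deriv f (t * u)‖ ^ 2 * ((1 - t) ^ 6 / (1 + t) ^ 2))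
      (2 * inner ℝ (deriv f (t * u)) (deriv (deriv f) (t * u) * u) * ((1 - t) ^ 6 / (1 + t) ^ 2)
        + ‖deriv f (t * u)‖ ^ 2 * (-((1 - t) ^ 5 * (8 + 4 * t)) / (1 + t) ^ 3)) t :=
    fun t ht => (hN t).mul (L3_wderiv t ht)
  have hanti : AntitoneOn (fun t : ℝ => ‖deriv f (t * u)‖ ^ 2 * ((1 - t) ^ 6 / (1 + t) ^ 2)) (Icc 0 r) := by
    apply antitoneOn_of_deriv_nonpos (convex_Icc 0 r)
    · intro t ht
      exact (hh t ht.1).continuousAt.continuousWithinAt
    · intro t ht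
      rw [interior_Icc] at ht
      exact (hh t ht.1.le).differentiableAt.differentiableWithinAt
    · intro t ht
      rw [interior_Icc] at ht
      rw [(hh t ht.1.le).deriv]
      have ht0 : 0 < t := ht.1
      have ht1 : t < 1 := lt_trans ht.2 hz
      have hn : ‖(t : ℂ) * u‖ = t := by
        rw [norm_mul, hu, mul_one, Complex.norm_real, Real.norm_of_nonneg ht0.le]
      have hne' := hne (t * u) (by rw [hn]; exact ht1)
      have hre := L3_re f hk u hu t ht0.le ht1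
      set q := (deriv (deriv f) (t * u) / deriv f (t * u)) * u with hq
      have hin : inner ℝ (deriv f (t * u)) (deriv (deriv f) (t * u) * u) = ‖deriv f (t * u)‖ ^ 2 * q.re := by
        have e : deriv (deriv f) (t * u) * u = q * deriv f (t * u) := by
          rw [hq]; field_simp
        rw [e, Complex.inner]
        have e2 : (starRingEnd ℂ) (deriv f (t * u)) * (q * deriv f (t * u)) = ((‖deriv f (t * u)‖ ^ 2 : ℝ) : ℂ) * q := by
          have : (starRingEnd ℂ) (deriv f (t * u)) * (q * deriv f (t * u)) = (deriv f (t * u) * (starRingEnd ℂ) (deriv f (t * u))) * q := by ring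
          rw [this, Complex.mul_conj, Complex.normSq_eq_norm_sq]
        have e5 : (starRingEnd ℂ) (deriv f (t * u)) * (q * deriv f (t * u)) = (q * deriv f (t * u)) * (starRingEnd ℂ) (deriv f (t * u)) := mul_comm _ _
        first
          | rw [e2, Complex.re_ofReal_mul]
          | rw [← e5, e2, Complex.re_ofReal_mul]
      rw [hin]
      have hsq : 0 ≤ ‖deriv f (t * u)‖ ^ 2 := by positivity
      have hkey : 2 * q.re * ((1 - t) ^ 6 / (1 + t) ^ 2) + (-((1 - t) ^ 5 * (8 + 4 * t)) / (1 + t) ^ 3) ≤ 0 := by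
        have e3 : 2 * q.re * ((1 - t) ^ 6 / (1 + t) ^ 2) + (-((1 - t) ^ 5 * (8 + 4 * t)) / (1 + t) ^ 3)
            = 2 * (1 - t) ^ 5 / (1 + t) ^ 3 * ((1 - t ^ 2) * q.re - (4 + 2 * t)) := by
          have : (1 + t) ≠ 0 := by positivity
          field_simp
          ring
        rw [e3]
        apply mul_nonpos_of_nonneg_of_nonpos
        · have : 0 ≤ 1 - t := by linarith
          positivity
        · linarith
      nlinarith [mul_nonneg hsq (neg_nonneg.mpr hkey)]
  have h5 := hanti (left_mem_Icc.mpr hr.le) (right_mem_Icc.mpr hr.le) hr.le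
  simp only [ofReal_zero, zero_mul, h1, norm_one, one_pow, sub_zero, add_zero, div_one, mul_one] at h5
  rw [← hzu] at h5
  have hp1 : 0 < 1 - r := by linarith
  have hp2 : 0 < 1 + r := by linarith
  have h6 : ‖deriv f z‖ ^ 2 ≤ ((1 + r) / (1 - r) ^ 3) ^ 2 := by
    rw [div_pow, le_div_iff₀ (by positivity)]
    rw [mul_div_assoc', div_le_iff₀ (by positivity)] at h5
    calc ‖deriv f z‖ ^ 2 * ((1 - r) ^ 3) ^ 2 = ‖deriv f z‖ ^ 2 * (1 - r) ^ 6 := by ring
      _ ≤ _ := by linarith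
  exact (pow_le_pow_iff_left₀ (norm_nonneg _) (by positivity) two_ne_zero).mp h6

/-- TARGET L4. -/
theorem growth (f : ℂ → ℂ) (hd : Differentiable ℂ f) (h0 : f 0 = 0)
    (hdist : ∀ z : ℂ, ‖z‖ < 1 → ‖deriv f z‖ ≤ (1 + ‖z‖) / (1 - ‖z‖) ^ 3)
    (z : ℂ) (hz : ‖z‖ < 1) : ‖f z‖ ≤ ‖z‖ / (1 - ‖z‖) ^ 2 := by
  set r : ℝ := ‖z‖ with hr
  have hr0 : 0 ≤ r := norm_nonneg z
  have hpos : ∀ t : ℝ, t ≤ 1 → 0 < 1 - t * r := by
    intro t ht
    have : t * r ≤ 1 * r := mul_le_mul_of_nonneg_right ht hr0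
    linarith
  have hderf : ∀ t : ℝ, HasDerivAt (fun t : ℝ => f ((t : ℂ) * z)) (deriv f ((t : ℂ) * z) * z) t := by
    intro t
    have h1 : HasDerivAt (fun s : ℂ => s * z) z (t : ℂ) := by
      simpa using (hasDerivAt_id (t : ℂ)).mul_const z
    have h2 : HasDerivAt (fun s : ℂ => f (s * z)) (deriv f ((t : ℂ) * z) * z) (t : ℂ) :=
      (hd ((t : ℂ) * z)).hasDerivAt.comp (t : ℂ) h1
    exact h2.comp_ofReal
  have hderB : ∀ t : ℝ, t ≤ 1 → HasDerivAt (fun t : ℝ => t * r / (1 - t * r) ^ 2)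
      (r * ((1 + t * r) / (1 - t * r) ^ 3)) t := by
    intro t ht
    have hp := hpos t ht
    have h1 : HasDerivAt (fun s : ℝ => s * r) r t := by
      simpa using (hasDerivAt_id t).mul_const r
    have h2 : HasDerivAt (fun s : ℝ => (1 - s * r) ^ 2) (((2 : ℕ) : ℝ) * (1 - t * r) ^ (2 - 1) * (-r)) t := by
      have h3 : HasDerivAt (fun s : ℝ => 1 - s * r) (-r) t := by
        simpa using h1.const_sub 1
      exact h3.pow 2
    have h4 : HasDerivAt (fun t : ℝ => t * r / (1 - t * r) ^ 2) ((r * (1 - t * r) ^ 2 -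
        t * r * (((2 : ℕ) : ℝ) * (1 - t * r) ^ (2 - 1) * (-r))) / ((1 - t * r) ^ 2) ^ 2) t :=
      h1.div h2 (by positivity)
    refine h4.congr_deriv ?_
    have hne : 1 - t * r ≠ 0 := hp.ne'
    generalize hq : 1 - t * r = q at hne
    have ht' : t * r = 1 - q := by rw [← hq]; ring
    rw [ht']
    norm_num
    field_simp
    ring
  have key := image_norm_le_of_norm_deriv_right_le_deriv_boundary' (a := (0:ℝ)) (b := 1)
    (f := fun t : ℝ => f ((t : ℂ) * z)) (f' := fun t : ℝ => deriv f ((t : ℂ) * z) * z)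
    (fun t _ => (hderf t).continuousAt.continuousWithinAt)
    (fun t _ => (hderf t).hasDerivWithinAt)
    (B := fun t : ℝ => t * r / (1 - t * r) ^ 2) (B' := fun t : ℝ => r * ((1 + t * r) / (1 - t * r) ^ 3))
    (by simp [h0])
    (fun t ht => (hderB t ht.2).continuousAt.continuousWithinAt)
    (fun t ht => (hderB t ht.2.le).hasDerivWithinAt)
    (by
      intro t ht
      have hn : ‖(t : ℂ) * z‖ = t * r := by
        rw [norm_mul, Complex.norm_real, Real.norm_of_nonneg ht.1]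
      have h1 : ‖(t : ℂ) * z‖ < 1 := by
        rw [hn]
        have := hpos t ht.2.le
        linarith
      have h2 := hdist _ h1
      rw [hn] at h2
      rw [norm_mul, mul_comm]
      exact mul_le_mul_of_nonneg_left h2 hr0)
  have := key (x := 1) ⟨zero_le_one, le_refl 1⟩
  simpa using this

theorem L5_det_mul (c : ℂ) : ((ContinuousLinearMap.toSpanSingleton ℂ c).restrictScalars ℝ).det = ‖c‖ ^ 2 := by
  have : (((ContinuousLinearMap.toSpanSingleton ℂ c).restrictScalars ℝ : ℂ →L[ℝ] ℂ) : ℂ →ₗ[ℝ] ℂ) = ((LinearMap.toSpanSingleton ℂ ℂ c).restrictScalars ℝ) := by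
    ext <;> simp
  rw [ContinuousLinearMap.det, this, LinearMap.det_restrictScalars]
  simp [Algebra.norm_complex_apply, Complex.normSq_eq_norm_sq]

theorem L5_ang (j l : ℕ) :
    ∫ θ in Ioo (-Real.pi) Real.pi, exp ((((j : ℂ) - l) * I) * (θ : ℂ))
      = if l = j then ((2 * Real.pi : ℝ) : ℂ) else 0 := by
  rw [← MeasureTheory.integral_Ioc_eq_integral_Ioo,
    ← intervalIntegral.integral_of_le (by linarith [Real.pi_pos])]
  split_ifs with h
  · subst h
    simp
    ring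
  · have hne : (((j : ℂ) - l) * I) ≠ 0 := by
      apply mul_ne_zero _ I_ne_zero
      rw [sub_ne_zero]
      exact_mod_cast fun h' : j = l => h h'.symm
    rw [integral_exp_mul_complex hne]
    have : exp (((j : ℂ) - l) * I * ((Real.pi : ℝ) : ℂ)) = exp (((j : ℂ) - l) * I * ((-Real.pi : ℝ) : ℂ)) := by
      rw [exp_eq_exp_iff_exists_int]
      refine ⟨(j : ℤ) - l, ?_⟩
      push_cast
      ring
    rw [this]
    simp

theorem L5_rad (r : ℝ) (hr : 0 < r) (m : ℕ) :
    ∫ ρ in Ioi (0:ℝ), (Iio r).indicator (fun ρ : ℝ => (ρ : ℂ) ^ (m + 1)) ρ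
      = ((r ^ (m + 2) / (m + 2) : ℝ) : ℂ) := by
  rw [MeasureTheory.setIntegral_indicator measurableSet_Iio, Ioi_inter_Iio,
    ← MeasureTheory.integral_Ioc_eq_integral_Ioo, ← intervalIntegral.integral_of_le hr.le]
  have h : ∀ ρ : ℝ, (ρ : ℂ) ^ (m + 1) = ((ρ ^ (m + 1) : ℝ) : ℂ) := fun ρ => by push_cast; rfl
  simp only [h]
  rw [intervalIntegral.integral_ofReal, integral_pow]
  push_cast
  simp
  ring

theorem L5_mono (r : ℝ) (hr : 0 < r) (j l : ℕ) :
    ∫ z in ball (0:ℂ) r, (starRingEnd ℂ) z ^ l * z ^ j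
      = if l = j then ((Real.pi * r ^ (2 * j + 2) / (j + 1) : ℝ) : ℂ) else 0 := by
  rw [← MeasureTheory.integral_indicator measurableSet_ball, ← Complex.integral_comp_polarCoord_symm]
  have h1 : ∀ p ∈ polarCoord.target, p.1 • (ball (0:ℂ) r).indicator
        (fun z => (starRingEnd ℂ) z ^ l * z ^ j) (Complex.polarCoord.symm p)
      = (Iio r).indicator (fun ρ : ℝ => (ρ:ℂ) ^ (j + l + 1)) p.1
        * exp ((((j : ℂ) - l) * I) * ((p.2 : ℝ) : ℂ)) := by
    rintro ⟨ρ, θ⟩ hp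
    rw [polarCoord_target] at hp
    have hρ : 0 < ρ := hp.1
    have hn : ‖Complex.polarCoord.symm (ρ, θ)‖ = ρ := by
      rw [Complex.norm_polarCoord_symm, abs_of_pos hρ]
    have he : Complex.polarCoord.symm (ρ, θ) = (ρ : ℂ) * exp (θ * I) := by
      rw [Complex.polarCoord_symm_apply, exp_mul_I]
      push_cast
      rfl
    by_cases h : ρ < r
    · rw [indicator_of_mem (by rw [mem_ball_zero_iff, hn]; exact h), indicator_of_mem (mem_Iio.2 h), he]
      simp only [map_mul, conj_ofReal, ← exp_conj, conj_I, mul_pow, ← exp_nat_mul, real_smul]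
      rw [mul_mul_mul_comm, ← exp_add, ← pow_add, ← mul_assoc, ← pow_succ', show l + j + 1 = j + l + 1 by ring]
      congr 2
      ring
    · rw [indicator_of_notMem (by rw [mem_ball_zero_iff, hn]; exact h), indicator_of_notMem (by simpa using h)]
      simp
  rw [MeasureTheory.setIntegral_congr_fun polarCoord.open_target.measurableSet h1, polarCoord_target,
    MeasureTheory.Measure.volume_eq_prod,
    MeasureTheory.setIntegral_prod_mul (fun ρ : ℝ => (Iio r).indicator (fun ρ : ℝ => (ρ:ℂ) ^ (j + l + 1)) ρ)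
      (fun θ : ℝ => exp ((((j : ℂ) - l) * I) * (θ : ℂ))), L5_rad r hr, L5_ang]
  split_ifs with h
  · subst h
    push_cast
    have : (l : ℂ) + 1 ≠ 0 := by exact_mod_cast (Nat.succ_ne_zero l)
    have e : (l : ℂ) + l + 2 = 2 * (l + 1) := by ring
    rw [e, show l + l + 2 = 2 * l + 2 by ring]
    field_simp
  · simp

/-- TARGET L5. -/
theorem area_poly_le (P : Polynomial ℂ) (n : ℕ) (hdeg : P.natDegree ≤ n) (r M : ℝ) (hr : 0 < r)
    (hr1 : r < 1) (hinj : Set.InjOn (fun z => P.eval z) (ball (0 : ℂ) 1))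
    (hM : ∀ z : ℂ, ‖z‖ ≤ r → ‖P.eval z‖ ≤ M) :
    ∑ i ∈ Finset.range (n + 1), (i : ℝ) * ‖P.coeff i‖ ^ 2 * r ^ (2 * i) ≤ M ^ 2 := by
  have hM0 : 0 ≤ M := (norm_nonneg _).trans (hM 0 (by simpa using hr.le))
  set Q : Polynomial ℂ := Polynomial.derivative P with hQ
  have hQd : Q.natDegree < n + 1 := by
    have h := Polynomial.natDegree_derivative_le P
    rw [← hQ] at h
    omega
  -- area formula
  have harea := MeasureTheory.lintegral_abs_det_fderiv_eq_addHaar_image MeasureTheory.volume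
    (s := ball (0:ℂ) r) (f := fun z => P.eval z)
    (f' := fun z => (ContinuousLinearMap.toSpanSingleton ℂ (Q.eval z)).restrictScalars ℝ)
    measurableSet_ball (fun z _ => ((P.hasDerivAt z).hasFDerivAt.restrictScalars ℝ).hasFDerivWithinAt)
    (hinj.mono (ball_subset_ball hr1.le))
  simp only [L5_det_mul] at harea
  have hle : MeasureTheory.volume ((fun z => P.eval z) '' ball (0:ℂ) r) ≤ ENNReal.ofReal (Real.pi * M ^ 2) := by
    calc _ ≤ MeasureTheory.volume (closedBall (0:ℂ) M) := by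
          apply MeasureTheory.measure_mono
          rintro _ ⟨z, hz, rfl⟩
          rw [mem_closedBall_zero_iff]
          exact hM z (by rw [mem_ball_zero_iff] at hz; exact hz.le)
      _ = _ := by
          rw [Complex.volume_closedBall, mul_comm, ENNReal.ofReal_mul Real.pi_pos.le, ENNReal.ofReal_pow hM0]
          congr 1
          rw [← NNReal.coe_real_pi, ENNReal.ofReal_coe_nnreal]
  have hcont : Continuous (fun z : ℂ => ‖Q.eval z‖ ^ 2) := (Q.continuous.norm).pow 2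
  have hint : MeasureTheory.IntegrableOn (fun z : ℂ => ‖Q.eval z‖ ^ 2) (ball (0:ℂ) r) :=
    (hcont.continuousOn.integrableOn_compact (isCompact_closedBall (0:ℂ) r)).mono_set ball_subset_closedBall
  have hI : ∫ z in ball (0:ℂ) r, ‖Q.eval z‖ ^ 2 ≤ Real.pi * M ^ 2 := by
    have h1 := MeasureTheory.ofReal_integral_eq_lintegral_ofReal hint
      (Eventually.of_forall fun z => by positivity)
    have h2 : ∫⁻ z in ball (0:ℂ) r, ENNReal.ofReal (‖Q.eval z‖ ^ 2) = ∫⁻ z in ball (0:ℂ) r, ENNReal.ofReal |‖Q.eval z‖ ^ 2| := by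
      congr 1
      ext z
      rw [abs_of_nonneg (by positivity)]
    rw [h2, harea] at h1
    rw [← h1] at hle
    exact (ENNReal.ofReal_le_ofReal_iff (by positivity)).1 hle
  have hexp : ∫ z in ball (0:ℂ) r, ((‖Q.eval z‖ ^ 2 : ℝ) : ℂ)
      = ∑ l ∈ Finset.range (n + 1), ∑ j ∈ Finset.range (n + 1),
        ((starRingEnd ℂ) (Q.coeff l) * Q.coeff j) * (if l = j then ((Real.pi * r ^ (2 * j + 2) / (j + 1) : ℝ) : ℂ) else 0) := by
    have h1 : ∀ z : ℂ, ((‖Q.eval z‖ ^ 2 : ℝ) : ℂ) = ∑ l ∈ Finset.range (n + 1), ∑ j ∈ Finset.range (n + 1),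
        ((starRingEnd ℂ) (Q.coeff l) * Q.coeff j) * ((starRingEnd ℂ) z ^ l * z ^ j) := by
      intro z
      rw [← Complex.normSq_eq_norm_sq, Complex.normSq_eq_conj_mul_self, Polynomial.eval_eq_sum_range' hQd,
        map_sum, Finset.sum_mul_sum]
      refine Finset.sum_congr rfl fun l _ => Finset.sum_congr rfl fun j _ => ?_
      simp only [map_mul, map_pow]
      ring
    have hi : ∀ l j : ℕ, MeasureTheory.IntegrableOn (fun z : ℂ => ((starRingEnd ℂ) (Q.coeff l) * Q.coeff j) * ((starRingEnd ℂ) z ^ l * z ^ j)) (ball (0:ℂ) r) := by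
      intro l j
      have hc : Continuous (fun z : ℂ => ((starRingEnd ℂ) (Q.coeff l) * Q.coeff j) * ((starRingEnd ℂ) z ^ l * z ^ j)) :=
        continuous_const.mul ((Complex.continuous_conj.pow l).mul (continuous_id.pow j))
      exact (hc.continuousOn.integrableOn_compact (isCompact_closedBall (0:ℂ) r)).mono_set ball_subset_closedBall
    simp only [h1]
    rw [MeasureTheory.integral_finsetSum _ (fun l _ => MeasureTheory.integrable_finsetSum _ (fun j _ => hi l j))]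
    refine Finset.sum_congr rfl fun l _ => ?_
    rw [MeasureTheory.integral_finsetSum _ (fun j _ => hi l j)]
    refine Finset.sum_congr rfl fun j _ => ?_
    rw [MeasureTheory.integral_const_mul, L5_mono r hr j l]
  have hval : ∫ z in ball (0:ℂ) r, ‖Q.eval z‖ ^ 2 = ∑ j ∈ Finset.range (n + 1), ‖Q.coeff j‖ ^ 2 * (Real.pi * r ^ (2 * j + 2) / (j + 1)) := by
    have h1 : ((∫ z in ball (0:ℂ) r, ‖Q.eval z‖ ^ 2 : ℝ) : ℂ) = ((∑ j ∈ Finset.range (n + 1), ‖Q.coeff j‖ ^ 2 * (Real.pi * r ^ (2 * j + 2) / (j + 1)) : ℝ) : ℂ) := by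
      rw [← integral_complex_ofReal, hexp]
      push_cast
      refine Finset.sum_congr rfl fun l hl => ?_
      simp only [mul_ite, mul_zero]
      rw [Finset.sum_ite_eq, if_pos hl]
      have h3 : ((‖Q.coeff l‖ : ℂ)) ^ 2 = (starRingEnd ℂ) (Q.coeff l) * Q.coeff l := by
        rw [← Complex.normSq_eq_conj_mul_self, Complex.normSq_eq_norm_sq]
        push_cast
        rfl
      rw [h3]
    exact_mod_cast h1
  have hterm : ∀ j : ℕ, ‖Q.coeff j‖ ^ 2 * (Real.pi * r ^ (2 * j + 2) / (j + 1))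
      = Real.pi * (((j + 1 : ℕ) : ℝ) * ‖P.coeff (j + 1)‖ ^ 2 * r ^ (2 * (j + 1))) := by
    intro j
    have h1 : ‖Q.coeff j‖ = ‖P.coeff (j + 1)‖ * ((j : ℝ) + 1) := by
      rw [hQ, Polynomial.coeff_derivative, norm_mul]
      congr 1
      have : ((j : ℂ) + 1) = (((j : ℝ) + 1 : ℝ) : ℂ) := by push_cast; rfl
      rw [this, Complex.norm_real, Real.norm_of_nonneg (by positivity)]
    rw [h1]
    push_cast
    have : (j : ℝ) + 1 ≠ 0 := by positivity
    field_simp
    ring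
  rw [hval] at hI
  simp only [hterm] at hI
  rw [← Finset.mul_sum] at hI
  have hI2 := le_of_mul_le_mul_left hI Real.pi_pos
  have hshift := Finset.sum_range_succ' (fun i : ℕ => (i : ℝ) * ‖P.coeff i‖ ^ 2 * r ^ (2 * i)) (n + 1)
  rw [Finset.sum_range_succ] at hshift
  have hz : P.coeff (n + 1) = 0 := Polynomial.coeff_eq_zero_of_natDegree_lt (by omega)
  simp only [hz, norm_zero, Nat.cast_zero, zero_mul, add_zero] at hshift
  rw [show ((n + 1 : ℕ) : ℝ) * 0 ^ 2 * r ^ (2 * (n + 1)) = 0 by simp, add_zero] at hshift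
  rw [hshift]
  exact hI2

end Pool.Agent.Helper671.UP
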