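import Mathlib
import Pool.Agent.Helper671.UP.Univ

set_option autoImplicit false
open Complex Set Filter Metric Topology

namespace Pool.Agent.Helper671.UP

open Arc ArcJ

/-- `P(z) = z + a₂ z² + … + aₙ zⁿ` is injective in the open unit disc. -/
def UnivPoly (n : ℕ) (P : Polynomial ℂ) : Prop :=
  P.natDegree ≤ n ∧ P.coeff 0 = 0 ∧ P.coeff 1 = 1 ∧
    Set.InjOn (fun z : ℂ => P.eval z) (Metric.ball (0 : ℂ) 1)

theorem U1_val (a : ℕ → ℂ) (m : ℕ) (r : ℝ) (hr : 0 < r) :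
    ∫ z in ball (0:ℂ) r, ‖∑ j ∈ Finset.range m, a j * z ^ j‖ ^ 2
      = ∑ j ∈ Finset.range m, ‖a j‖ ^ 2 * (Real.pi * r ^ (2 * j + 2) / (j + 1)) := by
  have hexp : ∫ z in ball (0:ℂ) r, ((‖∑ j ∈ Finset.range m, a j * z ^ j‖ ^ 2 : ℝ) : ℂ)
      = ∑ l ∈ Finset.range m, ∑ j ∈ Finset.range m,
        ((starRingEnd ℂ) (a l) * a j) * (if l = j then ((Real.pi * r ^ (2 * j + 2) / (j + 1) : ℝ) : ℂ) else 0) := by
    have h1 : ∀ z : ℂ, ((‖∑ j ∈ Finset.range m, a j * z ^ j‖ ^ 2 : ℝ) : ℂ) = ∑ l ∈ Finset.range m, ∑ j ∈ Finset.range m,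
        ((starRingEnd ℂ) (a l) * a j) * ((starRingEnd ℂ) z ^ l * z ^ j) := by
      intro z
      rw [← Complex.normSq_eq_norm_sq, Complex.normSq_eq_conj_mul_self,
        map_sum, Finset.sum_mul_sum]
      refine Finset.sum_congr rfl fun l _ => Finset.sum_congr rfl fun j _ => ?_
      simp only [map_mul, map_pow]
      ring
    have hi : ∀ l j : ℕ, MeasureTheory.IntegrableOn (fun z : ℂ => ((starRingEnd ℂ) (a l) * a j) * ((starRingEnd ℂ) z ^ l * z ^ j)) (ball (0:ℂ) r) := by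
      intro l j
      have hc : Continuous (fun z : ℂ => ((starRingEnd ℂ) (a l) * a j) * ((starRingEnd ℂ) z ^ l * z ^ j)) :=
        continuous_const.mul ((Complex.continuous_conj.pow l).mul (continuous_id.pow j))
      exact (hc.continuousOn.integrableOn_compact (isCompact_closedBall (0:ℂ) r)).mono_set ball_subset_closedBall
    simp only [h1]
    rw [MeasureTheory.integral_finsetSum _ (fun l _ => MeasureTheory.integrable_finsetSum _ (fun j _ => hi l j))]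
    refine Finset.sum_congr rfl fun l _ => ?_
    rw [MeasureTheory.integral_finsetSum _ (fun j _ => hi l j)]
    refine Finset.sum_congr rfl fun j _ => ?_
    rw [MeasureTheory.integral_const_mul, L5_mono r hr j l]
  have h1 : ((∫ z in ball (0:ℂ) r, ‖∑ j ∈ Finset.range m, a j * z ^ j‖ ^ 2 : ℝ) : ℂ) = ((∑ j ∈ Finset.range m, ‖a j‖ ^ 2 * (Real.pi * r ^ (2 * j + 2) / (j + 1)) : ℝ) : ℂ) := by
    rw [← integral_complex_ofReal, hexp]
    push_cast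
    refine Finset.sum_congr rfl fun l hl => ?_
    simp only [mul_ite, mul_zero]
    rw [Finset.sum_ite_eq, if_pos hl]
    have h3 : ((‖a l‖ : ℂ)) ^ 2 = (starRingEnd ℂ) (a l) * a l := by
      rw [← Complex.normSq_eq_conj_mul_self, Complex.normSq_eq_norm_sq]
      push_cast
      rfl
    rw [h3]
  exact_mod_cast h1

theorem U1_term (c : ℂ) (j : ℕ) (r : ℝ) :
    ‖((j : ℂ) + 1) * c‖ ^ 2 * (Real.pi * r ^ (2 * j + 2) / (j + 1))
      = Real.pi * (((j + 1 : ℕ) : ℝ) * ‖c‖ ^ 2 * r ^ (2 * (j + 1))) := by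
  have h1 : ‖((j : ℂ) + 1) * c‖ = ‖c‖ * ((j : ℝ) + 1) := by
    rw [norm_mul, mul_comm]
    congr 1
    have : ((j : ℂ) + 1) = (((j : ℝ) + 1 : ℝ) : ℂ) := by push_cast; rfl
    rw [this, Complex.norm_real, Real.norm_of_nonneg (by positivity)]
  rw [h1]
  push_cast
  have : (j : ℝ) + 1 ≠ 0 := by positivity
  field_simp
  ring

/-- TARGET U1. -/
theorem area_ps_le (g : ℂ → ℂ) (c : ℕ → ℂ) (hg : PS c g) (hinj : Set.InjOn g (ball (0 : ℂ) 1))
    (ρ M : ℝ) (hρ : 0 < ρ) (hρ1 : ρ < 1) (hM : ∀ z : ℂ, ‖z‖ ≤ ρ → ‖g z‖ ≤ M) (K : ℕ) :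
    ∑ i ∈ Finset.range K, (i : ℝ) * ‖c i‖ ^ 2 * ρ ^ (2 * i) ≤ M ^ 2 := by
  have hM0 : 0 ≤ M := (norm_nonneg _).trans (hM 0 (by simpa using hρ.le))
  have hder : ∀ z : ℂ, ‖z‖ < 1 → HasDerivAt g (deriv g z) z ∧
      HasSum (fun n : ℕ => (n : ℂ) * (c n * z ^ n)) (z * deriv g z) := by
    intro z hz
    obtain ⟨K', h1, h2⟩ := parseval_deriv c g hg hz
    rw [h1.deriv]
    exact ⟨h1, h2⟩
  -- area formula
  have harea := MeasureTheory.lintegral_abs_det_fderiv_eq_addHaar_image MeasureTheory.volume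
    (s := ball (0:ℂ) ρ) (f := g)
    (f' := fun z => (ContinuousLinearMap.toSpanSingleton ℂ (deriv g z)).restrictScalars ℝ)
    measurableSet_ball (fun z hz => (((hder z (by
      rw [mem_ball_zero_iff] at hz; linarith)).1).hasFDerivAt.restrictScalars ℝ).hasFDerivWithinAt)
    (hinj.mono (ball_subset_ball hρ1.le))
  simp only [L5_det_mul] at harea
  have hle : MeasureTheory.volume (g '' ball (0:ℂ) ρ) ≤ ENNReal.ofReal (Real.pi * M ^ 2) := by
    calc _ ≤ MeasureTheory.volume (closedBall (0:ℂ) M) := by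
          apply MeasureTheory.measure_mono
          rintro _ ⟨z, hz, rfl⟩
          rw [mem_closedBall_zero_iff]
          exact hM z (by rw [mem_ball_zero_iff] at hz; exact hz.le)
      _ = _ := by
          rw [Complex.volume_closedBall, mul_comm, ENNReal.ofReal_mul Real.pi_pos.le, ENNReal.ofReal_pow hM0]
          congr 1
          rw [← NNReal.coe_real_pi, ENNReal.ofReal_coe_nnreal]
  have hI : ∫ z in ball (0:ℂ) ρ, ‖deriv g z‖ ^ 2 ≤ Real.pi * M ^ 2 := by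
    rw [MeasureTheory.integral_eq_lintegral_of_nonneg_ae (Eventually.of_forall fun z => by positivity)
      (((measurable_deriv g).norm.pow_const 2).aestronglyMeasurable)]
    have h2 : ∫⁻ z in ball (0:ℂ) ρ, ENNReal.ofReal (‖deriv g z‖ ^ 2) = ∫⁻ z in ball (0:ℂ) ρ, ENNReal.ofReal |‖deriv g z‖ ^ 2| := by
      congr 1
      ext z
      rw [abs_of_nonneg (by positivity)]
    rw [h2, harea]
    calc (MeasureTheory.volume (g '' ball (0:ℂ) ρ)).toReal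
        ≤ (ENNReal.ofReal (Real.pi * M ^ 2)).toReal := ENNReal.toReal_mono ENNReal.ofReal_ne_top hle
      _ = Real.pi * M ^ 2 := ENNReal.toReal_ofReal (by positivity)
  obtain ⟨-, hsum⟩ := parseval_summ c g hg hρ hρ1
  set S : ℝ := ∑' n : ℕ, (n : ℝ) * (‖c n‖ * ρ ^ n) with hS
  -- bound of the partial sums
  have hbd : ∀ (N : ℕ) (z : ℂ), z ∈ ball (0:ℂ) ρ →
      ‖∑ j ∈ Finset.range N, (((j : ℂ) + 1) * c (j + 1)) * z ^ j‖ ≤ S / ρ := by
    intro N z hz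
    rw [mem_ball_zero_iff] at hz
    rw [le_div_iff₀ hρ]
    calc ‖∑ j ∈ Finset.range N, (((j : ℂ) + 1) * c (j + 1)) * z ^ j‖ * ρ
        ≤ (∑ j ∈ Finset.range N, ((j + 1 : ℕ) : ℝ) * (‖c (j + 1)‖ * ρ ^ j)) * ρ := by
          refine mul_le_mul_of_nonneg_right ((norm_sum_le _ _).trans
            (Finset.sum_le_sum fun j _ => ?_)) hρ.le
          rw [norm_mul, norm_mul, norm_pow]
          have : ‖((j : ℂ) + 1)‖ = ((j + 1 : ℕ) : ℝ) := by
            have : ((j : ℂ) + 1) = (((j + 1 : ℕ) : ℝ) : ℂ) := by push_cast; rfl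
            rw [this, Complex.norm_real, Real.norm_of_nonneg (by positivity)]
          rw [this, mul_assoc]
          gcongr
      _ = ∑ j ∈ Finset.range N, ((j + 1 : ℕ) : ℝ) * (‖c (j + 1)‖ * ρ ^ (j + 1)) := by
          rw [Finset.sum_mul]
          refine Finset.sum_congr rfl fun j _ => ?_
          rw [pow_succ]
          ring
      _ ≤ ∑ n ∈ Finset.range (N + 1), (n : ℝ) * (‖c n‖ * ρ ^ n) := by
          rw [Finset.sum_range_succ' (fun n : ℕ => (n : ℝ) * (‖c n‖ * ρ ^ n)) N]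
          simp
      _ ≤ S := hsum.sum_le_tsum _ (fun n _ => by positivity)
  have hlim : Tendsto (fun N : ℕ => ∫ z in ball (0:ℂ) ρ,
      ‖∑ j ∈ Finset.range N, (((j : ℂ) + 1) * c (j + 1)) * z ^ j‖ ^ 2) atTop
      (𝓝 (∫ z in ball (0:ℂ) ρ, ‖deriv g z‖ ^ 2)) := by
    refine MeasureTheory.tendsto_integral_of_dominated_convergence (fun _ => (S / ρ) ^ 2) ?_ ?_ ?_ ?_
    · intro N
      have : Continuous fun z : ℂ => ‖∑ j ∈ Finset.range N, (((j : ℂ) + 1) * c (j + 1)) * z ^ j‖ ^ 2 := by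
        fun_prop
      exact this.aestronglyMeasurable
    · exact MeasureTheory.integrableOn_const (by
        exact (MeasureTheory.measure_ball_lt_top).ne)
    · intro N
      refine (MeasureTheory.ae_restrict_iff' measurableSet_ball).2 (Eventually.of_forall fun z hz => ?_)
      rw [Real.norm_of_nonneg (by positivity)]
      exact pow_le_pow_left₀ (norm_nonneg _) (hbd N z hz) 2
    · refine (MeasureTheory.ae_restrict_iff' measurableSet_ball).2 ?_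
      have h0 : ∀ᵐ z : ℂ, z ≠ 0 := by
        rw [MeasureTheory.ae_iff]
        simp
      filter_upwards [h0] with z hz0 hz
      rw [mem_ball_zero_iff] at hz
      have h1 := (hder z (by linarith)).2.tendsto_sum_nat
      have h2 : Tendsto (fun N : ℕ => ∑ j ∈ Finset.range N, (((j : ℂ) + 1) * c (j + 1)) * z ^ j) atTop
          (𝓝 (deriv g z)) := by
        have h3 := (h1.comp (tendsto_add_atTop_nat 1)).const_mul z⁻¹
        rw [inv_mul_cancel_left₀ hz0] at h3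
        refine h3.congr fun N => ?_
        simp only [Function.comp]
        rw [Finset.sum_range_succ' _ N]
        simp only [Nat.cast_zero, zero_mul, add_zero]
        rw [Finset.mul_sum]
        refine Finset.sum_congr rfl fun j _ => ?_
        rw [pow_succ]
        push_cast
        field_simp
      exact (h2.norm).pow 2
  have hfin : Real.pi * ∑ i ∈ Finset.range K, (i : ℝ) * ‖c i‖ ^ 2 * ρ ^ (2 * i) ≤ Real.pi * M ^ 2 := by
    refine le_trans (ge_of_tendsto hlim ?_) hI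
    filter_upwards [eventually_ge_atTop K] with N hN
    rw [U1_val (fun j => ((j : ℂ) + 1) * c (j + 1)) N ρ hρ]
    simp only [U1_term]
    rw [← Finset.mul_sum]
    refine mul_le_mul_of_nonneg_left ?_ Real.pi_pos.le
    have hshift := Finset.sum_range_succ' (fun i : ℕ => (i : ℝ) * ‖c i‖ ^ 2 * ρ ^ (2 * i)) N
    simp only [Nat.cast_zero, zero_mul, add_zero] at hshift
    rw [← hshift]
    exact Finset.sum_le_sum_of_subset_of_nonneg (Finset.range_mono (by omega))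
      (fun i _ _ => by positivity)
  exact le_of_mul_le_mul_left hfin Real.pi_pos

/-- TARGET U2. -/
theorem mean_sum_le (a : ℕ → ℝ) (h0 : a 0 = 0) (K : ℕ)
    (h : ∀ ρ : ℝ, 0 < ρ → ρ < 1 →
      ∑ i ∈ Finset.range K, (i : ℝ) * a i * ρ ^ (2 * i) ≤ (ρ / (1 - ρ ^ 2)) ^ 2)
    (r : ℝ) (hr : 0 < r) (hr1 : r < 1) :
    ∑ i ∈ Finset.range K, a i * r ^ (2 * i) ≤ r ^ 2 / (1 - r ^ 2) := by
  have hne : ∀ x ∈ Icc (0:ℝ) r, (1 - x ^ 2) ≠ 0 := by
    intro x hx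
    have : x ^ 2 < 1 := by nlinarith [hx.1, hx.2]
    linarith
  have hder : ∀ x ∈ Icc (0:ℝ) r, HasDerivAt
      (fun t : ℝ => t ^ 2 / (1 - t ^ 2) - ∑ i ∈ Finset.range K, a i * t ^ (2 * i))
      (2 * x / (1 - x ^ 2) ^ 2
        - ∑ i ∈ Finset.range K, a i * (((2 * i : ℕ) : ℝ) * x ^ (2 * i - 1))) x := by
    intro x hx
    have h1 : HasDerivAt (fun t : ℝ => t ^ 2) (2 * x) x := by
      simpa using hasDerivAt_pow 2 x
    have h2 : HasDerivAt (fun t : ℝ => 1 - t ^ 2) (-(2 * x)) x := h1.const_sub 1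
    have h3 := h1.div h2 (hne x hx)
    have h4 : HasDerivAt (fun t : ℝ => ∑ i ∈ Finset.range K, a i * t ^ (2 * i))
        (∑ i ∈ Finset.range K, a i * (((2 * i : ℕ) : ℝ) * x ^ (2 * i - 1))) x :=
      HasDerivAt.fun_sum fun i _ => (hasDerivAt_pow (2 * i) x).const_mul (a i)
    have h5 := h3.sub h4
    have e : (2 * x * (1 - x ^ 2) - x ^ 2 * -(2 * x)) / (1 - x ^ 2) ^ 2
        = 2 * x / (1 - x ^ 2) ^ 2 := by
      congr 1; ring
    rw [e] at h5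
    exact h5
  have hmono : MonotoneOn
      (fun t : ℝ => t ^ 2 / (1 - t ^ 2) - ∑ i ∈ Finset.range K, a i * t ^ (2 * i)) (Icc 0 r) := by
    refine monotoneOn_of_deriv_nonneg (convex_Icc 0 r) ?_ ?_ ?_
    · exact fun x hx => (hder x hx).continuousAt.continuousWithinAt
    · rw [interior_Icc]
      exact fun x hx => (hder x (Ioo_subset_Icc_self hx)).differentiableAt.differentiableWithinAt
    · rw [interior_Icc]
      intro x hx
      rw [(hder x (Ioo_subset_Icc_self hx)).deriv]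
      have hx0 : 0 < x := hx.1
      have hx1 : x < 1 := hx.2.trans hr1
      have h1 := h x hx0 hx1
      have h2 : x * (2 * x / (1 - x ^ 2) ^ 2
          - ∑ i ∈ Finset.range K, a i * (((2 * i : ℕ) : ℝ) * x ^ (2 * i - 1)))
          = 2 * ((x / (1 - x ^ 2)) ^ 2 - ∑ i ∈ Finset.range K, (i : ℝ) * a i * x ^ (2 * i)) := by
        rw [mul_sub, mul_sub]
        congr 1
        · rw [div_pow]; ring
        · rw [Finset.mul_sum, Finset.mul_sum]
          refine Finset.sum_congr rfl fun i _ => ?_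
          rcases Nat.eq_zero_or_pos i with hi | hi
          · subst hi; simp
          · obtain ⟨m, hm⟩ : ∃ m, 2 * i = m + 1 := ⟨2 * i - 1, by omega⟩
            rw [hm]
            have : ((m + 1 : ℕ) : ℝ) = 2 * (i : ℝ) := by
              rw [← hm]; push_cast; ring
            rw [this, Nat.add_sub_cancel, pow_succ]
            ring
      have h3 : 0 ≤ x * (2 * x / (1 - x ^ 2) ^ 2
          - ∑ i ∈ Finset.range K, a i * (((2 * i : ℕ) : ℝ) * x ^ (2 * i - 1))) := by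
        rw [h2]; linarith
      exact nonneg_of_mul_nonneg_right h3 hx0
  have hfin := hmono (left_mem_Icc.2 hr.le) (right_mem_Icc.2 hr.le) hr.le
  simp only at hfin
  have hz : ∑ i ∈ Finset.range K, a i * (0:ℝ) ^ (2 * i) = 0 := by
    refine Finset.sum_eq_zero fun i _ => ?_
    rcases Nat.eq_zero_or_pos i with hi | hi
    · subst hi; simp [h0]
    · rw [zero_pow (by omega), mul_zero]
  rw [hz] at hfin
  norm_num at hfin
  linarith

lemma U3_aux (t : ℝ) (ht : 0 < t) (ht1 : t < 1) (i : ℕ) :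
    (i : ℝ) * t ^ i * (1 - t) ≤ t * (1 - t ^ i) := by
  induction i with
  | zero => simp
  | succ i ih =>
    have h1 : t ^ i ≤ 1 := pow_le_one₀ ht.le ht1.le
    have h0 : 0 ≤ 1 - t := by linarith
    have h2 : t * ((i : ℝ) * t ^ i * (1 - t)) ≤ t * (t * (1 - t ^ i)) :=
      mul_le_mul_of_nonneg_left ih ht.le
    have h3 : 0 ≤ t * (1 - t) * (1 - t ^ i) := by
      apply mul_nonneg (mul_nonneg ht.le h0)
      linarith
    push_cast
    rw [pow_succ]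
    nlinarith [h2, h3]

lemma U3_bd (t : ℝ) (ht : 0 < t) (ht1 : t < 1) (i : ℕ) :
    (i : ℝ) * t ^ i ≤ t / (1 - t) := by
  have h0 : 0 < 1 - t := by linarith
  rw [le_div_iff₀ h0]
  refine (U3_aux t ht ht1 i).trans ?_
  have h1 : 0 ≤ t ^ i := pow_nonneg ht.le i
  nlinarith [mul_nonneg ht.le h1]

/-- TARGET U3. -/
theorem sq_sum_le (a : ℕ → ℝ) (ha : ∀ i, 0 ≤ a i) (K : ℕ)
    (h : ∀ ρ : ℝ, 0 < ρ → ρ < 1 →
      ∑ i ∈ Finset.range K, (i : ℝ) * a i * ρ ^ (2 * i) ≤ (ρ / (1 - ρ ^ 2)) ^ 2)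
    (t : ℝ) (ht : 0 < t) (ht1 : t < 1) :
    ∑ i ∈ Finset.range K, (i : ℝ) ^ 2 * a i * t ^ (2 * i) ≤ t ^ 2 / (1 - t) ^ 3 := by
  have h0 : 0 < 1 - t := by linarith
  have hs : 0 < Real.sqrt t := Real.sqrt_pos.mpr ht
  have hs1 : Real.sqrt t < 1 := by
    rw [Real.sqrt_lt' one_pos]
    simpa using ht1
  have hsq : Real.sqrt t ^ 2 = t := Real.sq_sqrt ht.le
  have h1 := h (Real.sqrt t) hs hs1
  simp only [pow_mul, div_pow, hsq] at h1
  have h2 : ∑ i ∈ Finset.range K, (i : ℝ) ^ 2 * a i * t ^ (2 * i) ≤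
      ∑ i ∈ Finset.range K, t / (1 - t) * ((i : ℝ) * a i * t ^ i) := by
    refine Finset.sum_le_sum fun i _ => ?_
    have h3 : (i : ℝ) ^ 2 * a i * t ^ (2 * i) = ((i : ℝ) * t ^ i) * ((i : ℝ) * a i * t ^ i) := by
      rw [two_mul, pow_add]
      ring
    rw [h3]
    refine mul_le_mul_of_nonneg_right (U3_bd t ht ht1 i) ?_
    have := ha i
    positivity
  rw [← Finset.mul_sum] at h2
  refine h2.trans ?_
  have h4 : t / (1 - t) * ∑ i ∈ Finset.range K, (i : ℝ) * a i * t ^ i ≤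
      t / (1 - t) * (t / (1 - t) ^ 2) :=
    mul_le_mul_of_nonneg_left h1 (by positivity)
  refine h4.trans (le_of_eq ?_)
  field_simp

theorem U4_opt (x A B : ℝ) (hA : 0 ≤ A) (hB : 0 ≤ B)
    (h : ∀ s : ℝ, 0 < s → 2 * x * s ≤ A * s ^ 2 + B) : x ≤ Real.sqrt (A * B) := by
  rcases le_or_gt x 0 with hx | hx
  · exact hx.trans (Real.sqrt_nonneg _)
  · rcases hA.eq_or_lt with h0 | h0
    · have h1 := h ((B + 1) / (2 * x)) (by positivity)
      rw [← h0] at h1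
      have h2 : 2 * x * ((B + 1) / (2 * x)) = B + 1 := by field_simp
      rw [h2] at h1
      linarith
    · have h1 := h (x / A) (by positivity)
      apply Real.le_sqrt_of_sq_le
      have h2 : 2 * x * (x / A) = 2 * (x ^ 2 / A) := by ring
      have h3 : A * (x / A) ^ 2 = x ^ 2 / A := by field_simp
      rw [h2, h3] at h1
      have h4 : x ^ 2 / A ≤ B := by linarith
      rw [div_le_iff₀ h0] at h4
      linarith

theorem U4_pars (a : ℕ → ℂ) (ha : Summable (fun n => ‖a n‖)) (F : ℝ → ℂ)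
    (hF : ∀ t, HasSum (fun n : ℕ => a n * parsevalE n t) (F t)) (A : ℝ)
    (hA : ∀ K : ℕ, ∑ i ∈ Finset.range K, ‖a i‖ ^ 2 ≤ A) :
    ∫ t in (0 : ℝ)..(2 * Real.pi), ‖F t‖ ^ 2 ≤ 2 * Real.pi * A := by
  have h := parseval_aux a a ha ha F F hF hF
  have h1 : ∀ n, (2 * Real.pi : ℂ) * ((starRingEnd ℂ) (a n) * a n) =
      ((2 * Real.pi * ‖a n‖ ^ 2 : ℝ) : ℂ) := by
    intro n
    rw [Complex.conj_mul']
    push_cast
    ring
  have h2 : (∫ t in (0 : ℝ)..(2 * Real.pi), (starRingEnd ℂ) (F t) * F t) =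
      ((∫ t in (0 : ℝ)..(2 * Real.pi), ‖F t‖ ^ 2 : ℝ) : ℂ) := by
    rw [← intervalIntegral.integral_ofReal]
    congr 1
    funext t
    rw [Complex.conj_mul']
    push_cast
    rfl
  rw [h2] at h
  simp only [h1] at h
  have h3 : HasSum (fun n => 2 * Real.pi * ‖a n‖ ^ 2)
      (∫ t in (0 : ℝ)..(2 * Real.pi), ‖F t‖ ^ 2) := Complex.hasSum_ofReal.1 h
  refine le_of_tendsto' h3.tendsto_sum_nat ?_
  intro K
  rw [← Finset.mul_sum]
  exact mul_le_mul_of_nonneg_left (hA K) (by positivity)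

theorem U4_pow (t θ : ℝ) (n : ℕ) :
    (circleMap 0 t θ) ^ n = (t : ℂ) ^ n * parsevalE n θ := by
  rw [circleMap_zero, mul_pow, parsevalE, ← Complex.exp_nat_mul]
  congr 2
  push_cast
  ring

theorem U4_norm (t θ : ℝ) (ht : 0 < t) (ht1 : t < 1) : ‖circleMap 0 t θ‖ < 1 := by
  rw [norm_circleMap_zero, abs_of_pos ht]
  exact ht1

/-- TARGET U4. -/
theorem circle_cs (g : ℂ → ℂ) (c : ℕ → ℂ) (hg : PS c g) (t A B : ℝ) (ht : 0 < t) (ht1 : t < 1)
    (hA : ∀ K : ℕ, ∑ i ∈ Finset.range K, ‖c i‖ ^ 2 * t ^ (2 * i) ≤ A)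
    (hB : ∀ K : ℕ, ∑ i ∈ Finset.range K, (i : ℝ) ^ 2 * ‖c i‖ ^ 2 * t ^ (2 * i) ≤ B) :
    Real.circleAverage (fun z => ‖g z‖ * ‖z * deriv g z‖) 0 t ≤ Real.sqrt (A * B) := by
  have hA0 : 0 ≤ A := by simpa using hA 0
  have hB0 : 0 ≤ B := by simpa using hB 0
  obtain ⟨hs1, hs2⟩ := parseval_summ c g hg ht ht1
  have hd : DifferentiableOn ℂ g (ball (0 : ℂ) 1) := by
    intro z hz
    rw [mem_ball_zero_iff] at hz
    obtain ⟨K', hK', -⟩ := parseval_deriv c g hg hz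
    exact hK'.differentiableAt.differentiableWithinAt
  have hmem : ∀ θ : ℝ, circleMap 0 t θ ∈ ball (0 : ℂ) 1 := by
    intro θ
    rw [mem_ball_zero_iff]
    exact U4_norm t θ ht ht1
  have hcG : Continuous (fun θ : ℝ => g (circleMap 0 t θ)) :=
    hd.continuousOn.comp_continuous (continuous_circleMap 0 t) hmem
  have hcD : Continuous (fun θ : ℝ => deriv g (circleMap 0 t θ)) :=
    (hd.deriv isOpen_ball).continuousOn.comp_continuous (continuous_circleMap 0 t) hmem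
  have hcH : Continuous (fun θ : ℝ => circleMap 0 t θ * deriv g (circleMap 0 t θ)) :=
    (continuous_circleMap 0 t).mul hcD
  have hnt : ∀ n : ℕ, ‖(t : ℂ) ^ n‖ = t ^ n := by
    intro n
    rw [norm_pow, Complex.norm_real, Real.norm_of_nonneg ht.le]
  have hG : ∀ θ, HasSum (fun n : ℕ => (c n * (t : ℂ) ^ n) * parsevalE n θ) (g (circleMap 0 t θ)) := by
    intro θ
    have h1 := hg (circleMap 0 t θ) (U4_norm t θ ht ht1)
    refine h1.congr_fun ?_ |> fun h => h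
    intro n
    rw [U4_pow]
    ring
  have hH : ∀ θ, HasSum (fun n : ℕ => ((n : ℂ) * (c n * (t : ℂ) ^ n)) * parsevalE n θ)
      (circleMap 0 t θ * deriv g (circleMap 0 t θ)) := by
    intro θ
    obtain ⟨K', hK', hsum⟩ := parseval_deriv c g hg (U4_norm t θ ht ht1)
    rw [← hK'.deriv] at hsum
    refine hsum.congr_fun ?_ |> fun h => h
    intro n
    rw [U4_pow]
    ring
  have iG := U4_pars _ (by
    refine hs1.congr ?_
    intro n
    rw [norm_mul, hnt]) _ hG A (by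
    intro K
    refine le_trans (le_of_eq ?_) (hA K)
    apply Finset.sum_congr rfl
    intro i _
    rw [norm_mul, hnt, mul_pow, ← pow_mul, mul_comm i 2])
  have iH := U4_pars _ (by
    refine hs2.congr ?_
    intro n
    rw [norm_mul, norm_mul, hnt, Complex.norm_natCast]) _ hH B (by
    intro K
    refine le_trans (le_of_eq ?_) (hB K)
    apply Finset.sum_congr rfl
    intro i _
    rw [norm_mul, norm_mul, hnt, Complex.norm_natCast, mul_pow, mul_pow, ← pow_mul, mul_comm i 2]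
    ring)
  apply U4_opt _ _ _ hA0 hB0
  intro s hs
  rw [Real.circleAverage, smul_eq_mul]
  have hpi : 0 < 2 * Real.pi := by positivity
  have key : ∫ θ in (0 : ℝ)..(2 * Real.pi), (2 * s) * (‖g (circleMap 0 t θ)‖ * ‖circleMap 0 t θ * deriv g (circleMap 0 t θ)‖) ≤
      ∫ θ in (0 : ℝ)..(2 * Real.pi), (s ^ 2 * ‖g (circleMap 0 t θ)‖ ^ 2 + ‖circleMap 0 t θ * deriv g (circleMap 0 t θ)‖ ^ 2) := by
    apply intervalIntegral.integral_mono_on hpi.le
    · apply Continuous.intervalIntegrable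
      exact continuous_const.mul (hcG.norm.mul hcH.norm)
    · apply Continuous.intervalIntegrable
      exact (continuous_const.mul (hcG.norm.pow 2)).add (hcH.norm.pow 2)
    · intro θ _
      nlinarith [sq_nonneg (s * ‖g (circleMap 0 t θ)‖ - ‖circleMap 0 t θ * deriv g (circleMap 0 t θ)‖)]
  have i1 : IntervalIntegrable (fun θ : ℝ => s ^ 2 * ‖g (circleMap 0 t θ)‖ ^ 2)
      MeasureTheory.volume 0 (2 * Real.pi) :=
    (continuous_const.mul (hcG.norm.pow 2)).intervalIntegrable _ _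
  have i2 : IntervalIntegrable (fun θ : ℝ => ‖circleMap 0 t θ * deriv g (circleMap 0 t θ)‖ ^ 2)
      MeasureTheory.volume 0 (2 * Real.pi) :=
    (hcH.norm.pow 2).intervalIntegrable _ _
  have e := intervalIntegral.integral_add i1 i2
  rw [intervalIntegral.integral_const_mul] at e
  rw [intervalIntegral.integral_const_mul, e] at key
  have hs2' : s ^ 2 * (∫ θ in (0 : ℝ)..(2 * Real.pi), ‖g (circleMap 0 t θ)‖ ^ 2) ≤ s ^ 2 * (2 * Real.pi * A) :=
    mul_le_mul_of_nonneg_left iG (by positivity)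
  set J := ∫ θ in (0 : ℝ)..(2 * Real.pi), ‖g (circleMap 0 t θ)‖ * ‖circleMap 0 t θ * deriv g (circleMap 0 t θ)‖ with hJ
  have h5 : 2 * s * J ≤ (2 * Real.pi) * (A * s ^ 2 + B) := by linarith
  have h6 : 2 * ((2 * Real.pi)⁻¹ * J) * s = (2 * Real.pi)⁻¹ * (2 * s * J) := by ring
  rw [h6]
  rw [inv_mul_le_iff₀ hpi]
  exact h5

theorem U5_int (m : ℤ) : ∫ θ in (0:ℝ)..(2 * Real.pi), Complex.exp (((m : ℂ) * Complex.I) * θ)
    = if m = 0 then ((2 * Real.pi : ℝ) : ℂ) else 0 := by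
  split_ifs with h
  · subst h
    simp
  · have hc : ((m : ℂ) * Complex.I) ≠ 0 := mul_ne_zero (by exact_mod_cast h) Complex.I_ne_zero
    rw [integral_exp_mul_complex hc]
    have h1 : Complex.exp (((m : ℂ) * Complex.I) * ((2 * Real.pi : ℝ) : ℂ)) = 1 := by
      rw [show ((m : ℂ) * Complex.I) * ((2 * Real.pi : ℝ) : ℂ)
        = (m : ℂ) * (2 * Real.pi * Complex.I) by push_cast; ring]
      exact Complex.exp_int_mul_two_pi_mul_I m
    rw [h1]
    simp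

theorem U5_norm (m : ℤ) (θ : ℝ) : ‖Complex.exp (((m : ℂ) * Complex.I) * θ)‖ = 1 := by
  rw [show ((m : ℂ) * Complex.I) * (θ : ℂ) = (((m : ℝ) * θ : ℝ) : ℂ) * Complex.I by
    push_cast; ring]
  exact Complex.norm_exp_ofReal_mul_I _

theorem U5_term (c : ℂ) (t θ : ℝ) (i k : ℕ) :
    c * ((circleMap 0 t θ) ^ 2) ^ i * Complex.exp ((((-(2 * k : ℤ) : ℤ) : ℂ) * Complex.I) * θ)
    = (c * (t : ℂ) ^ (2 * i)) * Complex.exp ((((2 * i - 2 * k : ℤ) : ℂ) * Complex.I) * θ) := by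
  have e1 : ((circleMap 0 t θ) ^ 2) ^ i
      = (t : ℂ) ^ (2 * i) * Complex.exp (((2 * i : ℕ) : ℂ) * (θ * Complex.I)) := by
    rw [circleMap_zero, ← pow_mul, mul_pow, ← Complex.exp_nat_mul]
  have e2 : Complex.exp (((2 * i : ℕ) : ℂ) * (θ * Complex.I))
      * Complex.exp ((((-(2 * k : ℤ) : ℤ) : ℂ) * Complex.I) * θ)
      = Complex.exp ((((2 * i - 2 * k : ℤ) : ℂ) * Complex.I) * θ) := by
    rw [← Complex.exp_add]
    congr 1
    push_cast
    ring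
  rw [e1, ← e2]
  ring

theorem U5_main (c : ℕ → ℂ) (N k : ℕ) (hk : k ≤ N) (t : ℝ) :
    ∫ θ in (0:ℝ)..(2 * Real.pi), (∑ i ∈ Finset.range (N + 1), c i * ((circleMap 0 t θ) ^ 2) ^ i)
      * Complex.exp ((((-(2 * k : ℤ) : ℤ) : ℂ) * Complex.I) * θ)
    = ((2 * Real.pi : ℝ) : ℂ) * (c k * (t : ℂ) ^ (2 * k)) := by
  have h1 : ∀ θ : ℝ, (∑ i ∈ Finset.range (N + 1), c i * ((circleMap 0 t θ) ^ 2) ^ i)
      * Complex.exp ((((-(2 * k : ℤ) : ℤ) : ℂ) * Complex.I) * θ)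
      = ∑ i ∈ Finset.range (N + 1), (c i * (t : ℂ) ^ (2 * i))
        * Complex.exp ((((2 * i - 2 * k : ℤ) : ℂ) * Complex.I) * θ) := by
    intro θ
    rw [Finset.sum_mul]
    exact Finset.sum_congr rfl (fun i _ => U5_term (c i) t θ i k)
  simp_rw [h1]
  rw [intervalIntegral.integral_finsetSum]
  · have h2 : ∀ i ∈ Finset.range (N + 1), ∫ θ in (0:ℝ)..(2 * Real.pi), (c i * (t : ℂ) ^ (2 * i))
        * Complex.exp ((((2 * i - 2 * k : ℤ) : ℂ) * Complex.I) * θ)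
        = if i = k then ((2 * Real.pi : ℝ) : ℂ) * (c k * (t : ℂ) ^ (2 * k)) else 0 := by
      intro i _
      rw [intervalIntegral.integral_const_mul, U5_int]
      by_cases hik : i = k
      · subst hik
        rw [if_pos (by ring), if_pos rfl]
        ring
      · rw [if_neg (by omega), if_neg hik, mul_zero]
    rw [Finset.sum_congr rfl h2, Finset.sum_ite_eq' (Finset.range (N + 1)) k,
      if_pos (Finset.mem_range.mpr (by omega))]
  · intro i _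
    apply Continuous.intervalIntegrable
    fun_prop

/-- TARGET U5. -/
theorem coeff_circle (q : Polynomial ℂ) (N k : ℕ) (hdeg : q.natDegree ≤ N) (hk : k ≤ N)
    (hz : ∀ z : ℂ, ‖z‖ < 1 → q.eval z ≠ 0) (t : ℝ) (ht : 0 < t) (ht1 : t < 1) :
    ‖q.coeff (N - k)‖ * t ^ (2 * k) ≤ Real.circleAverage (fun z => ‖q.eval (z ^ 2)‖) 0 t := by
  have hpi : 0 < 2 * Real.pi := by positivity
  have hm := U5_main (fun i => (starRingEnd ℂ) (q.coeff (N - i))) N k hk t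
  have h1 := intervalIntegral.norm_integral_le_integral_norm (μ := MeasureTheory.volume)
    (f := fun θ : ℝ => (∑ i ∈ Finset.range (N + 1),
      (starRingEnd ℂ) (q.coeff (N - i)) * ((circleMap 0 t θ) ^ 2) ^ i)
      * Complex.exp ((((-(2 * k : ℤ) : ℤ) : ℂ) * Complex.I) * θ)) hpi.le
  rw [hm] at h1
  have h2 : ‖((2 * Real.pi : ℝ) : ℂ) * ((starRingEnd ℂ) (q.coeff (N - k)) * (t : ℂ) ^ (2 * k))‖
      = (2 * Real.pi) * (‖q.coeff (N - k)‖ * t ^ (2 * k)) := by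
    rw [norm_mul, norm_mul, norm_pow, Complex.norm_real, Complex.norm_real,
      Real.norm_of_nonneg hpi.le, Real.norm_of_nonneg ht.le, RCLike.norm_conj]
  rw [h2] at h1
  have h3 : ∫ θ in (0:ℝ)..(2 * Real.pi), ‖(∑ i ∈ Finset.range (N + 1),
      (starRingEnd ℂ) (q.coeff (N - i)) * ((circleMap 0 t θ) ^ 2) ^ i)
      * Complex.exp ((((-(2 * k : ℤ) : ℤ) : ℂ) * Complex.I) * θ)‖
      ≤ ∫ θ in (0:ℝ)..(2 * Real.pi), ‖q.eval ((circleMap 0 t θ) ^ 2)‖ := by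
    apply intervalIntegral.integral_mono_on hpi.le
    · apply Continuous.intervalIntegrable
      fun_prop
    · apply Continuous.intervalIntegrable
      have hq : Continuous (fun z : ℂ => q.eval z) := q.continuous
      fun_prop
    · intro θ _
      rw [norm_mul, U5_norm, mul_one]
      apply rev_le q N hdeg hz
      rw [norm_pow, norm_circleMap_zero, abs_of_pos ht]
      exact pow_le_one₀ ht.le ht1.le
  have h4 : (2 * Real.pi) * (‖q.coeff (N - k)‖ * t ^ (2 * k))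
      ≤ ∫ θ in (0:ℝ)..(2 * Real.pi), ‖q.eval ((circleMap 0 t θ) ^ 2)‖ := h1.trans h3
  rw [Real.circleAverage_def, smul_eq_mul, ← div_eq_inv_mul, le_div_iff₀ hpi]
  linarith

/-- TARGET U6. -/
theorem sqrt_transform (f : ℂ → ℂ) (hf : InS f) :
    ∃ (g : ℂ → ℂ) (c : ℕ → ℂ), PS c g ∧ Set.InjOn g (ball (0 : ℂ) 1) ∧ c 0 = 0 ∧
      (∀ z : ℂ, ‖z‖ < 1 → g z ^ 2 = f (z ^ 2)) ∧
      (∀ z : ℂ, ‖z‖ < 1 → z * deriv f (z ^ 2) = g z * deriv g z) := by
  obtain ⟨s, hs⟩ := exists_root hf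
  obtain ⟨hsd, hs0, hsne, hsf⟩ := id hs
  have hsq : ∀ z : ℂ, ‖z‖ < 1 → z ^ 2 ∈ ball (0 : ℂ) 1 := by
    intro z hz
    rw [mem_ball_zero_iff, norm_pow]
    exact pow_lt_one₀ (norm_nonneg _) hz two_ne_zero
  have hgd : DifferentiableOn ℂ (fun z => z / s (z ^ 2)) (ball (0 : ℂ) 1) := by
    apply DifferentiableOn.div differentiableOn_id
    · exact hsd.comp (differentiable_id.pow 2).differentiableOn
        (fun z hz => hsq z (mem_ball_zero_iff.mp hz))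
    · intro z hz
      exact hsne _ (hsq z (mem_ball_zero_iff.mp hz))
  have hg2 : ∀ z : ℂ, ‖z‖ < 1 → (z / s (z ^ 2)) ^ 2 = f (z ^ 2) := by
    intro z hz
    have h1 := hsf _ (hsq z hz)
    have h2 := hsne _ (hsq z hz)
    rw [div_pow, div_eq_iff (pow_ne_zero 2 h2)]
    exact h1.symm
  obtain ⟨c, hc⟩ := exists_PS hgd
  refine ⟨fun z => z / s (z ^ 2), c, hc, ?_, ?_, hg2, ?_⟩
  · intro x hx y hy hxy
    rw [mem_ball_zero_iff] at hx hy
    have hxy' : x / s (x ^ 2) = y / s (y ^ 2) := hxy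
    have h1 := hsne _ (hsq x hx)
    have h2 := hsne _ (hsq y hy)
    by_cases hx0 : x = 0
    · rw [hx0, zero_div] at hxy'
      rcases div_eq_zero_iff.mp hxy'.symm with h | h
      · rw [hx0, h]
      · exact absurd h h2
    · by_cases hy0 : y = 0
      · rw [hy0, zero_div] at hxy'
        rcases div_eq_zero_iff.mp hxy' with h | h
        · exact absurd h hx0
        · exact absurd h h1
      · apply root_inj hf hs x y hx0 hy0 hx hy
        have h3 := congrArg Inv.inv hxy'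
        rwa [inv_div, inv_div] at h3
  · have h1 := hc 0 (by simp)
    have h2 : HasSum (fun n => c n * (0 : ℂ) ^ n) (c 0 * (0 : ℂ) ^ 0) := by
      apply hasSum_single 0
      intro n hn
      rw [zero_pow hn, mul_zero]
    have h3 := h1.unique h2
    simpa using h3.symm
  · intro z hz
    have hmem : ball (0 : ℂ) 1 ∈ 𝓝 z := isOpen_ball.mem_nhds (mem_ball_zero_iff.mpr hz)
    have hg1 : HasDerivAt (fun z => z / s (z ^ 2)) (deriv (fun z => z / s (z ^ 2)) z) z :=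
      (hgd.differentiableAt hmem).hasDerivAt
    have hf1 : HasDerivAt f (deriv f (z ^ 2)) (z ^ 2) :=
      (hf.1.differentiableAt (isOpen_ball.mem_nhds (hsq z hz))).hasDerivAt
    have h1 := hg1.pow 2
    have h2 : HasDerivAt (fun w => f (w ^ 2)) _ z := hf1.comp z (hasDerivAt_pow 2 z)
    have h3 : (fun w => f (w ^ 2)) =ᶠ[𝓝 z] (fun z => z / s (z ^ 2)) ^ 2 := by
      filter_upwards [hmem] with w hw
      exact (hg2 w (mem_ball_zero_iff.mp hw)).symm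
    have h4 := (h2.congr_of_eventuallyEq h3.symm).unique h1
    have h5 : deriv f (z ^ 2) * (2 * z) = 2 * (z / s (z ^ 2)) * deriv (fun z => z / s (z ^ 2)) z := by
      simpa using h4
    show z * deriv f (z ^ 2) = (z / s (z ^ 2)) * deriv (fun z => z / s (z ^ 2)) z
    linear_combination h5 / 2

lemma W1_ne (ρ : ℝ) (h0 : 0 ≤ ρ) (h1 : ρ < 1) (z : ℂ) (hz : ‖z‖ < 1) : 1 - (ρ : ℂ) * z ≠ 0 := by
  intro h
  have h2 : (ρ : ℂ) * z = 1 := by linear_combination -h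
  have h3 : ‖(ρ : ℂ) * z‖ = 1 := by rw [h2]; simp
  rw [norm_mul, Complex.norm_real, Real.norm_of_nonneg h0] at h3
  nlinarith [norm_nonneg z]

/-- the quadratic function describing the image disc -/
noncomputable def W1_g (ρ : ℝ) (w : ℂ) : ℝ := (1 - ρ ^ 2) * (w.re ^ 2 + w.im ^ 2) - 2 * ρ * w.re - 1

lemma W1_g_eq (ρ : ℝ) (w : ℂ) : W1_g ρ w = ‖w‖ ^ 2 - ‖1 + (ρ : ℂ) * w‖ ^ 2 := by
  rw [← Complex.normSq_eq_norm_sq, ← Complex.normSq_eq_norm_sq, Complex.normSq_apply,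
    Complex.normSq_apply]
  unfold W1_g
  simp
  ring

lemma W1_g_seg (ρ : ℝ) (h0 : 0 ≤ ρ) (h1 : ρ < 1) (w1 w2 : ℂ) (t : ℝ) (ht0 : 0 ≤ t) (ht1 : t ≤ 1)
    (hg1 : W1_g ρ w1 < 0) (hg2 : W1_g ρ w2 < 0) :
    W1_g ρ (w1 + (t : ℂ) * (w2 - w1)) < 0 := by
  have key : W1_g ρ (w1 + (t : ℂ) * (w2 - w1)) = (1 - t) * W1_g ρ w1 + t * W1_g ρ w2
      - (1 - ρ ^ 2) * (t * (1 - t)) * ((w2.re - w1.re) ^ 2 + (w2.im - w1.im) ^ 2) := by
    unfold W1_g
    simp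
    ring
  rw [key]
  have h2 : 0 ≤ (1 - ρ ^ 2) * (t * (1 - t)) * ((w2.re - w1.re) ^ 2 + (w2.im - w1.im) ^ 2) := by
    have : 0 ≤ 1 - ρ ^ 2 := by nlinarith
    have : 0 ≤ t * (1 - t) := mul_nonneg ht0 (by linarith)
    positivity
  rcases eq_or_lt_of_le ht0 with h | h
  · subst h
    simp
    simpa using hg1
  · have h3 : t * W1_g ρ w2 < 0 := mul_neg_of_pos_of_neg h hg2
    have h4 : (1 - t) * W1_g ρ w1 ≤ 0 := mul_nonpos_of_nonneg_of_nonpos (by linarith) hg1.le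
    linarith

lemma W1_back (ρ : ℝ) (w : ℂ) (hg : W1_g ρ w < 0) :
    1 + (ρ : ℂ) * w ≠ 0 ∧ ‖w / (1 + (ρ : ℂ) * w)‖ < 1 := by
  rw [W1_g_eq] at hg
  have h1 : ‖w‖ < ‖1 + (ρ : ℂ) * w‖ := by
    apply lt_of_pow_lt_pow_left₀ 2 (norm_nonneg _)
    linarith
  have h2 : 0 < ‖1 + (ρ : ℂ) * w‖ := lt_of_le_of_lt (norm_nonneg _) h1
  refine ⟨norm_pos_iff.mp h2, ?_⟩
  rw [norm_div, div_lt_one h2]
  exact h1

/-- TARGET W1. -/
theorem inj_of_re_pos (f : ℂ → ℂ) (hd : Differentiable ℂ f) (ρ : ℝ) (h0 : 0 ≤ ρ) (h1 : ρ < 1)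
    (hre : ∀ z : ℂ, ‖z‖ < 1 → 0 < ((1 - (ρ : ℂ) * z) ^ 2 * deriv f z).re) :
    Set.InjOn f (ball (0 : ℂ) 1) := by
  intro z1 hz1 z2 hz2 hf
  rw [mem_ball_zero_iff] at hz1 hz2
  by_contra hne
  have hn1 := W1_ne ρ h0 h1 z1 hz1
  have hn2 := W1_ne ρ h0 h1 z2 hz2
  have hw : ∀ z : ℂ, 1 - (ρ : ℂ) * z ≠ 0 →
      1 + (ρ : ℂ) * (z / (1 - (ρ : ℂ) * z)) = 1 / (1 - (ρ : ℂ) * z) := by
    intro z hz
    field_simp
    ring
  have hback : ∀ z : ℂ, 1 - (ρ : ℂ) * z ≠ 0 →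
      (z / (1 - (ρ : ℂ) * z)) / (1 + (ρ : ℂ) * (z / (1 - (ρ : ℂ) * z))) = z := by
    intro z hz
    rw [hw z hz, div_div_div_cancel_right₀ hz, div_one]
  have hgneg : ∀ z : ℂ, ‖z‖ < 1 → 1 - (ρ : ℂ) * z ≠ 0 → W1_g ρ (z / (1 - (ρ : ℂ) * z)) < 0 := by
    intro z hz hz'
    rw [W1_g_eq, hw z hz', norm_div, norm_div, norm_one]
    have h2 : 0 < ‖1 - (ρ : ℂ) * z‖ := norm_pos_iff.mpr hz'
    have h3 : ‖z‖ / ‖1 - (ρ : ℂ) * z‖ < 1 / ‖1 - (ρ : ℂ) * z‖ :=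
      div_lt_div_of_pos_right hz h2
    have h4 : 0 ≤ ‖z‖ / ‖1 - (ρ : ℂ) * z‖ := by positivity
    nlinarith
  set w1 : ℂ := z1 / (1 - (ρ : ℂ) * z1) with hw1
  set w2 : ℂ := z2 / (1 - (ρ : ℂ) * z2) with hw2
  have hb1 : w1 / (1 + (ρ : ℂ) * w1) = z1 := hback z1 hn1
  have hb2 : w2 / (1 + (ρ : ℂ) * w2) = z2 := hback z2 hn2
  have hg1 : W1_g ρ w1 < 0 := hgneg z1 hz1 hn1
  have hg2 : W1_g ρ w2 < 0 := hgneg z2 hz2 hn2
  have hd0 : w2 - w1 ≠ 0 := by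
    intro h
    apply hne
    rw [← hb1, ← hb2]
    have : w2 = w1 := by linear_combination h
    rw [this]
  -- the function and its derivative
  have hder : ∀ t ∈ Icc (0 : ℝ) 1, HasDerivAt
      (fun x : ℝ => (f ((w1 + (x : ℂ) * (w2 - w1)) / (1 + (ρ : ℂ) * (w1 + (x : ℂ) * (w2 - w1))))
        / (w2 - w1)).re)
      (((1 - (ρ : ℂ) * ((w1 + (t : ℂ) * (w2 - w1)) / (1 + (ρ : ℂ) * (w1 + (t : ℂ) * (w2 - w1))))) ^ 2
        * deriv f ((w1 + (t : ℂ) * (w2 - w1)) / (1 + (ρ : ℂ) * (w1 + (t : ℂ) * (w2 - w1)))))).re t := by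
    intro t ht
    have hgt := W1_g_seg ρ h0 h1 w1 w2 t ht.1 ht.2 hg1 hg2
    obtain ⟨hne1, hlt⟩ := W1_back ρ _ hgt
    apply HasDerivAt.real_of_complex (e := fun ζ : ℂ =>
      f ((w1 + ζ * (w2 - w1)) / (1 + (ρ : ℂ) * (w1 + ζ * (w2 - w1)))) / (w2 - w1))
    have e1 : HasDerivAt (fun ζ : ℂ => w1 + ζ * (w2 - w1)) (w2 - w1) (t : ℂ) := by
      have := ((hasDerivAt_id (t : ℂ)).mul_const (w2 - w1)).const_add w1
      simpa using this
    have e2 : HasDerivAt (fun ζ : ℂ => 1 + (ρ : ℂ) * (w1 + ζ * (w2 - w1)))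
        ((ρ : ℂ) * (w2 - w1)) (t : ℂ) := (e1.const_mul (ρ : ℂ)).const_add 1
    have e3 := e1.div e2 hne1
    have e4 := ((hd _).hasDerivAt.comp (t : ℂ) e3).div_const (w2 - w1)
    refine e4.congr_deriv ?_
    simp only [Pi.div_apply]
    generalize deriv f ((w1 + (t : ℂ) * (w2 - w1)) / (1 + (ρ : ℂ) * (w1 + (t : ℂ) * (w2 - w1)))) = Q
    have e5 : 1 - (ρ : ℂ) * ((w1 + (t : ℂ) * (w2 - w1)) / (1 + (ρ : ℂ) * (w1 + (t : ℂ) * (w2 - w1))))
        = 1 / (1 + (ρ : ℂ) * (w1 + (t : ℂ) * (w2 - w1))) := by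
      rw [eq_div_iff hne1, sub_mul, mul_assoc, div_mul_cancel₀ _ hne1]
      ring
    have e6 : (w2 - w1) * (1 + (ρ : ℂ) * (w1 + (t : ℂ) * (w2 - w1)))
        - (w1 + (t : ℂ) * (w2 - w1)) * ((ρ : ℂ) * (w2 - w1)) = w2 - w1 := by ring
    rw [e5, e6]
    generalize (1 + (ρ : ℂ) * (w1 + (t : ℂ) * (w2 - w1))) = D at hne1
    field_simp
  have hcont : ContinuousOn
      (fun x : ℝ => (f ((w1 + (x : ℂ) * (w2 - w1)) / (1 + (ρ : ℂ) * (w1 + (x : ℂ) * (w2 - w1))))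
        / (w2 - w1)).re) (Icc (0 : ℝ) 1) :=
    fun t ht => (hder t ht).continuousAt.continuousWithinAt
  obtain ⟨c, hc, hc0⟩ := exists_hasDerivAt_eq_zero (a := (0 : ℝ)) (b := 1) zero_lt_one hcont
    (by
      have a1 : w1 + ((0 : ℝ) : ℂ) * (w2 - w1) = w1 := by simp
      have a2 : w1 + ((1 : ℝ) : ℂ) * (w2 - w1) = w2 := by push_cast; ring
      simp only [a1, a2, hb1, hb2, hf])
    (fun t ht => hder t (Ioo_subset_Icc_self ht))
  have hcI := Ioo_subset_Icc_self hc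
  have hgt := W1_g_seg ρ h0 h1 w1 w2 c hcI.1 hcI.2 hg1 hg2
  obtain ⟨-, hlt⟩ := W1_back ρ _ hgt
  have := hre _ hlt
  linarith

/-- TARGET W2. -/
theorem re_pos_W (d m M : ℕ) (hd : 1 ≤ d) (hτ : 28 * (d : ℝ) * (1 - 1 / (d : ℝ)) ^ m < 1)
    (z : ℂ) (hz : ‖z‖ < 1) :
    0 < ((1 - ((1 - 1 / (d : ℝ) : ℝ) : ℂ) * z) ^ 2 *
      ((∑ j ∈ Finset.range m, (((1 - 1 / (d : ℝ) : ℝ) : ℂ) * z) ^ j) ^ 3 +
        ((1 / (162 * (d : ℝ)) : ℝ) : ℂ) * z ^ M * (∑ j ∈ Finset.range d, z ^ j) ^ 4)).re := by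
  have hd0 : (0 : ℝ) < d := by
    have : 0 < d := hd
    exact_mod_cast this
  have hδ1 : 1 / (d : ℝ) ≤ 1 := by
    rw [div_le_one hd0]
    exact_mod_cast hd
  have hδ0 : 0 < 1 / (d : ℝ) := by positivity
  obtain ⟨ρ, hρ⟩ : ∃ ρ : ℝ, ρ = 1 - 1 / (d : ℝ) := ⟨_, rfl⟩
  rw [← hρ] at hτ ⊢
  have hρ0 : 0 ≤ ρ := by rw [hρ]; linarith
  have hρ1 : ρ < 1 := by rw [hρ]; linarith
  have hzn : ‖z‖ ≤ 1 := hz.le
  obtain ⟨w, hw⟩ : ∃ w : ℂ, w = 1 - (ρ : ℂ) * z := ⟨_, rfl⟩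
  obtain ⟨U, hU⟩ : ∃ U : ℂ, U = ∑ j ∈ Finset.range d, z ^ j := ⟨_, rfl⟩
  obtain ⟨S, hS⟩ : ∃ S : ℂ, S = ∑ j ∈ Finset.range m, ((ρ : ℂ) * z) ^ j := ⟨_, rfl⟩
  obtain ⟨x, hx⟩ : ∃ x : ℂ, x = ((ρ : ℂ) * z) ^ m := ⟨_, rfl⟩
  obtain ⟨c, hc⟩ : ∃ c : ℝ, c = 1 / (162 * (d : ℝ)) := ⟨_, rfl⟩
  rw [← hw, ← hU, ← hS, ← hc]
  have hc0 : 0 ≤ c := by rw [hc]; positivity
  have hwS : w * S = 1 - x := by
    rw [hw, hS, hx]
    exact mul_neg_geom_sum _ _
  have hUz : (1 - z) * U = 1 - z ^ d := by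
    rw [hU]
    exact mul_neg_geom_sum _ _
  have hUw : U * w = (1 - z ^ d) + ((1 / (d : ℝ) : ℝ) : ℂ) * z * U := by
    rw [← hUz, hw, hρ]
    push_cast
    ring
  have hUn : ‖U‖ ≤ d := by
    rw [hU]
    calc ‖∑ j ∈ Finset.range d, z ^ j‖ ≤ ∑ j ∈ Finset.range d, ‖z ^ j‖ := norm_sum_le _ _
      _ ≤ ∑ j ∈ Finset.range d, (1 : ℝ) := Finset.sum_le_sum (fun j _ => by
          rw [norm_pow]
          exact pow_le_one₀ (norm_nonneg _) hzn)
      _ = d := by simp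
  have hzd : ‖z ^ d‖ ≤ 1 := by
    rw [norm_pow]
    exact pow_le_one₀ (norm_nonneg _) hzn
  have hUwn : ‖U * w‖ ≤ 3 := by
    rw [hUw]
    have h1 : ‖(1 : ℂ) - z ^ d‖ ≤ 2 := by
      calc ‖(1 : ℂ) - z ^ d‖ ≤ ‖(1 : ℂ)‖ + ‖z ^ d‖ := norm_sub_le _ _
        _ ≤ 2 := by rw [norm_one]; linarith
    have h2 : ‖((1 / (d : ℝ) : ℝ) : ℂ) * z * U‖ ≤ 1 := by
      rw [norm_mul, norm_mul, Complex.norm_real, Real.norm_of_nonneg hδ0.le]
      calc 1 / (d : ℝ) * ‖z‖ * ‖U‖ ≤ 1 / (d : ℝ) * 1 * d := by gcongr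
        _ = 1 := by field_simp
    calc ‖(1 - z ^ d) + ((1 / (d : ℝ) : ℝ) : ℂ) * z * U‖
        ≤ ‖(1 : ℂ) - z ^ d‖ + ‖((1 / (d : ℝ) : ℝ) : ℂ) * z * U‖ := norm_add_le _ _
      _ ≤ 3 := by linarith
  have hτ0 : 0 ≤ ρ ^ m := pow_nonneg hρ0 m
  have hτ1 : ρ ^ m ≤ 1 := pow_le_one₀ hρ0 hρ1.le
  have hρz : ‖(ρ : ℂ) * z‖ ≤ ρ := by
    rw [norm_mul, Complex.norm_real, Real.norm_of_nonneg hρ0]
    calc ρ * ‖z‖ ≤ ρ * 1 := by gcongr
      _ = ρ := mul_one _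
  have hxn : ‖x‖ ≤ ρ ^ m := by
    rw [hx, norm_pow]
    exact pow_le_pow_left₀ (norm_nonneg _) hρz m
  have hx1 : ‖x‖ ≤ 1 := hxn.trans hτ1
  have h3 : ‖(1 - x) ^ 3 - 1‖ ≤ 7 * ρ ^ m := by
    have e1 : (1 - x) ^ 3 - 1 = -(3 * x) + (3 * x ^ 2 - x ^ 3) := by ring
    rw [e1]
    have e2 : ‖-(3 * x)‖ = 3 * ‖x‖ := by rw [norm_neg, norm_mul]; simp
    have e3 : ‖(3 * x ^ 2 : ℂ)‖ = 3 * ‖x‖ ^ 2 := by rw [norm_mul, norm_pow]; simp
    have e4 : ‖x ^ 3‖ = ‖x‖ ^ 3 := norm_pow _ _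
    have e5 : ‖-(3 * x) + (3 * x ^ 2 - x ^ 3)‖ ≤ 3 * ‖x‖ + (3 * ‖x‖ ^ 2 + ‖x‖ ^ 3) := by
      calc ‖-(3 * x) + (3 * x ^ 2 - x ^ 3)‖ ≤ ‖-(3 * x)‖ + ‖3 * x ^ 2 - x ^ 3‖ := norm_add_le _ _
        _ ≤ ‖-(3 * x)‖ + (‖(3 * x ^ 2 : ℂ)‖ + ‖x ^ 3‖) := by
            gcongr
            exact norm_sub_le _ _
        _ = 3 * ‖x‖ + (3 * ‖x‖ ^ 2 + ‖x‖ ^ 3) := by rw [e2, e3, e4]
    have hn0 := norm_nonneg x
    have e6 : ‖x‖ ^ 2 ≤ ‖x‖ := by nlinarith
    have e7 : ‖x‖ ^ 3 ≤ ‖x‖ := by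
      have : ‖x‖ ^ 3 = ‖x‖ ^ 2 * ‖x‖ := by ring
      nlinarith
    linarith
  have hwn : ‖w‖ ≤ 2 := by
    rw [hw]
    calc ‖(1 : ℂ) - (ρ : ℂ) * z‖ ≤ ‖(1 : ℂ)‖ + ‖(ρ : ℂ) * z‖ := norm_sub_le _ _
      _ ≤ 2 := by rw [norm_one]; linarith
  have hwre : 1 / (d : ℝ) ≤ w.re := by
    have e1 : w.re = 1 - ((ρ : ℂ) * z).re := by rw [hw]; simp
    have e2 : ((ρ : ℂ) * z).re ≤ ρ := (Complex.re_le_norm _).trans hρz
    rw [e1]
    have : 1 / (d : ℝ) = 1 - ρ := by rw [hρ]; ring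
    rw [this]
    linarith
  have hw0 : w ≠ 0 := by
    rintro h0
    rw [h0] at hwre
    simp only [Complex.zero_re] at hwre
    linarith
  have hnsq : 0 < Complex.normSq w := Complex.normSq_pos.2 hw0
  have key : Complex.normSq w * (w ^ 2 * (S ^ 3 + (c : ℂ) * z ^ M * U ^ 4)).re =
      (starRingEnd ℂ w).re + ((starRingEnd ℂ w) * ((1 - x) ^ 3 - 1)).re +
        ((starRingEnd ℂ w) * ((c : ℂ) * z ^ M * w ^ 3 * U ^ 4)).re := by
    rw [← Complex.re_ofReal_mul, ← Complex.add_re, ← Complex.add_re, Complex.normSq_eq_conj_mul_self]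
    congr 1
    rw [← hwS]
    ring
  have b1 : -(14 * ρ ^ m) ≤ ((starRingEnd ℂ w) * ((1 - x) ^ 3 - 1)).re := by
    have e1 : |((starRingEnd ℂ w) * ((1 - x) ^ 3 - 1)).re| ≤
        ‖(starRingEnd ℂ w) * ((1 - x) ^ 3 - 1)‖ := Complex.abs_re_le_norm _
    have e2 : ‖(starRingEnd ℂ w) * ((1 - x) ^ 3 - 1)‖ ≤ 2 * (7 * ρ ^ m) := by
      rw [norm_mul, RCLike.norm_conj]
      gcongr
    have e3 := (abs_le.1 (e1.trans e2)).1
    linarith
  have b2 : -(1 / (d : ℝ) / 2) ≤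
      ((starRingEnd ℂ w) * ((c : ℂ) * z ^ M * w ^ 3 * U ^ 4)).re := by
    have e1 := Complex.abs_re_le_norm ((starRingEnd ℂ w) * ((c : ℂ) * z ^ M * w ^ 3 * U ^ 4))
    have hzM : ‖z‖ ^ M ≤ 1 := pow_le_one₀ (norm_nonneg _) hzn
    have e2 : ‖(starRingEnd ℂ w) * ((c : ℂ) * z ^ M * w ^ 3 * U ^ 4)‖ ≤ c * 1 * 3 ^ 4 := by
      have e3 : ‖(starRingEnd ℂ w) * ((c : ℂ) * z ^ M * w ^ 3 * U ^ 4)‖ =
          c * ‖z‖ ^ M * ‖U * w‖ ^ 4 := by
        rw [norm_mul, norm_mul, norm_mul, norm_mul, RCLike.norm_conj, norm_pow, norm_pow,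
          norm_pow, norm_mul, Complex.norm_real, Real.norm_of_nonneg hc0]
        ring
      rw [e3]
      gcongr
    have e4 := (abs_le.1 (e1.trans e2)).1
    have e5 : c * 1 * 3 ^ 4 = 1 / (d : ℝ) / 2 := by
      rw [hc]
      field_simp
      norm_num
    rw [e5] at e4
    exact e4
  have b3 : (starRingEnd ℂ w).re = w.re := by simp
  have b4 : 14 * ρ ^ m < 1 / (d : ℝ) / 2 := by
    rw [div_div, lt_div_iff₀ (by positivity)]
    linarith
  have hfin : 0 < Complex.normSq w * (w ^ 2 * (S ^ 3 + (c : ℂ) * z ^ M * U ^ 4)).re := by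
    rw [key, b3]
    linarith
  exact (pos_iff_pos_of_mul_pos hfin).1 hnsq

open Polynomial in
theorem W3_nonneg_mul (p q : ℝ[X]) (hp : ∀ i, 0 ≤ p.coeff i) (hq : ∀ i, 0 ≤ q.coeff i) :
    ∀ i, 0 ≤ (p * q).coeff i := by
  intro i
  rw [coeff_mul]
  exact Finset.sum_nonneg (fun x _ => mul_nonneg (hp _) (hq _))

open Polynomial in
theorem W3_nonneg_W (ρ : ℝ) (hρ : 0 ≤ ρ) (m : ℕ) :
    ∀ i, 0 ≤ (∑ j ∈ Finset.range m, (C ρ * X : ℝ[X]) ^ j).coeff i := by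
  intro i
  rw [finset_sum_coeff]
  refine Finset.sum_nonneg fun j _ => ?_
  rw [mul_pow, ← C_pow, coeff_C_mul, coeff_X_pow]
  split_ifs
  · rw [mul_one]; exact pow_nonneg hρ _
  · rw [mul_zero]

open Polynomial in
theorem W3_deg_W (ρ : ℝ) (m : ℕ) :
    (∑ j ∈ Finset.range m, (C ρ * X : ℝ[X]) ^ j).natDegree ≤ m - 1 := by
  refine natDegree_sum_le_of_forall_le _ _ fun j hj => ?_
  rw [mul_pow, ← C_pow]
  have := Finset.mem_range.1 hj
  refine (natDegree_C_mul_X_pow_le _ _).trans ?_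
  omega

open Polynomial in
theorem W3_deg_U (d : ℕ) :
    (∑ j ∈ Finset.range d, (X : ℝ[X]) ^ j).natDegree ≤ d - 1 := by
  refine natDegree_sum_le_of_forall_le _ _ fun j hj => ?_
  have := Finset.mem_range.1 hj
  rw [natDegree_X_pow]
  omega

open Polynomial in
noncomputable def W3_q (d m M : ℕ) : ℝ[X] :=
  (∑ j ∈ Finset.range m, (C (1 - 1 / (d : ℝ)) * X : ℝ[X]) ^ j) ^ 3 +
    C (1 / (162 * (d : ℝ))) * (X ^ M * (∑ j ∈ Finset.range d, (X : ℝ[X]) ^ j) ^ 4)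

open Polynomial in
noncomputable def W3_P (n d m M : ℕ) : ℂ[X] :=
  ∑ i ∈ Finset.range n, C ((((W3_q d m M).coeff i / ((i : ℝ) + 1) : ℝ)) : ℂ) * X ^ (i + 1)

open Polynomial in
theorem W3_coeff_succ (n d m M i : ℕ) (hi : i < n) :
    (W3_P n d m M).coeff (i + 1) = (((W3_q d m M).coeff i / ((i : ℝ) + 1) : ℝ) : ℂ) := by
  unfold W3_P
  rw [finset_sum_coeff]
  rw [Finset.sum_eq_single i]
  · rw [coeff_C_mul, coeff_X_pow, if_pos rfl, mul_one]
  · intro b _ hb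
    rw [coeff_C_mul, coeff_X_pow, if_neg (by omega), mul_zero]
  · intro h
    exact absurd (Finset.mem_range.2 hi) h

open Polynomial in
theorem W3_coeff_zero (n d m M : ℕ) : (W3_P n d m M).coeff 0 = 0 := by
  unfold W3_P
  rw [finset_sum_coeff]
  refine Finset.sum_eq_zero fun i _ => ?_
  rw [coeff_C_mul, coeff_X_pow, if_neg (by omega), mul_zero]

open Polynomial in
theorem W3_deg_P (n d m M : ℕ) : (W3_P n d m M).natDegree ≤ n := by
  unfold W3_P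
  refine natDegree_sum_le_of_forall_le _ _ fun i hi => ?_
  have := Finset.mem_range.1 hi
  refine (natDegree_C_mul_X_pow_le _ _).trans ?_
  omega

open Polynomial in
theorem W3_deg_q (n d m M : ℕ) (hd : 1 ≤ d) (hm : 1 ≤ m) (hM : 1 ≤ M) (hn : M + 4 * d = n + 3)
    (hmn : 3 * m ≤ n + 2) : (W3_q d m M).natDegree < n := by
  unfold W3_q
  have h1 := W3_deg_W (1 - 1 / (d : ℝ)) m
  have h2 := W3_deg_U d
  have h3 : ((∑ j ∈ Finset.range m, (C (1 - 1 / (d : ℝ)) * X : ℝ[X]) ^ j) ^ 3).natDegree ≤ n - 1 := by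
    refine (natDegree_pow_le).trans ?_
    omega
  have h4 : (C (1 / (162 * (d : ℝ))) * (X ^ M * (∑ j ∈ Finset.range d, (X : ℝ[X]) ^ j) ^ 4)).natDegree ≤ n - 1 := by
    refine (natDegree_C_mul_le _ _).trans ?_
    refine (natDegree_mul_le).trans ?_
    rw [natDegree_X_pow]
    have := (natDegree_pow_le (p := (∑ j ∈ Finset.range d, (X : ℝ[X]) ^ j)) (n := 4))
    omega
  have := natDegree_add_le_of_degree_le h3 h4
  omega

open Polynomial in
theorem W3_derivative (n d m M : ℕ) (hq : (W3_q d m M).natDegree < n) :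
    derivative (W3_P n d m M) = (W3_q d m M).map Complex.ofRealHom := by
  unfold W3_P
  rw [derivative_sum]
  conv_rhs => rw [as_sum_range_C_mul_X_pow' (W3_q d m M) hq, Polynomial.map_sum]
  refine Finset.sum_congr rfl fun i _ => ?_
  rw [derivative_C_mul_X_pow, Polynomial.map_mul, Polynomial.map_pow, Polynomial.map_X, Polynomial.map_C]
  congr 1
  congr 1
  have : ((i : ℝ) + 1) ≠ 0 := by positivity
  show _ = (((W3_q d m M).coeff i : ℝ) : ℂ)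
  rw [← Complex.ofReal_natCast, ← Complex.ofReal_mul]
  congr 1
  push_cast
  field_simp

open Polynomial in
theorem W3_eval (d m M : ℕ) (z : ℂ) : ((W3_q d m M).map Complex.ofRealHom).eval z =
    ((∑ j ∈ Finset.range m, (((1 - 1 / (d : ℝ) : ℝ) : ℂ) * z) ^ j) ^ 3 +
        ((1 / (162 * (d : ℝ)) : ℝ) : ℂ) * z ^ M * (∑ j ∈ Finset.range d, z ^ j) ^ 4) := by
  unfold W3_q
  simp only [Polynomial.map_add, Polynomial.map_mul, Polynomial.map_pow, Polynomial.map_sum,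
    Polynomial.map_X, Polynomial.map_C, eval_add, eval_mul, eval_pow, eval_finset_sum, eval_C, eval_X,
    Complex.ofRealHom_eq_coe]
  ring

open Polynomial in
theorem W3_q_zero (d m M : ℕ) (hm : 1 ≤ m) (hM : 1 ≤ M) : (W3_q d m M).coeff 0 = 1 := by
  rw [coeff_zero_eq_eval_zero]
  unfold W3_q
  simp only [eval_add, eval_mul, eval_pow, eval_finset_sum, eval_C, eval_X, mul_zero]
  rw [zero_pow (by omega : M ≠ 0), zero_mul, mul_zero, add_zero]
  have : ∑ j ∈ Finset.range m, (0 : ℝ) ^ j = 1 := by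
    rw [Finset.sum_eq_single 0]
    · simp
    · intro b _ hb
      exact zero_pow hb
    · intro h
      exact absurd (Finset.mem_range.2 hm) h
  rw [this, one_pow]

open Polynomial in
theorem W3_q_lower (d m M j : ℕ) (hd : 1 ≤ d) :
    (1 / (162 * (d : ℝ))) * ((∑ j ∈ Finset.range d, (X : ℝ[X]) ^ j) ^ 4).coeff j ≤
      (W3_q d m M).coeff (j + M) := by
  unfold W3_q
  rw [coeff_add, coeff_C_mul, coeff_X_pow_mul]
  have hρ : (0 : ℝ) ≤ 1 - 1 / (d : ℝ) := by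
    have hd' : (1 : ℝ) ≤ d := by exact_mod_cast hd
    rw [sub_nonneg, div_le_one (by linarith)]
    exact hd'
  have h1 := W3_nonneg_W _ hρ m
  have h2 := W3_nonneg_mul _ _ (W3_nonneg_mul _ _ h1 h1) h1 (j + M)
  have h3 : 0 ≤ ((∑ j ∈ Finset.range m, (C (1 - 1 / (d : ℝ)) * X : ℝ[X]) ^ j) ^ 3).coeff (j + M) := by
    rw [pow_succ, pow_two]; exact h2
  linarith

open Polynomial in
theorem W3_sum_U (d : ℕ) (hd : 1 ≤ d) :
    ∑ i ∈ Finset.range (4 * (d - 1) + 1), ((∑ j ∈ Finset.range d, (X : ℝ[X]) ^ j) ^ 4).coeff i = (d : ℝ) ^ 4 := by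
  have h : ((∑ j ∈ Finset.range d, (X : ℝ[X]) ^ j) ^ 4).natDegree < 4 * (d - 1) + 1 := by
    have h2 := W3_deg_U d
    have := (natDegree_pow_le (p := (∑ j ∈ Finset.range d, (X : ℝ[X]) ^ j)) (n := 4))
    omega
  have h1 := eval_eq_sum_range' h 1
  simp only [one_pow, mul_one] at h1
  rw [← h1]
  simp [eval_finset_sum]

/-- TARGET W3. -/
theorem exists_big (n d m M : ℕ) (hd : 1 ≤ d) (hm : 1 ≤ m) (hM : 1 ≤ M) (hn : M + 4 * d = n + 3)
    (hmn : 3 * m ≤ n + 2) (hτ : 28 * (d : ℝ) * (1 - 1 / (d : ℝ)) ^ m < 1)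
    (hbig : 648 * n < d ^ 2) :
    ∃ P : Polynomial ℂ, UnivPoly n P ∧ ∃ l : ℕ, M + 1 ≤ l ∧ l ≤ n ∧ 1 < ‖P.coeff l‖ := by
  have hd' : (1 : ℝ) ≤ d := by exact_mod_cast hd
  have hdpos : (0 : ℝ) < d := by linarith
  have hρ0 : (0 : ℝ) ≤ 1 - 1 / (d : ℝ) := by
    rw [sub_nonneg, div_le_one (by linarith)]
    exact hd'
  have hρ1 : 1 - 1 / (d : ℝ) < 1 := by
    have : 0 < 1 / (d : ℝ) := by positivity
    linarith
  have hdq := W3_deg_q n d m M hd hm hM hn hmn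
  refine ⟨W3_P n d m M, ⟨W3_deg_P n d m M, W3_coeff_zero n d m M, ?_, ?_⟩, ?_⟩
  · have := W3_coeff_succ n d m M 0 (by omega)
    rw [zero_add] at this
    rw [this, W3_q_zero d m M hm hM]
    simp
  · refine inj_of_re_pos (fun z => (W3_P n d m M).eval z) (Polynomial.differentiable _)
      (1 - 1 / (d : ℝ)) hρ0 hρ1 ?_
    intro z hz
    rw [Polynomial.deriv, W3_derivative n d m M hdq, W3_eval]
    exact re_pos_W d m M hd hτ z hz
  · by_contra hcon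
    push Not at hcon
    have hle : ∀ j ∈ Finset.range (4 * (d - 1) + 1),
        (1 / (162 * (d : ℝ))) * ((∑ j ∈ Finset.range d, (Polynomial.X : Polynomial ℝ) ^ j) ^ 4).coeff j ≤ n := by
      intro j hj
      rw [Finset.mem_range] at hj
      refine (W3_q_lower d m M j hd).trans ?_
      have h1 := hcon (j + M + 1) (by omega) (by omega)
      rw [W3_coeff_succ n d m M (j + M) (by omega), Complex.norm_real, Real.norm_eq_abs] at h1
      have h2 := (le_abs_self _).trans h1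
      have h3 : (0 : ℝ) < (((j + M : ℕ) : ℝ) + 1) := by positivity
      rw [div_le_one h3] at h2
      refine h2.trans ?_
      have : j + M + 1 ≤ n := by omega
      exact_mod_cast this
    have hs := Finset.sum_le_sum hle
    rw [← Finset.mul_sum, W3_sum_U d hd, Finset.sum_const, Finset.card_range, nsmul_eq_mul] at hs
    have h4 : ((4 * (d - 1) + 1 : ℕ) : ℝ) ≤ 4 * d := by
      have : 4 * (d - 1) + 1 ≤ 4 * d := by omega
      exact_mod_cast this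
    have h5 : (1 / (162 * (d : ℝ))) * (d : ℝ) ^ 4 = (d : ℝ) ^ 3 / 162 := by
      field_simp
    rw [h5] at hs
    have h6 : (648 : ℝ) * n < (d : ℝ) ^ 2 := by exact_mod_cast hbig
    have h7 : ((4 * (d - 1) + 1 : ℕ) : ℝ) * (n : ℝ) ≤ 4 * d * n :=
      mul_le_mul_of_nonneg_right h4 (Nat.cast_nonneg _)
    have h8 : (648 : ℝ) * n * d < (d : ℝ) ^ 2 * d := mul_lt_mul_of_pos_right h6 hdpos
    nlinarith [hs, h7, h8]

theorem W4_pow (d m : ℕ) (s : ℝ) (hs : 10 ^ 5 ≤ s) (hd1 : 1 ≤ d) (hd : (d : ℝ) ≤ 26 * s)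
    (hm : s ^ 2 - 2 ≤ 3 * (m : ℝ)) :
    28 * (d : ℝ) * (1 - 1 / (d : ℝ)) ^ m < 1 := by
  have hs0 : 0 < s := by linarith [show (0:ℝ) < 10 ^ 5 by norm_num]
  have hd0 : (1 : ℝ) ≤ d := by exact_mod_cast hd1
  have hdp : (0 : ℝ) < d := by linarith
  have h0 : 0 ≤ 1 - 1 / (d : ℝ) := by
    have : 1 / (d : ℝ) ≤ 1 := by
      rw [div_le_one hdp]
      exact hd0
    linarith
  have h1 : 1 - 1 / (d : ℝ) ≤ Real.exp (-(1 / (d : ℝ))) := Real.one_sub_le_exp_neg _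
  have h2 : (1 - 1 / (d : ℝ)) ^ m ≤ Real.exp (-((m : ℝ) / d)) := by
    calc (1 - 1 / (d : ℝ)) ^ m ≤ (Real.exp (-(1 / (d : ℝ)))) ^ m := pow_le_pow_left₀ h0 h1 m
      _ = Real.exp (-((m : ℝ) / d)) := by
          rw [← Real.exp_nat_mul]
          congr 1
          ring
  have h3 : s / 80 ≤ (m : ℝ) / d := by
    rw [div_le_div_iff₀ (by norm_num) hdp]
    have : s * (d : ℝ) ≤ s * (26 * s) := mul_le_mul_of_nonneg_left hd hs0.le
    nlinarith
  have h4 : Real.exp (-((m : ℝ) / d)) ≤ Real.exp (-(s / 80)) := Real.exp_le_exp.mpr (by linarith)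
  have h5 : (s / 80) ^ 4 / (Nat.factorial 4 : ℝ) ≤ Real.exp (s / 80) :=
    Real.pow_div_factorial_le_exp (s / 80) (by positivity) 4
  have h6 : 728 * s < Real.exp (s / 80) := by
    refine lt_of_lt_of_le ?_ h5
    have e1 : (Nat.factorial 4 : ℝ) = 24 := by norm_num [Nat.factorial]
    rw [e1]
    have e2 : (s / 80) ^ 4 / 24 = s ^ 3 * s / 983040000 := by
      rw [div_pow]
      norm_num
      ring
    rw [e2, lt_div_iff₀ (by norm_num)]
    have e3 : ((10:ℝ) ^ 5) ^ 3 ≤ s ^ 3 := pow_le_pow_left₀ (by norm_num) hs 3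
    nlinarith
  have h7 : 28 * (d : ℝ) * (1 - 1 / (d : ℝ)) ^ m ≤ 728 * s * Real.exp (-(s / 80)) := by
    have e1 : 28 * (d : ℝ) ≤ 728 * s := by linarith
    exact mul_le_mul e1 (h2.trans h4) (pow_nonneg h0 m) (by positivity)
  refine lt_of_le_of_lt h7 ?_
  rw [Real.exp_neg, ← div_eq_mul_inv, div_lt_one (Real.exp_pos _)]
  exact h6

/-- TARGET W4. -/
theorem params (n : ℕ) (hn : 10 ^ 10 ≤ n) :
    ∃ d m M : ℕ, 1 ≤ d ∧ 1 ≤ m ∧ 1 ≤ M ∧ M + 4 * d = n + 3 ∧ 3 * m ≤ n + 2 ∧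
      28 * (d : ℝ) * (1 - 1 / (d : ℝ)) ^ m < 1 ∧ 648 * n < d ^ 2 ∧
      (n : ℝ) - 104 * Real.sqrt n ≤ M := by
  have hnr : (10:ℝ) ^ 10 ≤ n := by exact_mod_cast hn
  obtain ⟨s, hsdef⟩ : ∃ s : ℝ, s = Real.sqrt n := ⟨_, rfl⟩
  have hs2 : s ^ 2 = n := by
    rw [hsdef]
    exact Real.sq_sqrt (by positivity)
  have hs : (10:ℝ) ^ 5 ≤ s := by
    rw [hsdef]
    refine Real.le_sqrt_of_sq_le ?_
    have e0 : ((10:ℝ) ^ 5) ^ 2 = (10:ℝ) ^ 10 := by norm_num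
    rw [e0]
    exact hnr
  have hs5 : (100000:ℝ) ≤ s := by
    have : (10:ℝ) ^ 5 = 100000 := by norm_num
    linarith
  have hd : ((⌊26 * s⌋₊ : ℕ) : ℝ) ≤ 26 * s := Nat.floor_le (by positivity)
  have hd' : 26 * s - 1 < ((⌊26 * s⌋₊ : ℕ) : ℝ) := Nat.sub_one_lt_floor _
  obtain ⟨d, hddef⟩ : ∃ d : ℕ, d = ⌊26 * s⌋₊ := ⟨_, rfl⟩
  rw [← hddef] at hd hd'
  have hd1 : 1 ≤ d := by
    have : (1:ℝ) < d := by linarith
    have : 1 < d := by exact_mod_cast this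
    omega
  have h4d : 4 * d ≤ n := by
    have : 4 * (d : ℝ) ≤ n := by
      rw [← hs2]
      nlinarith
    exact_mod_cast this
  have hm : s ^ 2 - 2 ≤ 3 * ((n / 3 : ℕ) : ℝ) := by
    rw [hs2]
    have : n ≤ 3 * (n / 3) + 2 := by omega
    have : (n : ℝ) ≤ 3 * ((n / 3 : ℕ) : ℝ) + 2 := by exact_mod_cast this
    linarith
  refine ⟨d, n / 3, n + 3 - 4 * d, hd1, by omega, by omega, by omega, by omega, ?_, ?_, ?_⟩
  · exact W4_pow d (n / 3) s hs hd1 hd hm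
  · have : (648:ℝ) * n < (d : ℝ) ^ 2 := by
      rw [← hs2]
      nlinarith
    exact_mod_cast this
  · rw [← hsdef]
    have e1 : 4 * d ≤ n + 3 := by omega
    rw [Nat.cast_sub e1]
    push_cast
    linarith

end Pool.Agent.Helper671.UP
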