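import Mathlib
import Pool.Agent.Helper671.UP.Univ2

set_option autoImplicit false
open Complex Set Filter Metric Topology

namespace Pool.Agent.Helper671.UP

open Arc ArcJ

/-- `f` belongs to the class `S(M)`: analytic and injective in the disc, `f 0 = 0`, `f' 0 = 1`, `|f| ≤ M` -/
def InSM (M : ℝ) (f : ℂ → ℂ) : Prop :=
  DifferentiableOn ℂ f (ball (0 : ℂ) 1) ∧ Set.InjOn f (ball (0 : ℂ) 1) ∧ f 0 = 0 ∧ deriv f 0 = 1 ∧
    ∀ z : ℂ, ‖z‖ < 1 → ‖f z‖ ≤ M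

/-- TARGET T1. -/
theorem tr_deriv2S (f : ℂ → ℂ) (hd : DifferentiableOn ℂ f (ball (0 : ℂ) 1)) (ζ : ℂ) (hζ : ‖ζ‖ < 1)
    (hne : deriv f ζ ≠ 0) :
    deriv (KT f ζ) 0 = 1 ∧ deriv (deriv (KT f ζ)) 0 =
      ((1 - ‖ζ‖ ^ 2 : ℝ) : ℂ) * (deriv (deriv f) ζ / deriv f ζ) - 2 * (starRingEnd ℂ) ζ := by
  set c : ℂ := ((1 - ‖ζ‖ ^ 2 : ℝ) : ℂ) with hc
  set w : ℂ := (starRingEnd ℂ) ζ with hw
  have hc0 : c ≠ 0 := by
    rw [hc]
    have : (0:ℝ) < 1 - ‖ζ‖ ^ 2 := by nlinarith [norm_nonneg ζ]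
    exact_mod_cast this.ne'
  have hden0 : (1 : ℂ) + w * 0 ≠ 0 := by simp
  have hpt0 : (0 + ζ) / (1 + w * 0) = ζ := by simp
  have hball0 : (0 + ζ) / (1 + w * 0) ∈ ball (0 : ℂ) 1 := by
    rw [hpt0, mem_ball_zero_iff]
    exact hζ
  -- first derivative formula
  have hfirst : ∀ z : ℂ, 1 + w * z ≠ 0 → (z + ζ) / (1 + w * z) ∈ ball (0 : ℂ) 1 →
      HasDerivAt (KT f ζ) (deriv f ((z + ζ) / (1 + w * z)) * (c / (1 + w * z) ^ 2) / (c * deriv f ζ)) z := by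
    intro z hz hzb
    have h1 := L2a_T ζ z hz
    have h2 : HasDerivAt f (deriv f ((z + ζ) / (1 + w * z))) ((z + ζ) / (1 + w * z)) :=
      (hd.differentiableAt (isOpen_ball.mem_nhds hzb)).hasDerivAt
    have h3 := (HasDerivAt.comp z h2 h1).sub_const (f ζ)
    exact h3.div_const (c * deriv f ζ)
  have hev : ∀ᶠ z in 𝓝 (0:ℂ), 1 + w * z ≠ 0 := by
    have hcont : ContinuousAt (fun z : ℂ => 1 + w * z) 0 := (L2a_den ζ 0).continuousAt
    exact hcont.eventually_ne hden0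
  have hev2 : ∀ᶠ z in 𝓝 (0:ℂ), (z + ζ) / (1 + w * z) ∈ ball (0 : ℂ) 1 := by
    have hcont : ContinuousAt (fun z : ℂ => (z + ζ) / (1 + w * z)) 0 := (L2a_T ζ 0 hden0).continuousAt
    exact hcont.eventually (isOpen_ball.mem_nhds hball0)
  have heq : deriv (KT f ζ) =ᶠ[𝓝 0] fun z =>
      deriv f ((z + ζ) / (1 + w * z)) * (c / (1 + w * z) ^ 2) / (c * deriv f ζ) := by
    filter_upwards [hev, hev2] with z hz hzb
    exact (hfirst z hz hzb).deriv
  constructor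
  · rw [(hfirst 0 hden0 hball0).deriv]
    simp only [zero_add, mul_zero, add_zero, div_one, one_pow]
    field_simp
  · rw [heq.deriv_eq]
    have hT := L2a_T ζ 0 hden0
    have hdd : HasDerivAt (deriv f) (deriv (deriv f) ((0 + ζ) / (1 + w * 0))) ((0 + ζ) / (1 + w * 0)) :=
      ((hd.deriv isOpen_ball).differentiableAt (isOpen_ball.mem_nhds hball0)).hasDerivAt
    have h4 := HasDerivAt.comp (0:ℂ) hdd hT
    have h5 : HasDerivAt (fun z : ℂ => c / (1 + w * z) ^ 2) (-2 * w * c) 0 := by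
      have h6 := ((L2a_den ζ 0).fun_pow 2).fun_inv (by simp)
      have h7 := h6.const_mul c
      refine (h7.congr_deriv ?_).congr_of_eventuallyEq ?_
      · rw [← hw]
        simp
        ring
      · exact Filter.Eventually.of_forall (fun z => by simp only [div_eq_mul_inv, hw])
    have h8 := (h4.mul h5).div_const (c * deriv f ζ)
    have h9 := h8.deriv
    simp only [Function.comp_def] at h9
    refine Eq.trans ?_ (h9.trans ?_)
    · rfl
    · simp only [zero_add, mul_zero, add_zero, div_one, one_pow]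
      rw [← hc]
      field_simp
      ring

/-- TARGET T2. -/
theorem koebe_trS (f : ℂ → ℂ) (hd : DifferentiableOn ℂ f (ball (0 : ℂ) 1))
    (hinj : Set.InjOn f (ball (0 : ℂ) 1)) (M : ℝ) (hb : ∀ z : ℂ, ‖z‖ < 1 → ‖f z‖ ≤ M)
    (ζ : ℂ) (hζ : ‖ζ‖ < 1) :
    ‖((1 - ‖ζ‖ ^ 2 : ℝ) : ℂ) * (deriv (deriv f) ζ / deriv f ζ) - 2 * (starRingEnd ℂ) ζ‖ ≤ 4 := by
  have hne := deriv_ne_zero_of_inj f hd hinj ζ hζ
  obtain ⟨hF1, hF2⟩ := tr_deriv2S f hd ζ hζ hne
  have hden : (((1 - ‖ζ‖ ^ 2 : ℝ) : ℂ) * deriv f ζ) ≠ 0 := by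
    apply mul_ne_zero _ hne
    have : (1 - ‖ζ‖ ^ 2 : ℝ) ≠ 0 := by nlinarith [norm_nonneg ζ]
    exact_mod_cast this
  have hS : InS (KT f ζ) := by
    refine ⟨?_, ?_, ?_, hF1⟩
    · intro z hz
      rw [mem_ball_zero_iff] at hz
      have h1 : DifferentiableAt ℂ (fun z => (z + ζ) / (1 + (starRingEnd ℂ) ζ * z)) z :=
        DifferentiableAt.div (by fun_prop) (by fun_prop) (L2b_den z ζ hz hζ)
      have h2 : DifferentiableAt ℂ (fun z => f ((z + ζ) / (1 + (starRingEnd ℂ) ζ * z))) z :=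
        DifferentiableAt.comp z (hd.differentiableAt (isOpen_ball.mem_nhds
          (mem_ball_zero_iff.mpr (L2b_map z ζ hz hζ)))) h1
      exact ((h2.sub_const _).div_const _).differentiableWithinAt
    · intro z hz w hw h
      rw [mem_ball_zero_iff] at hz hw
      unfold KT at h
      have h1 : f ((z + ζ) / (1 + (starRingEnd ℂ) ζ * z)) =
          f ((w + ζ) / (1 + (starRingEnd ℂ) ζ * w)) := by
        have h2 := (div_left_inj' hden).mp h
        linear_combination h2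
      have h3 := hinj (mem_ball_zero_iff.mpr (L2b_map z ζ hz hζ))
        (mem_ball_zero_iff.mpr (L2b_map w ζ hw hζ)) h1
      exact L2b_injT z w ζ hz hw hζ h3
    · unfold KT
      simp
  obtain ⟨a, ha⟩ := exists_PS hS.1
  have hps := (PS.hasFPowerSeries ha).hasFPowerSeriesAt
  have hps2 := hps.analyticAt.hasFPowerSeriesAt
  have heq := hps.eq_formalMultilinearSeries hps2
  have hco : a = fun n => iteratedDeriv n (KT f ζ) 0 / n.factorial :=
    FormalMultilinearSeries.ofScalars_series_injective ℂ ℂ heq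
  have ha2 : deriv (deriv (KT f ζ)) 0 = 2 * a 2 := by
    rw [hco]
    have h1 : iteratedDeriv 2 (KT f ζ) 0 = deriv (deriv (KT f ζ)) 0 := by
      rw [iteratedDeriv_succ, iteratedDeriv_one]
    simp only [h1]
    norm_num [Nat.factorial]
    ring
  have hbd : ∀ z ∈ ball (0:ℂ) 1, ‖KT f ζ z‖ ≤ (M + ‖f ζ‖) / ‖((1 - ‖ζ‖ ^ 2 : ℝ) : ℂ) * deriv f ζ‖ := by
    intro z hz
    rw [mem_ball_zero_iff] at hz
    unfold KT
    rw [norm_div]
    apply div_le_div_of_nonneg_right _ (norm_nonneg _)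
    refine (norm_sub_le _ _).trans ?_
    have := hb ((z + ζ) / (1 + (starRingEnd ℂ) ζ * z)) (L2b_map z ζ hz hζ)
    linarith
  have hlim : Tendsto (fun n : ℕ => ‖a 2 + 1 / (n : ℂ)‖) atTop (𝓝 ‖a 2 + 0‖) := by
    apply Tendsto.norm
    apply Tendsto.add tendsto_const_nhds
    exact tendsto_one_div_atTop_nhds_zero_nat
  have hev : ∀ᶠ n : ℕ in atTop, ‖a 2 + 1 / (n : ℂ)‖ ≤ 2 := by
    obtain ⟨N, hN⟩ := exists_nat_gt ((M + ‖f ζ‖) / ‖((1 - ‖ζ‖ ^ 2 : ℝ) : ℂ) * deriv f ζ‖)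
    filter_upwards [eventually_ge_atTop N] with n hn
    apply bieb_gen hS ha
    rintro ⟨z, hz, hzn⟩
    have h1 := hbd z hz
    rw [hzn, Complex.norm_natCast] at h1
    have h2 : (N:ℝ) ≤ n := by exact_mod_cast hn
    linarith
  have h2 : ‖a 2‖ ≤ 2 := by
    have := le_of_tendsto hlim hev
    simpa using this
  rw [← hF2, ha2, norm_mul]
  norm_num
  linarith

/-- TARGET T3. -/
theorem distortionS (f : ℂ → ℂ) (hd : DifferentiableOn ℂ f (ball (0 : ℂ) 1)) (h1 : deriv f 0 = 1)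
    (hne : ∀ z : ℂ, ‖z‖ < 1 → deriv f z ≠ 0)
    (hk : ∀ ζ : ℂ, ‖ζ‖ < 1 →
      ‖((1 - ‖ζ‖ ^ 2 : ℝ) : ℂ) * (deriv (deriv f) ζ / deriv f ζ) - 2 * (starRingEnd ℂ) ζ‖ ≤ 4)
    (z : ℂ) (hz : ‖z‖ < 1) : ‖deriv f z‖ ≤ (1 + ‖z‖) / (1 - ‖z‖) ^ 3 := by
  by_cases hz0 : z = 0
  · subst hz0; simp [h1]
  have hr : 0 < ‖z‖ := norm_pos_iff.mpr hz0
  set r := ‖z‖ with hrdef
  set u : ℂ := z / r with hudef
  have hu : ‖u‖ = 1 := by
    rw [hudef, norm_div, Complex.norm_real, Real.norm_of_nonneg hr.le, ← hrdef]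
    exact div_self hr.ne'
  have hzu : z = r * u := by
    have hrc : (r : ℂ) ≠ 0 := by exact_mod_cast hr.ne'
    rw [hudef]; field_simp
  have hdd : DifferentiableOn ℂ (deriv f) (ball (0 : ℂ) 1) := hd.deriv isOpen_ball
  have hF : ∀ t : ℝ, 0 ≤ t → t < 1 →
      HasDerivAt (fun t : ℝ => deriv f (t * u)) (deriv (deriv f) (t * u) * u) t := by
    intro t ht0 ht1
    have h1 : HasDerivAt (fun t : ℝ => (t : ℂ) * u) (1 * u) t := (Complex.ofRealCLM.hasDerivAt.mul_const u)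
    have hmem : (t : ℂ) * u ∈ ball (0 : ℂ) 1 := by
      rw [mem_ball_zero_iff, norm_mul, hu, mul_one, Complex.norm_real, Real.norm_of_nonneg ht0]
      exact ht1
    have h2 := (hdd.differentiableAt (isOpen_ball.mem_nhds hmem)).hasDerivAt
    have h3 := HasDerivAt.comp t h2 h1
    rw [one_mul] at h3
    exact h3
  have hN : ∀ t : ℝ, 0 ≤ t → t < 1 → HasDerivAt (fun t : ℝ => ‖deriv f (t * u)‖ ^ 2)
      (2 * inner ℝ (deriv f (t * u)) (deriv (deriv f) (t * u) * u)) t :=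
    fun t ht0 ht1 => (hF t ht0 ht1).norm_sq
  have hh : ∀ t : ℝ, 0 ≤ t → t < 1 → HasDerivAt (fun t : ℝ => ‖deriv f (t * u)‖ ^ 2 * ((1 - t) ^ 6 / (1 + t) ^ 2))
      (2 * inner ℝ (deriv f (t * u)) (deriv (deriv f) (t * u) * u) * ((1 - t) ^ 6 / (1 + t) ^ 2)
        + ‖deriv f (t * u)‖ ^ 2 * (-((1 - t) ^ 5 * (8 + 4 * t)) / (1 + t) ^ 3)) t :=
    fun t ht ht1 => (hN t ht ht1).mul (L3_wderiv t ht)
  have hanti : AntitoneOn (fun t : ℝ => ‖deriv f (t * u)‖ ^ 2 * ((1 - t) ^ 6 / (1 + t) ^ 2)) (Icc 0 r) := by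
    apply antitoneOn_of_deriv_nonpos (convex_Icc 0 r)
    · intro t ht
      exact (hh t ht.1 (lt_of_le_of_lt ht.2 hz)).continuousAt.continuousWithinAt
    · intro t ht
      rw [interior_Icc] at ht
      exact (hh t ht.1.le (lt_trans ht.2 hz)).differentiableAt.differentiableWithinAt
    · intro t ht
      rw [interior_Icc] at ht
      rw [(hh t ht.1.le (lt_trans ht.2 hz)).deriv]
      have ht0 : 0 < t := ht.1
      have ht1 : t < 1 := lt_trans ht.2 hz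
      have hn : ‖(t : ℂ) * u‖ = t := by
        rw [norm_mul, hu, mul_one, Complex.norm_real, Real.norm_of_nonneg ht0.le]
      have hne' := hne (t * u) (by rw [hn]; exact ht1)
      have hre := L3_re f hk u hu t ht0.le ht1
      set q := (deriv (deriv f) (t * u) / deriv f (t * u)) * u with hq
      have hin : inner ℝ (deriv f (t * u)) (deriv (deriv f) (t * u) * u) = ‖deriv f (t * u)‖ ^ 2 * q.re := by
        have e : deriv (deriv f) (t * u) * u = q * deriv f (t * u) := by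
          rw [hq]; field_simp
        rw [e, Complex.inner]
        have e2 : (starRingEnd ℂ) (deriv f (t * u)) * (q * deriv f (t * u)) = ((‖deriv f (t * u)‖ ^ 2 : ℝ) : ℂ) * q := by
          have : (starRingEnd ℂ) (deriv f (t * u)) * (q * deriv f (t * u)) = (deriv f (t * u) * (starRingEnd ℂ) (deriv f (t * u))) * q := by ring
          rw [this, Complex.mul_conj, Complex.normSq_eq_norm_sq]
        have e5 : (starRingEnd ℂ) (deriv f (t * u)) * (q * deriv f (t * u)) = (q * deriv f (t * u)) * (starRingEnd ℂ) (deriv f (t * u)) := mul_comm _ _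
        first
          | rw [e2, Complex.re_ofReal_mul]
          | rw [← e5, e2, Complex.re_ofReal_mul]
      rw [hin]
      have hsq : 0 ≤ ‖deriv f (t * u)‖ ^ 2 := by positivity
      have hkey : 2 * q.re * ((1 - t) ^ 6 / (1 + t) ^ 2) + (-((1 - t) ^ 5 * (8 + 4 * t)) / (1 + t) ^ 3) ≤ 0 := by
        have e3 : 2 * q.re * ((1 - t) ^ 6 / (1 + t) ^ 2) + (-((1 - t) ^ 5 * (8 + 4 * t)) / (1 + t) ^ 3)
            = 2 * (1 - t) ^ 5 / (1 + t) ^ 3 * ((1 - t ^ 2) * q.re - (4 + 2 * t)) := by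
          have : (1 + t) ≠ 0 := by positivity
          field_simp
          ring
        rw [e3]
        apply mul_nonpos_of_nonneg_of_nonpos
        · have : 0 ≤ 1 - t := by linarith
          positivity
        · linarith
      nlinarith [mul_nonneg hsq (neg_nonneg.mpr hkey)]
  have h5 := hanti (left_mem_Icc.mpr hr.le) (right_mem_Icc.mpr hr.le) hr.le
  simp only [ofReal_zero, zero_mul, h1, norm_one, one_pow, sub_zero, add_zero, div_one, mul_one] at h5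
  rw [← hzu] at h5
  have hp1 : 0 < 1 - r := by linarith
  have hp2 : 0 < 1 + r := by linarith
  have h6 : ‖deriv f z‖ ^ 2 ≤ ((1 + r) / (1 - r) ^ 3) ^ 2 := by
    rw [div_pow, le_div_iff₀ (by positivity)]
    rw [mul_div_assoc', div_le_iff₀ (by positivity)] at h5
    calc ‖deriv f z‖ ^ 2 * ((1 - r) ^ 3) ^ 2 = ‖deriv f z‖ ^ 2 * (1 - r) ^ 6 := by ring
      _ ≤ _ := by linarith
  exact (pow_le_pow_iff_left₀ (norm_nonneg _) (by positivity) two_ne_zero).mp h6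

/-- TARGET T4. -/
theorem growthS (f : ℂ → ℂ) (hd : DifferentiableOn ℂ f (ball (0 : ℂ) 1)) (h0 : f 0 = 0)
    (hdist : ∀ z : ℂ, ‖z‖ < 1 → ‖deriv f z‖ ≤ (1 + ‖z‖) / (1 - ‖z‖) ^ 3)
    (z : ℂ) (hz : ‖z‖ < 1) : ‖f z‖ ≤ ‖z‖ / (1 - ‖z‖) ^ 2 := by
  set r : ℝ := ‖z‖ with hr
  have hr0 : 0 ≤ r := norm_nonneg z
  have hpos : ∀ t : ℝ, t ≤ 1 → 0 < 1 - t * r := by
    intro t ht
    have : t * r ≤ 1 * r := mul_le_mul_of_nonneg_right ht hr0
    linarith
  have hderf : ∀ t : ℝ, 0 ≤ t → t ≤ 1 →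
      HasDerivAt (fun t : ℝ => f ((t : ℂ) * z)) (deriv f ((t : ℂ) * z) * z) t := by
    intro t ht0 ht1
    have hn : ‖(t : ℂ) * z‖ = t * r := by
      rw [norm_mul, Complex.norm_real, Real.norm_of_nonneg ht0]
    have hlt : ‖(t : ℂ) * z‖ < 1 := by
      rw [hn]
      have := hpos t ht1
      linarith
    have hda : DifferentiableAt ℂ f ((t : ℂ) * z) :=
      hd.differentiableAt (isOpen_ball.mem_nhds (by simpa using hlt))
    have h1 : HasDerivAt (fun s : ℂ => s * z) z (t : ℂ) := by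
      simpa using (hasDerivAt_id (t : ℂ)).mul_const z
    have h2 : HasDerivAt (fun s : ℂ => f (s * z)) (deriv f ((t : ℂ) * z) * z) (t : ℂ) :=
      hda.hasDerivAt.comp (t : ℂ) h1
    exact h2.comp_ofReal
  have hderB : ∀ t : ℝ, t ≤ 1 → HasDerivAt (fun t : ℝ => t * r / (1 - t * r) ^ 2)
      (r * ((1 + t * r) / (1 - t * r) ^ 3)) t := by
    intro t ht
    have hp := hpos t ht
    have h1 : HasDerivAt (fun s : ℝ => s * r) r t := by
      simpa using (hasDerivAt_id t).mul_const r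
    have h2 : HasDerivAt (fun s : ℝ => (1 - s * r) ^ 2) (((2 : ℕ) : ℝ) * (1 - t * r) ^ (2 - 1) * (-r)) t := by
      have h3 : HasDerivAt (fun s : ℝ => 1 - s * r) (-r) t := by
        simpa using h1.const_sub 1
      exact h3.pow 2
    have h4 : HasDerivAt (fun t : ℝ => t * r / (1 - t * r) ^ 2) ((r * (1 - t * r) ^ 2 -
        t * r * (((2 : ℕ) : ℝ) * (1 - t * r) ^ (2 - 1) * (-r))) / ((1 - t * r) ^ 2) ^ 2) t :=
      h1.div h2 (by positivity)
    refine h4.congr_deriv ?_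
    have hne : 1 - t * r ≠ 0 := hp.ne'
    generalize hq : 1 - t * r = q at hne
    have ht' : t * r = 1 - q := by rw [← hq]; ring
    rw [ht']
    norm_num
    field_simp
    ring
  have key := image_norm_le_of_norm_deriv_right_le_deriv_boundary' (a := (0:ℝ)) (b := 1)
    (f := fun t : ℝ => f ((t : ℂ) * z)) (f' := fun t : ℝ => deriv f ((t : ℂ) * z) * z)
    (fun t ht => (hderf t ht.1 ht.2).continuousAt.continuousWithinAt)
    (fun t ht => (hderf t ht.1 ht.2.le).hasDerivWithinAt)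
    (B := fun t : ℝ => t * r / (1 - t * r) ^ 2) (B' := fun t : ℝ => r * ((1 + t * r) / (1 - t * r) ^ 3))
    (by simp [h0])
    (fun t ht => (hderB t ht.2).continuousAt.continuousWithinAt)
    (fun t ht => (hderB t ht.2.le).hasDerivWithinAt)
    (by
      intro t ht
      have hn : ‖(t : ℂ) * z‖ = t * r := by
        rw [norm_mul, Complex.norm_real, Real.norm_of_nonneg ht.1]
      have h1 : ‖(t : ℂ) * z‖ < 1 := by
        rw [hn]
        have := hpos t ht.2.le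
        linarith
      have h2 := hdist _ h1
      rw [hn] at h2
      rw [norm_mul, mul_comm]
      exact mul_le_mul_of_nonneg_left h2 hr0)
  have := key (x := 1) ⟨zero_le_one, le_refl 1⟩
  simpa using this

theorem T5_root (L : ℕ) (hL : 0 < L) (ω : ℂ) (hω : IsPrimitiveRoot ω L) (u l : ℕ)
    (hu : u < L) (hl : l < L) :
    ∑ s ∈ Finset.range L, (ω ^ s) ^ u * ((starRingEnd ℂ) (ω ^ s)) ^ l = if u = l then (L : ℂ) else 0 := by
  have hn : ‖ω‖ = 1 := hω.norm'_eq_one hL.ne'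
  have hω0 : ω ≠ 0 := hω.ne_zero hL.ne'
  have hc : (starRingEnd ℂ) ω = ω⁻¹ := by
    rw [Complex.inv_def, Complex.normSq_eq_norm_sq, hn]
    simp
  have h1 : ∀ s ∈ Finset.range L, (ω ^ s) ^ u * ((starRingEnd ℂ) (ω ^ s)) ^ l =
      (ω ^ u * (ω⁻¹) ^ l) ^ s := by
    intro s _
    rw [map_pow, hc]
    ring
  rw [Finset.sum_congr rfl h1]
  by_cases h : u = l
  · subst h
    have : ω ^ u * (ω⁻¹) ^ u = 1 := by
      rw [← mul_pow, mul_inv_cancel₀ hω0, one_pow]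
    rw [this]
    simp
  · rw [if_neg h]
    have hρ : ω ^ u * (ω⁻¹) ^ l ≠ 1 := by
      intro h2
      apply h
      apply hω.pow_inj hu hl
      have h3 : ω ^ u * (ω⁻¹) ^ l * ω ^ l = ω ^ l := by rw [h2, one_mul]
      rw [mul_assoc, ← mul_pow, inv_mul_cancel₀ hω0, one_pow, mul_one] at h3
      exact h3
    have hρL : (ω ^ u * (ω⁻¹) ^ l) ^ L = 1 := by
      rw [mul_pow, ← pow_mul, ← pow_mul, mul_comm u L, mul_comm l L, pow_mul, pow_mul, hω.pow_eq_one,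
        inv_pow, hω.pow_eq_one]
      simp
    have h4 := geom_sum_mul (ω ^ u * (ω⁻¹) ^ l) L
    rw [hρL, sub_self] at h4
    rcases mul_eq_zero.1 h4 with h5 | h5
    · exact h5
    · exact absurd (sub_eq_zero.1 h5) hρ

theorem T5_F (n : ℕ) (w : ℂ) : ((‖∑ j ∈ Finset.range (n + 1), w ^ j‖ ^ 2 : ℝ) : ℂ) =
    ∑ j ∈ Finset.range (n + 1), ∑ l ∈ Finset.range (n + 1), w ^ j * ((starRingEnd ℂ) w) ^ l := by
  rw [Complex.ofReal_pow, ← Complex.mul_conj', map_sum, Finset.sum_mul_sum]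
  simp only [map_pow]

theorem T5_sum (n k L : ℕ) (ω : ℂ) (hω : IsPrimitiveRoot ω L) (hL : k + n < L) :
    ∑ s ∈ Finset.range L, (ω ^ s) ^ k * ((‖∑ j ∈ Finset.range (n + 1), (ω ^ s) ^ j‖ ^ 2 : ℝ) : ℂ) =
      (L : ℂ) * ((n + 1 - k : ℕ) : ℂ) := by
  have h1 : ∀ s ∈ Finset.range L,
      (ω ^ s) ^ k * ((‖∑ j ∈ Finset.range (n + 1), (ω ^ s) ^ j‖ ^ 2 : ℝ) : ℂ) =
      ∑ j ∈ Finset.range (n + 1), ∑ l ∈ Finset.range (n + 1),
        (ω ^ s) ^ (k + j) * ((starRingEnd ℂ) (ω ^ s)) ^ l := by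
    intro s _
    rw [T5_F, Finset.mul_sum]
    refine Finset.sum_congr rfl (fun j _ => ?_)
    rw [Finset.mul_sum]
    refine Finset.sum_congr rfl (fun l _ => ?_)
    rw [pow_add]; ring
  rw [Finset.sum_congr rfl h1, Finset.sum_comm]
  have h2 : ∀ j ∈ Finset.range (n + 1), ∑ s ∈ Finset.range L, ∑ l ∈ Finset.range (n + 1),
      (ω ^ s) ^ (k + j) * ((starRingEnd ℂ) (ω ^ s)) ^ l = if k + j < n + 1 then (L : ℂ) else 0 := by
    intro j hj
    rw [Finset.mem_range] at hj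
    rw [Finset.sum_comm]
    have h3 : ∀ l ∈ Finset.range (n + 1), ∑ s ∈ Finset.range L,
        (ω ^ s) ^ (k + j) * ((starRingEnd ℂ) (ω ^ s)) ^ l = if k + j = l then (L : ℂ) else 0 := by
      intro l hl
      rw [Finset.mem_range] at hl
      exact T5_root L (by omega) ω hω (k + j) l (by omega) (by omega)
    rw [Finset.sum_congr rfl h3, Finset.sum_ite_eq]
    simp only [Finset.mem_range]
  rw [Finset.sum_congr rfl h2, ← Finset.sum_filter, Finset.sum_const, nsmul_eq_mul, mul_comm]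
  congr 2
  have : (Finset.range (n + 1)).filter (fun j => k + j < n + 1) = Finset.range (n + 1 - k) := by
    ext j
    simp only [Finset.mem_filter, Finset.mem_range]
    omega
  rw [this, Finset.card_range]

theorem T5_main (f : ℂ → ℂ) (a : ℕ → ℂ) (M : ℝ) (hPS : PS a f)
    (hb : ∀ z : ℂ, ‖z‖ < 1 → ‖f z‖ ≤ M) (n : ℕ) (z : ℂ) (hz : ‖z‖ < 1) :
    ‖∑ k ∈ Finset.range (n + 1), ((1 - (k : ℝ) / (n + 1) : ℝ) : ℂ) * (a k * z ^ k)‖ ≤ M := by
  apply le_of_forall_pos_le_add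
  intro ε hε
  have hsum : Summable (fun k => ‖a k * z ^ k‖) := (hPS z hz).summable.norm
  obtain ⟨K, hK1, hK2⟩ : ∃ K, n + 1 ≤ K ∧ ∑' k, ‖a (k + K) * z ^ (k + K)‖ < ε := by
    have h := tendsto_sum_nat_add (fun k => ‖a k * z ^ k‖)
    have h2 := (h.eventually (gt_mem_nhds hε)).and (Filter.eventually_ge_atTop (n + 1))
    obtain ⟨K, hK⟩ := h2.exists
    exact ⟨K, hK.2, hK.1⟩
  have htail : ∀ w : ℂ, ‖w‖ = 1 → ‖∑ k ∈ Finset.range K, a k * (z * w) ^ k‖ ≤ M + ε := by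
    intro w hw
    have hzw : ‖z * w‖ < 1 := by rw [norm_mul, hw, mul_one]; exact hz
    have h1 := hPS (z * w) hzw
    have h2 := h1.summable.sum_add_tsum_nat_add K
    rw [h1.tsum_eq] at h2
    have hn : ∀ k, ‖a k * (z * w) ^ k‖ = ‖a k * z ^ k‖ := by
      intro k
      rw [mul_pow, norm_mul, norm_mul, norm_mul, norm_pow w, hw, one_pow, mul_one]
    have h3 : ‖∑' k, a (k + K) * (z * w) ^ (k + K)‖ ≤ ε := by
      refine (norm_tsum_le_tsum_norm ?_).trans ?_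
      · have : (fun k => ‖a (k + K) * (z * w) ^ (k + K)‖) = fun k => ‖a (k + K) * z ^ (k + K)‖ :=
          funext (fun k => hn (k + K))
        rw [this]
        exact (summable_nat_add_iff K).2 hsum
      · have : (fun k => ‖a (k + K) * (z * w) ^ (k + K)‖) = fun k => ‖a (k + K) * z ^ (k + K)‖ :=
          funext (fun k => hn (k + K))
        rw [this]
        exact hK2.le
    have h4 : ∑ k ∈ Finset.range K, a k * (z * w) ^ k =
        f (z * w) - ∑' k, a (k + K) * (z * w) ^ (k + K) := by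
      rw [← h2]; ring
    rw [h4]
    exact (norm_sub_le _ _).trans (add_le_add (hb _ hzw) h3)
  set L : ℕ := K + n + 1 with hL
  have hL0 : 0 < L := by omega
  have hω : IsPrimitiveRoot (Complex.exp (2 * Real.pi * Complex.I / L)) L :=
    Complex.isPrimitiveRoot_exp L hL0.ne'
  set ω := Complex.exp (2 * Real.pi * Complex.I / L)
  have hωn : ‖ω‖ = 1 := hω.norm'_eq_one hL0.ne'
  have key : ∑ s ∈ Finset.range L, (∑ k ∈ Finset.range K, a k * (z * ω ^ s) ^ k) *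
      ((‖∑ j ∈ Finset.range (n + 1), (ω ^ s) ^ j‖ ^ 2 : ℝ) : ℂ) =
      (L : ℂ) * ((n + 1 : ℝ) : ℂ) *
        ∑ k ∈ Finset.range (n + 1), ((1 - (k : ℝ) / (n + 1) : ℝ) : ℂ) * (a k * z ^ k) := by
    have h1 : ∀ s ∈ Finset.range L, (∑ k ∈ Finset.range K, a k * (z * ω ^ s) ^ k) *
      ((‖∑ j ∈ Finset.range (n + 1), (ω ^ s) ^ j‖ ^ 2 : ℝ) : ℂ) =
      ∑ k ∈ Finset.range K, a k * z ^ k * ((ω ^ s) ^ k *
        ((‖∑ j ∈ Finset.range (n + 1), (ω ^ s) ^ j‖ ^ 2 : ℝ) : ℂ)) := by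
      intro s _
      rw [Finset.sum_mul]
      refine Finset.sum_congr rfl (fun k _ => ?_)
      rw [mul_pow]; ring
    rw [Finset.sum_congr rfl h1, Finset.sum_comm]
    have h2 : ∀ k ∈ Finset.range K, ∑ s ∈ Finset.range L, a k * z ^ k * ((ω ^ s) ^ k *
        ((‖∑ j ∈ Finset.range (n + 1), (ω ^ s) ^ j‖ ^ 2 : ℝ) : ℂ)) =
        a k * z ^ k * ((L : ℂ) * ((n + 1 - k : ℕ) : ℂ)) := by
      intro k hk
      rw [Finset.mem_range] at hk
      rw [← Finset.mul_sum, T5_sum n k L ω hω (by omega)]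
    rw [Finset.sum_congr rfl h2]
    have h3 : ∑ k ∈ Finset.range K, a k * z ^ k * ((L : ℂ) * ((n + 1 - k : ℕ) : ℂ)) =
        ∑ k ∈ Finset.range (n + 1), a k * z ^ k * ((L : ℂ) * ((n + 1 - k : ℕ) : ℂ)) := by
      symm
      apply Finset.sum_subset
      · intro k hk
        rw [Finset.mem_range] at hk ⊢
        omega
      · intro k _ hk
        rw [Finset.mem_range] at hk
        have : n + 1 - k = 0 := by omega
        rw [this]
        simp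
    rw [h3, Finset.mul_sum]
    refine Finset.sum_congr rfl (fun k hk => ?_)
    rw [Finset.mem_range] at hk
    have hk' : k ≤ n + 1 := by omega
    rw [Nat.cast_sub hk']
    have hn1 : ((n : ℂ) + 1) ≠ 0 := by exact_mod_cast Nat.succ_ne_zero n
    push_cast
    field_simp
  have hFsum : ∑ s ∈ Finset.range L, ‖∑ j ∈ Finset.range (n + 1), (ω ^ s) ^ j‖ ^ 2 =
      (L : ℝ) * (n + 1) := by
    have h1 := T5_sum n 0 L ω hω (by omega)
    simp only [pow_zero, one_mul, Nat.sub_zero] at h1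
    rw [← Complex.ofReal_sum] at h1
    have h2 : ((∑ s ∈ Finset.range L, ‖∑ j ∈ Finset.range (n + 1), (ω ^ s) ^ j‖ ^ 2 : ℝ) : ℂ) =
      (((L : ℝ) * (n + 1) : ℝ) : ℂ) := by
      rw [h1]; push_cast; ring
    exact Complex.ofReal_injective h2
  have hle : ‖∑ s ∈ Finset.range L, (∑ k ∈ Finset.range K, a k * (z * ω ^ s) ^ k) *
      ((‖∑ j ∈ Finset.range (n + 1), (ω ^ s) ^ j‖ ^ 2 : ℝ) : ℂ)‖ ≤ (M + ε) * ((L : ℝ) * (n + 1)) := by
    rw [← hFsum, Finset.mul_sum]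
    refine (norm_sum_le _ _).trans (Finset.sum_le_sum (fun s _ => ?_))
    rw [norm_mul, Complex.norm_real, Real.norm_of_nonneg (by positivity)]
    exact mul_le_mul_of_nonneg_right (htail (ω ^ s) (by rw [norm_pow, hωn, one_pow])) (by positivity)
  rw [key, norm_mul, norm_mul, Complex.norm_natCast, Complex.norm_real,
    Real.norm_of_nonneg (by positivity)] at hle
  have hpos : (0 : ℝ) < (L : ℝ) * (n + 1) := by positivity
  rw [mul_comm (M + ε)] at hle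
  exact le_of_mul_le_mul_left hle hpos

/-- TARGET T5. -/
theorem fejer_le (f : ℂ → ℂ) (a : ℕ → ℂ) (M : ℝ) (hPS : PS a f)
    (hb : ∀ z : ℂ, ‖z‖ < 1 → ‖f z‖ ≤ M) (n : ℕ) (z : ℂ) (hz : ‖z‖ ≤ 1) :
    ‖∑ k ∈ Finset.range (n + 1), ((1 - (k : ℝ) / (n + 1) : ℝ) : ℂ) * (a k * z ^ k)‖ ≤ M := by
  have hcont : Continuous (fun r : ℝ =>
      ‖∑ k ∈ Finset.range (n + 1), ((1 - (k : ℝ) / (n + 1) : ℝ) : ℂ) * (a k * ((r : ℂ) * z) ^ k)‖) := by
    fun_prop
  have ht := (hcont.tendsto 1).mono_left (nhdsWithin_le_nhds (s := Set.Iio 1))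
  have h1 : ‖∑ k ∈ Finset.range (n + 1), ((1 - (k : ℝ) / (n + 1) : ℝ) : ℂ) *
      (a k * (((1 : ℝ) : ℂ) * z) ^ k)‖ ≤ M := by
    refine le_of_tendsto ht ?_
    have h01 : Set.Ioo (0 : ℝ) 1 ∈ nhdsWithin (1 : ℝ) (Set.Iio 1) := Ioo_mem_nhdsLT one_pos
    filter_upwards [h01] with r hr
    apply T5_main f a M hPS hb n
    rw [norm_mul, Complex.norm_real, Real.norm_of_nonneg hr.1.le]
    calc r * ‖z‖ ≤ r * 1 := mul_le_mul_of_nonneg_left hz hr.1.le
      _ < 1 := by linarith [hr.2]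
  simpa using h1

theorem T6_area (f : ℂ → ℂ) (a : ℕ → ℂ) (M : ℝ) (hf : InSM M f) (hPS : PS a f) (n : ℕ) :
    ∑ i ∈ Finset.range (n + 1), (i : ℝ) * ‖a i‖ ^ 2 ≤ M ^ 2 := by
  obtain ⟨_, hinj, _, _, hb⟩ := hf
  have hcont : Continuous (fun ρ : ℝ => ∑ i ∈ Finset.range (n + 1), (i : ℝ) * ‖a i‖ ^ 2 * ρ ^ (2 * i)) := by
    fun_prop
  have ht : Tendsto (fun ρ : ℝ => ∑ i ∈ Finset.range (n + 1), (i : ℝ) * ‖a i‖ ^ 2 * ρ ^ (2 * i))
      (𝓝[<] 1) (𝓝 (∑ i ∈ Finset.range (n + 1), (i : ℝ) * ‖a i‖ ^ 2 * (1:ℝ) ^ (2 * i))) :=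
    (hcont.tendsto 1).mono_left nhdsWithin_le_nhds
  simp only [one_pow, mul_one] at ht
  refine le_of_tendsto ht ?_
  have h1 : ∀ᶠ ρ : ℝ in 𝓝[<] 1, 0 < ρ :=
    nhdsWithin_le_nhds (Ioi_mem_nhds (by norm_num : (0:ℝ) < 1))
  filter_upwards [h1, self_mem_nhdsWithin] with ρ hρ0 hρ1
  exact area_ps_le f a hPS hinj ρ M hρ0 hρ1 (fun z hz => hb z (lt_of_le_of_lt hz hρ1)) (n + 1)

/-- TARGET T6. -/
theorem partial_le_M (f : ℂ → ℂ) (a : ℕ → ℂ) (M : ℝ) (hf : InSM M f) (hPS : PS a f) (n : ℕ)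
    (z : ℂ) (hz : ‖z‖ ≤ 1) :
    ‖∑ k ∈ Finset.range (n + 1), a k * z ^ k‖ ≤ (1 + Real.sqrt 2 / 2) * M := by
  have hM0 : 0 ≤ M := by
    have := hf.2.2.2.2 0 (by simp)
    exact (norm_nonneg _).trans this
  have harea := T6_area f a M hf hPS n
  have hfej := fejer_le f a M hPS hf.2.2.2.2 n z hz
  have hn : (0:ℝ) < (n:ℝ) + 1 := by positivity
  have hsplit : ∑ k ∈ Finset.range (n + 1), a k * z ^ k =
      ∑ k ∈ Finset.range (n + 1), ((1 - (k : ℝ) / (n + 1) : ℝ) : ℂ) * (a k * z ^ k) +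
      ∑ k ∈ Finset.range (n + 1), (((k : ℝ) / (n + 1) : ℝ) : ℂ) * (a k * z ^ k) := by
    rw [← Finset.sum_add_distrib]
    refine Finset.sum_congr rfl fun k _ => ?_
    rw [← add_mul, ← Complex.ofReal_add]
    simp
  have hsec : ‖∑ k ∈ Finset.range (n + 1), (((k : ℝ) / (n + 1) : ℝ) : ℂ) * (a k * z ^ k)‖ ≤
      (∑ k ∈ Finset.range (n + 1), (k:ℝ) * ‖a k‖) / (n + 1) := by
    rw [Finset.sum_div]
    refine (norm_sum_le _ _).trans (Finset.sum_le_sum fun k _ => ?_)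
    rw [norm_mul, norm_mul, norm_pow, Complex.norm_real, Real.norm_of_nonneg (by positivity)]
    have h1 : ‖z‖ ^ k ≤ 1 := pow_le_one₀ (norm_nonneg _) hz
    have h2 : ‖a k‖ * ‖z‖ ^ k ≤ ‖a k‖ := mul_le_of_le_one_right (norm_nonneg _) h1
    calc (k:ℝ) / (n + 1) * (‖a k‖ * ‖z‖ ^ k) ≤ (k:ℝ) / (n + 1) * ‖a k‖ :=
          mul_le_mul_of_nonneg_left h2 (by positivity)
      _ = (k:ℝ) * ‖a k‖ / (n + 1) := by ring
  have hcs : (∑ k ∈ Finset.range (n + 1), (k:ℝ) * ‖a k‖) ^ 2 ≤ ((n:ℝ) * (n + 1) / 2) * M ^ 2 := by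
    have h1 := Finset.sum_mul_sq_le_sq_mul_sq (Finset.range (n + 1)) (fun k => √(k:ℝ))
      (fun k => √(k:ℝ) * ‖a k‖)
    have e1 : ∑ k ∈ Finset.range (n + 1), √(k:ℝ) * (√(k:ℝ) * ‖a k‖) =
        ∑ k ∈ Finset.range (n + 1), (k:ℝ) * ‖a k‖ := by
      refine Finset.sum_congr rfl fun k _ => ?_
      rw [← mul_assoc, Real.mul_self_sqrt (Nat.cast_nonneg _)]
    have e2 : ∑ k ∈ Finset.range (n + 1), √(k:ℝ) ^ 2 = (n:ℝ) * (n + 1) / 2 := by
      have h3 : ∑ k ∈ Finset.range (n + 1), √(k:ℝ) ^ 2 = ∑ k ∈ Finset.range (n + 1), (k:ℝ) :=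
        Finset.sum_congr rfl fun k _ => Real.sq_sqrt (Nat.cast_nonneg _)
      rw [h3]
      have h4 := Finset.sum_range_id_mul_two (n + 1)
      have h5 : ((∑ k ∈ Finset.range (n + 1), k : ℕ) : ℝ) * 2 = ((n:ℝ) + 1) * n := by
        rw [Nat.add_sub_cancel] at h4
        exact_mod_cast h4
      push_cast at h5
      linarith
    have e3 : ∑ k ∈ Finset.range (n + 1), (√(k:ℝ) * ‖a k‖) ^ 2 =
        ∑ k ∈ Finset.range (n + 1), (k:ℝ) * ‖a k‖ ^ 2 := by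
      refine Finset.sum_congr rfl fun k _ => ?_
      rw [mul_pow, Real.sq_sqrt (Nat.cast_nonneg _)]
    rw [e1, e2, e3] at h1
    exact h1.trans (mul_le_mul_of_nonneg_left harea (by positivity))
  have hX : (∑ k ∈ Finset.range (n + 1), (k:ℝ) * ‖a k‖) / (n + 1) ≤ Real.sqrt 2 / 2 * M := by
    refine le_of_abs_le (abs_le_of_sq_le_sq ?_ (by positivity))
    have h2 : (Real.sqrt 2 / 2 * M) ^ 2 = M ^ 2 / 2 := by
      rw [mul_pow, div_pow, Real.sq_sqrt (by norm_num)]; ring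
    rw [h2, div_pow, div_le_iff₀ (by positivity)]
    refine hcs.trans ?_
    nlinarith [sq_nonneg M, mul_nonneg (by positivity : (0:ℝ) ≤ (n:ℝ) + 1) (sq_nonneg M)]
  rw [hsplit]
  refine (norm_add_le _ _).trans ?_
  have : (1 + Real.sqrt 2 / 2) * M = M + Real.sqrt 2 / 2 * M := by ring
  rw [this]
  exact add_le_add hfej (hsec.trans hX)

/-- TARGET T7. -/
theorem sum_sq_le3 (a : ℕ → ℝ) (h0 : a 0 = 0) (K : ℕ)
    (h : ∀ ρ : ℝ, 0 < ρ → ρ < 1 →
      ∑ i ∈ Finset.range K, (i : ℝ) * a i * ρ ^ (2 * i) ≤ (ρ / (1 - ρ) ^ 2) ^ 2)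
    (r : ℝ) (hr : 0 < r) (hr1 : r < 1) :
    ∑ i ∈ Finset.range K, a i * r ^ (2 * i) ≤ 2 / 3 / (1 - r) ^ 3 := by
  have hphi : ∀ x : ℝ, x < 1 → HasDerivAt (fun x : ℝ => 2 / 3 * ((1 - x) ^ 3)⁻¹ -
      ∑ i ∈ Finset.range K, a i * x ^ (2 * i))
      (2 / 3 * (-((3 : ℕ) * (1 - x) ^ (3 - 1) * (-1)) / ((1 - x) ^ 3) ^ 2) -
        ∑ i ∈ Finset.range K, a i * (((2 * i : ℕ) : ℝ) * x ^ (2 * i - 1))) x := by
    intro x hx
    have h1 : HasDerivAt (fun x : ℝ => 1 - x) (-1) x := by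
      simpa using (hasDerivAt_id x).const_sub 1
    have h2 : HasDerivAt (fun x : ℝ => (1 - x) ^ 3) ((3 : ℕ) * (1 - x) ^ (3 - 1) * (-1)) x :=
      h1.pow 3
    have hne : (1 - x) ^ 3 ≠ 0 := pow_ne_zero _ (by linarith)
    have h3 : HasDerivAt (fun x : ℝ => 2 / 3 * ((1 - x) ^ 3)⁻¹)
        (2 / 3 * (-((3 : ℕ) * (1 - x) ^ (3 - 1) * (-1)) / ((1 - x) ^ 3) ^ 2)) x :=
      (h2.fun_inv hne).const_mul (2 / 3)
    have h4 : HasDerivAt (fun x : ℝ => ∑ i ∈ Finset.range K, a i * x ^ (2 * i))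
        (∑ i ∈ Finset.range K, a i * (((2 * i : ℕ) : ℝ) * x ^ (2 * i - 1))) x :=
      HasDerivAt.fun_sum fun i _ => (hasDerivAt_pow (2 * i) x).const_mul (a i)
    exact h3.sub h4
  have hcont : ContinuousOn (fun x : ℝ => 2 / 3 * ((1 - x) ^ 3)⁻¹ -
      ∑ i ∈ Finset.range K, a i * x ^ (2 * i)) (Icc 0 r) := fun x hx =>
    (hphi x (by linarith [hx.2])).continuousAt.continuousWithinAt
  have hdiff : DifferentiableOn ℝ (fun x : ℝ => 2 / 3 * ((1 - x) ^ 3)⁻¹ -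
      ∑ i ∈ Finset.range K, a i * x ^ (2 * i)) (interior (Icc 0 r)) := fun x hx =>
    (hphi x (by linarith [(interior_subset hx).2])).differentiableAt.differentiableWithinAt
  have hmono := monotoneOn_of_deriv_nonneg (convex_Icc (0 : ℝ) r) hcont hdiff (by
    intro x hx
    rw [interior_Icc] at hx
    have hx0 : 0 < x := hx.1
    have hx1 : x < 1 := by linarith [hx.2]
    rw [(hphi x hx1).deriv]
    have hpos : 0 < 1 - x := by linarith
    have hterm : x * ∑ i ∈ Finset.range K, a i * (((2 * i : ℕ) : ℝ) * x ^ (2 * i - 1)) =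
        2 * ∑ i ∈ Finset.range K, (i : ℝ) * a i * x ^ (2 * i) := by
      rw [Finset.mul_sum, Finset.mul_sum]
      refine Finset.sum_congr rfl fun i _ => ?_
      rcases Nat.eq_zero_or_pos i with hi | hi
      · subst hi
        simp
      · have h5 : x ^ (2 * i) = x * x ^ (2 * i - 1) := by
          rw [← pow_succ']
          congr 1
          omega
        rw [h5]
        push_cast
        ring
    have hle := h x hx0 hx1
    have hmul : 0 ≤ x * (2 / 3 * (-((3 : ℕ) * (1 - x) ^ (3 - 1) * (-1)) / ((1 - x) ^ 3) ^ 2) -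
        ∑ i ∈ Finset.range K, a i * (((2 * i : ℕ) : ℝ) * x ^ (2 * i - 1))) := by
      rw [mul_sub, hterm]
      have h6 : x * (2 / 3 * (-((3 : ℕ) * (1 - x) ^ (3 - 1) * (-1)) / ((1 - x) ^ 3) ^ 2)) -
          2 * (x / (1 - x) ^ 2) ^ 2 = 2 * x / (1 - x) ^ 3 := by
        push_cast
        field_simp
      have h7 : 0 ≤ 2 * x / (1 - x) ^ 3 := by positivity
      linarith
    exact (mul_nonneg_iff_of_pos_left hx0).1 hmul)
  have hfin := hmono (left_mem_Icc.2 hr.le) (right_mem_Icc.2 hr.le) hr.le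
  simp only at hfin
  have hz : ∑ i ∈ Finset.range K, a i * (0 : ℝ) ^ (2 * i) = 0 := by
    refine Finset.sum_eq_zero fun i _ => ?_
    rcases Nat.eq_zero_or_pos i with hi | hi
    · subst hi
      rw [h0, zero_mul]
    · rw [zero_pow (by omega), mul_zero]
  rw [hz] at hfin
  have h8 : (2 : ℝ) / 3 / (1 - r) ^ 3 = 2 / 3 * ((1 - r) ^ 3)⁻¹ := by rw [div_eq_mul_inv]
  rw [h8]
  have h9 : (0 : ℝ) ≤ 2 / 3 * ((1 - 0) ^ 3)⁻¹ := by norm_num
  linarith

theorem T8_rpow (n : ℕ) (hn : 2 ≤ n) : (5 / 37 : ℝ) ≤ ((n : ℝ) / (n + 1)) ^ (2 * n) := by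
  have hn0 : (0:ℝ) < n := by exact_mod_cast (by omega : 0 < n)
  have h1 : 1 + 1 / (n:ℝ) ≤ Real.exp (1 / n) := by
    have := Real.add_one_le_exp (1 / (n:ℝ)); linarith
  have h2 : (1 + 1 / (n:ℝ)) ^ (2 * n) ≤ Real.exp 1 ^ 2 := by
    calc (1 + 1 / (n:ℝ)) ^ (2 * n) ≤ (Real.exp (1 / n)) ^ (2 * n) :=
          pow_le_pow_left₀ (by positivity) h1 _
      _ = Real.exp 1 ^ 2 := by
          rw [← Real.exp_nat_mul, ← Real.exp_nat_mul]
          congr 1
          push_cast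
          field_simp
  have h3 : Real.exp 1 ^ 2 ≤ 37 / 5 := by
    have := Real.exp_one_lt_d9
    have h0 := Real.exp_pos 1
    nlinarith
  have h4 : (n : ℝ) / (n + 1) = (1 + 1 / (n:ℝ))⁻¹ := by field_simp
  rw [h4, inv_pow, show (5 / 37 : ℝ) = (37 / 5)⁻¹ by norm_num]
  exact inv_anti₀ (by positivity) (h2.trans h3)

/-- TARGET T8. -/
theorem sum_norm_le (c : ℕ → ℂ) (n : ℕ) (hn : 2 ≤ n)
    (h : ∀ r : ℝ, 0 < r → r < 1 →
      ∑ i ∈ Finset.range (n + 1), ‖c i‖ ^ 2 * r ^ (2 * i) ≤ 2 / 3 / (1 - r) ^ 3) (hc0 : c 0 = 0) :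
    ∑ i ∈ Finset.range (n + 1), ‖c i‖ ≤ 5 * (n : ℝ) ^ 2 := by
  have hn0 : (0:ℝ) < n := by exact_mod_cast (by omega : 0 < n)
  have hn2 : (2:ℝ) ≤ n := by exact_mod_cast hn
  obtain ⟨r, hr⟩ : ∃ r : ℝ, r = (n : ℝ) / (n + 1) := ⟨_, rfl⟩
  have hr0 : 0 < r := by rw [hr]; positivity
  have hr1 : r < 1 := by rw [hr, div_lt_one (by positivity)]; linarith
  have h1 := h r hr0 hr1
  have h1r : 1 - r = 1 / ((n:ℝ) + 1) := by rw [hr]; field_simp; ring
  have hR : 2 / 3 / (1 - r) ^ 3 = 2 / 3 * ((n:ℝ) + 1) ^ 3 := by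
    rw [h1r]; field_simp
  rw [hR] at h1
  have hlow : (5 / 37 : ℝ) * ∑ i ∈ Finset.range (n + 1), ‖c i‖ ^ 2 ≤
      ∑ i ∈ Finset.range (n + 1), ‖c i‖ ^ 2 * r ^ (2 * i) := by
    rw [Finset.mul_sum]
    refine Finset.sum_le_sum fun i hi => ?_
    have hi' : i ≤ n := by have := Finset.mem_range.mp hi; omega
    rw [mul_comm]
    apply mul_le_mul_of_nonneg_left _ (by positivity)
    calc (5 / 37 : ℝ) ≤ r ^ (2 * n) := by rw [hr]; exact T8_rpow n hn
      _ ≤ r ^ (2 * i) := pow_le_pow_of_le_one hr0.le hr1.le (by omega)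
  have hcube : ((n:ℝ) + 1) ^ 3 ≤ 27 / 8 * (n:ℝ) ^ 3 := by
    have h5 : (n:ℝ) + 1 ≤ 3 / 2 * n := by linarith
    calc ((n:ℝ) + 1) ^ 3 ≤ (3 / 2 * n) ^ 3 := pow_le_pow_left₀ (by positivity) h5 3
      _ = 27 / 8 * (n:ℝ) ^ 3 := by ring
  have hsq : ∑ i ∈ Finset.range (n + 1), ‖c i‖ ^ 2 ≤ 17 * (n:ℝ) ^ 3 := by
    have : 0 ≤ (n:ℝ) ^ 3 := by positivity
    linarith
  rw [Finset.sum_range_succ'] at hsq ⊢
  rw [hc0] at hsq ⊢
  simp only [norm_zero, add_zero] at hsq ⊢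
  norm_num at hsq
  have hcs := sq_sum_le_card_mul_sum_sq (s := Finset.range n) (f := fun i => ‖c (i + 1)‖)
  rw [Finset.card_range] at hcs
  have hfin : (∑ i ∈ Finset.range n, ‖c (i + 1)‖) ^ 2 ≤ (5 * (n:ℝ) ^ 2) ^ 2 := by
    calc (∑ i ∈ Finset.range n, ‖c (i + 1)‖) ^ 2
        ≤ n * ∑ i ∈ Finset.range n, ‖c (i + 1)‖ ^ 2 := hcs
      _ ≤ n * (17 * (n:ℝ) ^ 3) := mul_le_mul_of_nonneg_left hsq hn0.le
      _ ≤ (5 * (n:ℝ) ^ 2) ^ 2 := by
          have : 0 ≤ (n:ℝ) ^ 4 := by positivity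
          nlinarith
  exact le_of_abs_le (abs_le_of_sq_le_sq hfin (by positivity))

theorem T9_sum (N : ℕ) : ∑ k ∈ Finset.range (N + 1), (k : ℝ) = N * (N + 1) / 2 := by
  induction N with
  | zero => simp
  | succ n ih => rw [Finset.sum_range_succ, ih]; push_cast; ring

theorem T9_lower (x : ℝ) (hx : 1 < x) (n : ℕ) (hn : 2 ≤ n) :
    min (x^2) ((n:ℝ)^2) / 12 ≤
      ∑ k ∈ Finset.range (n + 1), (k : ℝ) * (1 - 1/x) ^ k * (1 - 1/x)⁻¹ := by
  have hx0 : 0 < x := by linarith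
  have hx1 : 0 < x - 1 := by linarith
  have hρ0 : 0 < 1 - 1/x := by
    have := (div_lt_one hx0).2 hx
    linarith
  have hρ1 : 1 - 1/x ≤ 1 := by
    have : 0 < 1/x := by positivity
    linarith
  have hinv : (1 - 1/x)⁻¹ = 1 + 1/(x-1) := by
    have h1 : 1 - 1/x = (x-1)/x := by field_simp
    rw [h1, inv_div]
    field_simp
    ring
  set ρ := 1 - 1/x with hρ
  set N := min n ⌊x⌋₊ with hN
  have hfl : 1 ≤ ⌊x⌋₊ := Nat.le_floor (by simpa using hx.le)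
  have hN1 : 1 ≤ N := le_min (by omega) hfl
  have hNn : N ≤ n := min_le_left _ _
  have hNx : (N : ℝ) ≤ x := (Nat.cast_le.2 (min_le_right _ _)).trans (Nat.floor_le hx0.le)
  have hpow : 1/3 ≤ ρ^(N-1) := by
    have h1 : (ρ⁻¹)^(N-1) ≤ 3 := by
      calc (ρ⁻¹)^(N-1) ≤ (Real.exp (1/(x-1)))^(N-1) := by
            apply pow_le_pow_left₀ (by positivity)
            rw [hinv]
            have := Real.add_one_le_exp (1/(x-1))
            linarith
        _ = Real.exp (((N-1 : ℕ):ℝ) * (1/(x-1))) := by rw [← Real.exp_nat_mul]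
        _ ≤ Real.exp 1 := by
            apply Real.exp_le_exp.2
            rw [mul_one_div, div_le_one hx1, Nat.cast_sub hN1]
            push_cast
            linarith
        _ ≤ 3 := by
            have := Real.exp_one_lt_d9
            linarith
    rw [inv_pow] at h1
    have h2 : 0 < ρ^(N-1) := by positivity
    have h3 : (ρ ^ (N-1))⁻¹ * ρ^(N-1) = 1 := inv_mul_cancel₀ h2.ne'
    nlinarith
  have hterm : ∀ k ∈ Finset.range (N+1), (k:ℝ) * (1/3) ≤ (k : ℝ) * ρ^k * ρ⁻¹ := by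
    intro k hk
    rcases k with _ | j
    · simp
    · have hj : j ≤ N - 1 := by
        have := Finset.mem_range.1 hk
        omega
      have h3 : ρ^(N-1) ≤ ρ^j := pow_le_pow_of_le_one hρ0.le hρ1 hj
      have h4 : ((j+1 : ℕ):ℝ) * ρ^(j+1) * ρ⁻¹ = ((j+1:ℕ):ℝ) * ρ^j := by
        rw [pow_succ]
        field_simp
      rw [h4]
      exact mul_le_mul_of_nonneg_left (hpow.trans h3) (by positivity)
  have hfirst : min (x^2) ((n:ℝ)^2) / 12 ≤ ((N:ℝ) * (N+1)/2) * (1/3) := by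
    have hN1r : (1 : ℝ) ≤ N := by exact_mod_cast hN1
    rcases le_total n ⌊x⌋₊ with h | h
    · have h5 : N = n := min_eq_left h
      rw [h5] at hN1r ⊢
      have := min_le_right (x^2) ((n:ℝ)^2)
      nlinarith
    · have h5 : N = ⌊x⌋₊ := min_eq_right h
      have h6 : x < (N : ℝ) + 1 := by rw [h5]; exact Nat.lt_floor_add_one x
      have := min_le_left (x^2) ((n:ℝ)^2)
      have h7 : x ^ 2 ≤ 2 * (N:ℝ) * (N + 1) := by nlinarith
      linarith
  calc min (x^2) ((n:ℝ)^2) / 12 ≤ ((N:ℝ) * (N+1)/2) * (1/3) := hfirst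
    _ = ∑ k ∈ Finset.range (N+1), (k:ℝ) * (1/3) := by rw [← Finset.sum_mul, T9_sum]
    _ ≤ ∑ k ∈ Finset.range (N+1), (k : ℝ) * ρ^k * ρ⁻¹ := Finset.sum_le_sum hterm
    _ ≤ ∑ k ∈ Finset.range (n+1), (k : ℝ) * ρ^k * ρ⁻¹ :=
        Finset.sum_le_sum_of_subset_of_nonneg (Finset.range_subset_range.2 (by omega))
          (fun i _ _ => by positivity)

/-- TARGET T9. -/
theorem exists_big_sum (M : ℝ) (hM : 1 < M) (n : ℕ) (hn : 2 ≤ n) :
    ∃ (f : ℂ → ℂ) (a : ℕ → ℂ), InSM M f ∧ PS a f ∧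
      min M ((n : ℝ) ^ 2) / 12 ≤ ‖∑ k ∈ Finset.range (n + 1), a k‖ := by
  obtain ⟨x, hx, hxM⟩ : ∃ x : ℝ, 1 < x ∧ x ^ 2 = M :=
    ⟨Real.sqrt M, by rw [Real.lt_sqrt (by norm_num)]; simpa using hM, Real.sq_sqrt (by linarith)⟩
  have hx0 : 0 < x := by linarith
  obtain ⟨ρ, hρ⟩ : ∃ ρ : ℝ, ρ = 1 - 1/x := ⟨_, rfl⟩
  have hρ0 : 0 < ρ := by
    rw [hρ]
    have := (div_lt_one hx0).2 hx
    linarith
  have hρ1 : ρ < 1 := by
    rw [hρ]
    have : 0 < 1/x := by positivity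
    linarith
  have hden : ∀ z : ℂ, ‖z‖ < 1 → 1 - ρ ≤ ‖1 - (ρ : ℂ) * z‖ := by
    intro z hz
    have h1 := norm_sub_norm_le (1 : ℂ) ((ρ : ℂ) * z)
    rw [norm_one, norm_mul, Complex.norm_real, Real.norm_of_nonneg hρ0.le] at h1
    nlinarith [norm_nonneg z]
  have hne : ∀ z : ℂ, ‖z‖ < 1 → 1 - (ρ : ℂ) * z ≠ 0 := by
    intro z hz h0
    have := hden z hz
    rw [h0, norm_zero] at this
    linarith
  have hdiff : ∀ z : ℂ, ‖z‖ < 1 → DifferentiableAt ℂ (fun z : ℂ => z / (1 - (ρ : ℂ) * z) ^ 2) z := by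
    intro z hz
    apply DifferentiableAt.div differentiableAt_id
    · exact ((differentiableAt_const _).sub ((differentiableAt_const _).mul differentiableAt_id)).pow 2
    · exact pow_ne_zero 2 (hne z hz)
  refine ⟨fun z => z / (1 - (ρ : ℂ) * z) ^ 2, fun k => (k : ℂ) * (ρ : ℂ) ^ k * (ρ : ℂ)⁻¹,
    ⟨?_, ?_, ?_, ?_, ?_⟩, ?_, ?_⟩
  · intro z hz
    exact (hdiff z (by simpa using hz)).differentiableWithinAt
  · intro z hz w hw hzw
    have hz1 : ‖z‖ < 1 := by simpa using hz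
    have hw1 : ‖w‖ < 1 := by simpa using hw
    have h1 : z / (1 - (ρ : ℂ) * z) ^ 2 = w / (1 - (ρ : ℂ) * w) ^ 2 := hzw
    rw [div_eq_div_iff (pow_ne_zero 2 (hne z hz1)) (pow_ne_zero 2 (hne w hw1))] at h1
    have h2 : (z - w) * (1 - (ρ : ℂ) ^ 2 * z * w) = 0 := by linear_combination h1
    rcases mul_eq_zero.1 h2 with h3 | h3
    · exact sub_eq_zero.1 h3
    · exfalso
      have h4 : (ρ : ℂ) ^ 2 * z * w = 1 := (sub_eq_zero.1 h3).symm
      have h5 := congrArg norm h4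
      rw [norm_mul, norm_mul, norm_pow, Complex.norm_real, Real.norm_of_nonneg hρ0.le, norm_one] at h5
      have h6 : ρ ^ 2 * ‖z‖ * ‖w‖ < 1 := by
        have h7 : ρ ^ 2 ≤ 1 := pow_le_one₀ hρ0.le hρ1.le
        have h8 : ρ ^ 2 * ‖z‖ ≤ 1 := by nlinarith [norm_nonneg z]
        calc ρ ^ 2 * ‖z‖ * ‖w‖ ≤ 1 * ‖w‖ := mul_le_mul_of_nonneg_right h8 (norm_nonneg w)
          _ < 1 := by linarith
      linarith
  · simp
  · have h1 : HasDerivAt (fun z : ℂ => (1 - (ρ : ℂ) * z) ^ 2) (2 * (1 - (ρ : ℂ) * 0) * (-(ρ : ℂ))) 0 := by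
      have h2 : HasDerivAt (fun z : ℂ => 1 - (ρ : ℂ) * z) (-(ρ : ℂ)) 0 := by
        simpa using ((hasDerivAt_id (0 : ℂ)).const_mul (ρ : ℂ)).const_sub 1
      have h3 := h2.fun_pow 2
      simpa using h3
    have h4 := (hasDerivAt_id (0 : ℂ)).div h1 (by simp)
    have h5 := h4.deriv
    have h6 : (fun z : ℂ => z / (1 - (ρ : ℂ) * z) ^ 2) =
        (fun z : ℂ => id z) / (fun z : ℂ => (1 - (ρ : ℂ) * z) ^ 2) := rfl
    rw [h6]
    refine h5.trans ?_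
    simp
  · intro z hz
    rw [norm_div, norm_pow]
    have h1 := hden z hz
    have h2 : 1 - ρ = 1 / x := by rw [hρ]; ring
    have h3 : (0 : ℝ) < 1 / x := by positivity
    rw [h2] at h1
    have h4 : (1 / x) ^ 2 ≤ ‖1 - (ρ : ℂ) * z‖ ^ 2 := pow_le_pow_left₀ h3.le h1 2
    have h5 : 0 < ‖1 - (ρ : ℂ) * z‖ ^ 2 := lt_of_lt_of_le (by positivity) h4
    rw [div_le_iff₀ h5]
    have h6 : M * (1 / x) ^ 2 = 1 := by rw [← hxM]; field_simp
    have hM0 : 0 < M := by linarith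
    have h7 := mul_le_mul_of_nonneg_left h4 hM0.le
    linarith
  · intro z hz
    have h1 : ‖(ρ : ℂ) * z‖ < 1 := by
      rw [norm_mul, Complex.norm_real, Real.norm_of_nonneg hρ0.le]
      nlinarith [norm_nonneg z]
    have h2 := (hasSum_coe_mul_geometric_of_norm_lt_one h1).mul_left ((ρ : ℂ)⁻¹)
    have hρc : (ρ : ℂ) ≠ 0 := by exact_mod_cast hρ0.ne'
    have h3 : (ρ : ℂ)⁻¹ * ((ρ : ℂ) * z / (1 - (ρ : ℂ) * z) ^ 2) = z / (1 - (ρ : ℂ) * z) ^ 2 := by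
      field_simp
    rw [h3] at h2
    refine h2.congr_fun ?_ |> id
    intro k
    rw [mul_pow]
    ring
  · have h1 := T9_lower x hx n hn
    rw [hxM, ← hρ] at h1
    have h2 : (∑ k ∈ Finset.range (n + 1), (k : ℂ) * (ρ : ℂ) ^ k * (ρ : ℂ)⁻¹) =
        ((∑ k ∈ Finset.range (n + 1), (k : ℝ) * ρ ^ k * ρ⁻¹ : ℝ) : ℂ) := by
      push_cast
      rfl
    rw [h2, Complex.norm_real]
    exact h1.trans (le_abs_self _)

end Pool.Agent.Helper671.UP
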